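import Pool.Agent.R90.W.Main

set_option autoImplicit false

/-!
# Closure in the situation `Sit`
-/

namespace Pool.Agent.R90.W

open Finset

section
variable {A B : ℕ → ℤ} {R : ℕ}

/-- The data extracted from a trade. -/
structure TData (A B : ℕ → ℤ) (R k : ℕ) (V : Fin k → ℕ → ℤ) (c t : Fin k → ℕ) (d : ℤ) : Prop where
  can : ∀ i, Can A B R (V i) (c i) (t i)
  sum : ∀ h, 0 ≤ ∑ i, (V i h - WW A B (t i) h) + d * (A h - B h)
  neg : d < 0 → ∃ i, t i = 1
  dk : (∀ i, t i ≠ 1) → 0 ≤ d

lemma exists_tdata (s : Sit A B R) {k : ℕ} (tr : Tr A B k) :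
    ∃ V c t d, TData A B R k V c t d := by
  classical
  obtain ⟨L, a, b, hab, hL, hh⟩ := tr
  choose V c t hcan hLV using fun i => exists_can s (hL i)
  set nA : ℤ := ∑ i : Fin k, (if t i = 1 then (0:ℤ) else 1) with hnA
  have key : (∀ i, t i ≠ 1) → 0 ≤ nA - a := by
    intro hall
    have : nA = k := by
      rw [hnA, sum_congr rfl (fun i _ => if_neg (hall i))]; simp
    rw [this, ← hab]; push_cast; omega
  refine ⟨V, c, t, nA - a, hcan, ?_, ?_, key⟩
  · intro h
    have h1 := hh h
    have h2 : ∑ i, L i h ≤ ∑ i, V i h := sum_le_sum (fun i _ => hLV i h)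
    have h3 : ∑ i, (V i h - WW A B (t i) h) =
        ∑ i, V i h - (nA * A h + (k - nA) * B h) := by
      rw [sum_sub_distrib]
      congr 1
      have : ∀ i : Fin k, WW A B (t i) h =
          (if t i = 1 then (0:ℤ) else 1) * A h + (1 - (if t i = 1 then (0:ℤ) else 1)) * B h := by
        intro i; unfold WW; split_ifs <;> ring
      rw [sum_congr rfl (fun i _ => this i), sum_add_distrib, ← sum_mul, ← sum_mul,
        sum_sub_distrib, ← hnA]
      simp
    rw [h3]
    have h4 : (k:ℤ) = a + b := by rw [← hab]; push_cast; ring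
    rw [h4]
    nlinarith
  · intro hneg
    by_contra hcon
    push Not at hcon
    have := key hcon
    omega

lemma S_R_nice (s : Sit A B R) (cR : Cor A R) : Nice A B (T R (A R - 1)) A R := by
  have h1 := s.A_pos cR
  have h2 := s.hR
  have h3 := T_at s.pA cR
  exact ⟨⟨T_path _ _ (by omega) (by omega), ⟨R, by omega⟩, ⟨R, by omega⟩⟩, Or.inl rfl,
    fun h hh => T_off s.pA cR h hh, by omega⟩

lemma PR_le (s : Sit A B R) (x : ℕ) : P A R x R ≤ A R := by
  unfold P
  have : T R (A R) R = A R := by rw [T_ge R _ R le_rfl (s.pA.nonneg R).2]; ring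
  rw [this]; exact min_le_right _ _

/-- `S_y R ≥ B R` for `y ∉ F` -/
lemma SR_ge (s : Sit A B R) {y : ℕ} (c : Cor B y) (hy : B y ≤ A y) : B R ≤ S B y R := by
  have hne : R ≠ y := by rintro rfl; have := s.hR; omega
  exact T_off s.pB c R hne

theorem clos_nd (s : Sit A B R) (nl : StmtN) (dr : StmtDR) (dl : StmtDL)
    (nd : ∀ h, B h < A h → ∃ e, Cor A e ∧ B e < A e ∧ (e ≠ h ∨ B h + 2 ≤ A h))
    {k : ℕ} (hk : 1 ≤ k) {V : Fin k → ℕ → ℤ} {c t : Fin k → ℕ} {d : ℤ}
    (D : TData A B R k V c t d) : Good A B := by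
  classical
  have hR := s.hR
  set X : Finset ℕ := (univ.filter (fun i => t i = 0)).image c with hX
  set Y : Finset ℕ := (univ.filter (fun i => t i = 1)).image c with hY
  have memX : ∀ x, x ∈ X ↔ ∃ i, t i = 0 ∧ c i = x := by intro x; simp [hX]
  have memY : ∀ x, x ∈ Y ↔ ∃ i, t i = 1 ∧ c i = x := by intro x; simp [hY]
  -- unpack the types
  have can0 : ∀ i, t i = 0 → Cor A (c i) ∧ B (c i) ≤ A (c i) ∧ V i = PV A B R (c i) := by
    intro i hi
    rcases D.can i with ⟨-, h⟩ | ⟨h0, -⟩ | ⟨h0, -⟩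
    · exact h
    · omega
    · omega
  have can1 : ∀ i, t i = 1 → Cor B (c i) ∧ B (c i) ≤ A (c i) ∧ V i = S B (c i) := by
    intro i hi
    rcases D.can i with ⟨h0, -⟩ | ⟨-, h⟩ | ⟨h0, -⟩
    · omega
    · exact h
    · omega
  have can2 : ∀ i, t i ≠ 0 → t i ≠ 1 → t i = 2 ∧ Cor A R ∧ c i = R ∧ V i = T R (A R - 1) := by
    intro i h0 h1
    rcases D.can i with ⟨h, -⟩ | ⟨h, -⟩ | h
    · omega
    · omega
    · exact h
  have hXc : ∀ x ∈ X, Cor A x ∧ B x ≤ A x := by
    intro x hx; obtain ⟨i, hi, rfl⟩ := (memX x).1 hx; exact ⟨(can0 i hi).1, (can0 i hi).2.1⟩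
  have hYc : ∀ x ∈ Y, Cor B x ∧ B x ≤ A x := by
    intro x hx; obtain ⟨i, hi, rfl⟩ := (memY x).1 hx; exact ⟨(can1 i hi).1, (can1 i hi).2.1⟩
  have WA : ∀ i, t i ≠ 1 → WW A B (t i) = A := by intro i hi; unfold WW; rw [if_neg hi]
  have WB : ∀ i, t i = 1 → WW A B (t i) = B := by intro i hi; unfold WW; rw [if_pos hi]
  -- value at R of the third type
  have T2R : Cor A R → T R (A R - 1) R = A R - 1 := fun cR => T_at s.pA cR
  -- the generic helper extraction
  have help : ∀ i0 h, c i0 = h → 0 ≤ ∑ i, (V i h - WW A B (t i) h) →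
      ∃ i, WW A B (t i) h + 1 ≤ V i h := by
    intro i0 h hc hs
    by_contra hcon
    push Not at hcon
    have h2 : ∑ j, (V j h - WW A B (t j) h) < 0 := by
      apply Finset.sum_neg'
      · intro j _; have := hcon j; omega
      · refine ⟨i0, mem_univ _, ?_⟩
        have := can_at s (D.can i0)
        rw [hc] at this; omega
    omega
  -- nonempty
  have hne : (X ∪ Y).Nonempty := by
    by_contra hcon
    rw [Finset.not_nonempty_iff_eq_empty] at hcon
    have hno0 : ∀ i, t i ≠ 0 := by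
      intro i hi
      have : c i ∈ X ∪ Y := mem_union_left _ ((memX _).2 ⟨i, hi, rfl⟩)
      rw [hcon] at this; exact absurd this (notMem_empty _)
    have hno1 : ∀ i, t i ≠ 1 := by
      intro i hi
      have : c i ∈ X ∪ Y := mem_union_right _ ((memY _).2 ⟨i, hi, rfl⟩)
      rw [hcon] at this; exact absurd this (notMem_empty _)
    have hd := D.dk hno1
    have h1 := D.sum R
    have h2 : ∑ i, (V i R - WW A B (t i) R) < 0 := by
      apply Finset.sum_neg'
      · intro j _
        obtain ⟨-, cR, -, hV⟩ := can2 j (hno0 j) (hno1 j)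
        rw [WA j (hno1 j), hV, T2R cR]; omega
      · refine ⟨⟨0, hk⟩, mem_univ _, ?_⟩
        obtain ⟨-, cR, -, hV⟩ := can2 ⟨0, hk⟩ (hno0 _) (hno1 _)
        rw [WA _ (hno1 _), hV, T2R cR]; omega
    nlinarith
  -- nice pairs `P_e, B` helping a point of E
  have hPB : ∀ h, B h < A h → ∃ L W, Nice A B L W R ∧ W h + 1 ≤ L h := by
    intro h hh
    obtain ⟨e, ce, he, hc⟩ := nd h hh
    refine ⟨P A R e, B, P_niceB s ce he, ?_⟩
    by_cases heh : h = e
    · subst heh
      rcases hc with hc | hc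
      · exact absurd rfl hc
      · have := (P_niceA s ce).at_; omega
    · have := (P_niceA s ce).off h heh; omega
  -- the conversion of a helper into the closure options
  have conv : ∀ i h, WW A B (t i) h + 1 ≤ V i h →
      (∃ x ∈ X, A h + 1 ≤ PV A B R x h) ∨ (∃ y ∈ Y, B h + 1 ≤ S B y h) ∨
      (t i = 2 ∧ Nice A B (T R (A R - 1)) A R ∧ A h + 1 ≤ T R (A R - 1) h) := by
    intro i h hi
    by_cases h0 : t i = 0
    · left
      refine ⟨c i, (memX _).2 ⟨i, h0, rfl⟩, ?_⟩
      rw [WA i (by omega), (can0 i h0).2.2] at hi; exact hi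
    by_cases h1 : t i = 1
    · right; left
      refine ⟨c i, (memY _).2 ⟨i, h1, rfl⟩, ?_⟩
      rw [WB i h1, (can1 i h1).2.2] at hi; exact hi
    · right; right
      obtain ⟨h2, cR, -, hV⟩ := can2 i h0 h1
      refine ⟨h2, S_R_nice s cR, ?_⟩
      rw [WA i h1, hV] at hi; exact hi
  -- a helper of R is of type 0 (alpha) or 1
  have helpR : (∃ i, WW A B (t i) R + 1 ≤ V i R) →
      (∃ z ∈ X, A z = B z ∧ A R + 1 ≤ T z (A z - 1) R) ∨ (∃ y ∈ Y, B R + 1 ≤ S B y R) := by
    rintro ⟨i, hi⟩
    rcases conv i R hi with ⟨x, hx, h1⟩ | h1 | ⟨h2, -, h1⟩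
    · left
      refine ⟨x, hx, ?_⟩
      by_cases hz : A x = B x
      · rw [PV_eq_of_lt hz] at h1; exact ⟨hz, h1⟩
      · rw [PV_eq_of_ne hz] at h1
        have := PR_le s x; omega
    · exact Or.inr h1
    · exfalso
      obtain ⟨-, cR, -, -⟩ := can2 i (by omega) (by omega)
      rw [T2R cR] at h1; omega
  -- N-lemma application
  have useN : ((0 < d ∨ ∃ i, t i = 2) → (∃ z ∈ X, A z = B z ∧ A R + 1 ≤ T z (A z - 1) R) ∨
      (∃ y ∈ Y, B R + 1 ≤ S B y R) ∨
      (∃ z ∈ Y, A z = B z ∧ Cor A z ∧ A R + 1 ≤ T z (A z - 1) R)) → Good A B := by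
    intro hfl
    refine nl A B R s nd X Y hXc hYc hne (0 < d ∨ ∃ i, t i = 2) hfl ?_
    intro x hx
    have hxle : B x ≤ A x := by
      rcases mem_union.1 hx with h | h
      · exact (hXc x h).2
      · exact (hYc x h).2
    obtain ⟨i0, hi0⟩ : ∃ i0, c i0 = x := by
      rcases mem_union.1 hx with h | h
      · obtain ⟨i, -, h2⟩ := (memX x).1 h; exact ⟨i, h2⟩
      · obtain ⟨i, -, h2⟩ := (memY x).1 h; exact ⟨i, h2⟩
    by_cases hE : 0 < d ∧ B x < A x
    · right; right
      exact ⟨Or.inl hE.1, hPB x hE.2⟩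
    · have hs : 0 ≤ ∑ i, (V i x - WW A B (t i) x) := by
        have h1 := D.sum x
        have h2 : d * (A x - B x) ≤ 0 := by
          by_cases hd : 0 < d
          · have : A x - B x = 0 := by
              have : ¬ B x < A x := fun h => hE ⟨hd, h⟩
              omega
            rw [this]; simp
          · exact mul_nonpos_of_nonpos_of_nonneg (by omega) (by omega)
        linarith
      obtain ⟨i, hi⟩ := help i0 x hi0 hs
      rcases conv i x hi with h1 | h1 | ⟨h2, h3, h4⟩
      · exact Or.inl h1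
      · exact Or.inr (Or.inl h1)
      · exact Or.inr (Or.inr ⟨Or.inr ⟨i, h2⟩, _, _, h3, h4⟩)
  by_cases hfl : (0 < d ∨ ∃ i, t i = 2) → (∃ z ∈ X, A z = B z ∧ A R + 1 ≤ T z (A z - 1) R) ∨
      (∃ y ∈ Y, B R + 1 ≤ S B y R) ∨
      (∃ z ∈ Y, A z = B z ∧ Cor A z ∧ A R + 1 ≤ T z (A z - 1) R)
  · exact useN hfl
  push Not at hfl
  obtain ⟨hfl0, nA1, nA2, nA3⟩ := hfl
  -- nobody helps R
  have noR : ∀ i, V i R ≤ WW A B (t i) R := by
    intro i
    by_contra hcon
    rcases helpR ⟨i, by omega⟩ with ⟨z, hz, h1, h2⟩ | ⟨y, hy, h1⟩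
    · have := nA1 z hz h1; omega
    · have := nA2 y hy; omega
  have hd0 : d ≤ 0 := by
    by_contra hd
    have h1 := D.sum R
    have h2 : ∑ i, (V i R - WW A B (t i) R) ≤ 0 :=
      Finset.sum_nonpos (fun i _ => by have := noR i; omega)
    rw [hR] at h1
    nlinarith
  obtain ⟨i2, hi2⟩ : ∃ i, t i = 2 := by
    rcases hfl0 with h | h
    · omega
    · exact h
  obtain ⟨-, cR, -, -⟩ := can2 i2 (by omega) (by omega)
  -- number of vectors of type 2
  set m : ℤ := ∑ i : Fin k, (if t i = 2 then (1:ℤ) else 0) with hm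
  have hm1 : 1 ≤ m := by
    have : (if t i2 = 2 then (1:ℤ) else 0) ≤ m :=
      Finset.single_le_sum (f := fun i => if t i = 2 then (1:ℤ) else 0)
        (fun i _ => by positivity) (mem_univ i2)
    rw [if_pos hi2] at this; exact this
  -- split of the sums
  have split : ∀ h, ∑ i, (V i h - WW A B (t i) h) =
      ∑ i, (if t i = 2 then 0 else (V i h - WW A B (t i) h)) + m * (T R (A R - 1) h - A h) := by
    intro h
    rw [hm, sum_mul, ← sum_add_distrib]
    refine sum_congr rfl (fun i _ => ?_)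
    by_cases h2 : t i = 2
    · obtain ⟨-, -, -, hV⟩ := can2 i (by omega) (by omega)
      rw [if_pos h2, if_pos h2, WA i (by omega), hV]; ring
    · rw [if_neg h2, if_neg h2]; ring
  have hdm : d ≤ -m := by
    have h1 := D.sum R
    rw [split R, T2R cR, hR] at h1
    have h2 : ∑ i, (if t i = 2 then 0 else (V i R - WW A B (t i) R)) ≤ 0 :=
      Finset.sum_nonpos (fun i _ => by have := noR i; split_ifs <;> omega)
    nlinarith
  have hHlp : ∀ i h, t i ≠ 2 → WW A B (t i) h + 1 ≤ V i h → Hlp A B R X Y h := by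
    intro i h h2 hi
    rcases conv i h hi with ⟨x, hx, h1⟩ | h1 | ⟨h3, -⟩
    · left
      refine ⟨x, hx, ?_⟩
      by_cases hz : A x = B x
      · rw [PV_eq_of_lt hz] at h1
        have h3 := nA1 x hx hz
        have hp := s.A_pos (hXc x hx).1
        have h4 := le_T (T_path x (A x - 1) (by omega) (by omega)) R (A R) (by omega) h
        exact le_min h1 (by omega)
      · rw [PV_eq_of_ne hz] at h1; exact h1
    · exact Or.inr h1
    · exact absurd h3 h2
  have c1 : ∀ h, B h ≤ A h → T R (A R - 1) h + B h < 2 * A h → Hlp A B R X Y h := by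
    intro h hh hlt
    by_contra hcon
    have h1 := D.sum h
    rw [split h] at h1
    have h2 : ∑ i, (if t i = 2 then 0 else (V i h - WW A B (t i) h)) ≤ 0 := by
      refine Finset.sum_nonpos (fun i _ => ?_)
      by_cases h2 : t i = 2
      · rw [if_pos h2]
      · rw [if_neg h2]
        by_contra hc
        exact hcon (hHlp i h h2 (by omega))
    have h3 : d * (A h - B h) ≤ -m * (A h - B h) :=
      mul_le_mul_of_nonneg_right hdm (by omega)
    nlinarith
  have c2 : ∀ x ∈ X ∪ Y, 2 * A x + 1 ≤ T R (A R - 1) x + B x ∨ Hlp A B R X Y x := by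
    intro x hx
    by_contra hcon
    push Not at hcon
    obtain ⟨hc1, hc2⟩ := hcon
    have hxle : B x ≤ A x := by
      rcases mem_union.1 hx with h | h
      · exact (hXc x h).2
      · exact (hYc x h).2
    obtain ⟨i0, hi0, hi1⟩ : ∃ i0, c i0 = x ∧ t i0 ≠ 2 := by
      rcases mem_union.1 hx with h | h
      · obtain ⟨i, h1, h2⟩ := (memX x).1 h; exact ⟨i, h2, by omega⟩
      · obtain ⟨i, h1, h2⟩ := (memY x).1 h; exact ⟨i, h2, by omega⟩
    have h1 := D.sum x
    rw [split x] at h1
    have h2 : ∑ i, (if t i = 2 then 0 else (V i x - WW A B (t i) x)) < 0 := by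
      apply Finset.sum_neg'
      · intro i _
        by_cases h2 : t i = 2
        · rw [if_pos h2]
        · rw [if_neg h2]
          by_contra hc
          exact hc2 (hHlp i x h2 (by omega))
      · refine ⟨i0, mem_univ _, ?_⟩
        rw [if_neg hi1]
        have := can_at s (D.can i0)
        rw [hi0] at this; omega
    have h3 : d * (A x - B x) ≤ -m * (A x - B x) :=
      mul_le_mul_of_nonneg_right hdm (by omega)
    nlinarith
  have hYne : Y.Nonempty := by
    obtain ⟨i, hi⟩ := D.neg (by omega)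
    exact ⟨c i, (memY _).2 ⟨i, hi, rfl⟩⟩
  have hXZ : ∀ x ∈ X, A x = B x → T x (A x - 1) R ≤ A R := by
    intro x hx hz; have := nA1 x hx hz; omega
  have hSR : ∀ y ∈ Y, S B y R = B R := by
    intro y hy
    have h1 := SR_ge s (hYc y hy).1 (hYc y hy).2
    have h2 := nA2 y hy
    omega
  have hYZ : ∀ y ∈ Y, A y = B y → ¬ Cor A y := by
    intro y hy hz hc
    have h1 := nA3 y hy hz hc
    have h2 := hSR y hy
    unfold S at h2
    rw [← hz] at h2
    omega
  by_cases hall : ∀ y ∈ Y, R < y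
  · exact dr A B R s cR X Y hXc hXZ (fun y hy => ⟨(hYc y hy).1, (hYc y hy).2, hSR y hy, hall y hy⟩)
      hYZ hYne c1 c2
  push Not at hall
  obtain ⟨y, hy, hyR⟩ := hall
  have hyR' : y < R := by
    rcases lt_or_eq_of_le hyR with h | h
    · exact h
    · exfalso; have := (hYc y hy).2; rw [h] at this; omega
  have low : ∀ y' ∈ Y, y' < R → B y' = B R - ((R:ℤ) - y') + 1 := by
    intro y' hy' h'
    have h1 := hSR y' hy'
    unfold S at h1
    have h2 := s.pB.nonneg y'
    rw [T_ge _ _ _ (by omega) (by omega)] at h1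
    omega
  have hylow := low y hy hyR'
  by_cases hboth : ∃ y2 ∈ Y, R < y2
  · obtain ⟨y2, hy2, hR2⟩ := hboth
    have hyp : B y + 1 ≤ y := by
      rcases c2 y (mem_union_right _ hy) with h | h
      · rw [T_le _ _ _ (by omega)] at h
        have h1 := (hYc y hy).2
        omega
      · rcases h with ⟨x, hx, h⟩ | ⟨x, hx, h⟩
        · have h1 := (P_path s (hXc x hx).1).nonneg y
          have h2 := (hYc y hy).2
          omega
        · have h1 := (S_loses s (hYc x hx).1 (hYc x hx).2).1.nonneg y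
          omega
    refine mk2 (S_nice s (hYc y hy).1 (hYc y hy).2) (S_nice s (hYc y2 hy2).1 (hYc y2 hy2).2) ?_ ?_
    · unfold S
      rw [T_ge _ _ _ (by omega) (by omega)]
      have := s.corR.gt y2 hR2
      omega
    · unfold S
      rw [T_le _ _ _ (by omega)]
      have := s.corR.lt y hyR'
      have := (hYc y2 hy2).1.lt R hR2
      omega
  · push Not at hboth
    have huniq : ∀ y' ∈ Y, y' = y := by
      intro y' hy'
      have h1 : y' < R := by
        have h2 := hboth y' hy'
        rcases lt_or_eq_of_le h2 with h | h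
        · exact h
        · exfalso; have := (hYc y' hy').2; rw [h] at this; omega
      have h2 := low y' hy' h1
      by_contra hne
      rcases lt_or_gt_of_ne hne with h | h
      · have := (hYc y' hy').1.gt y h; omega
      · have := (hYc y hy).1.gt y' h; omega
    have hYeq : Y = {y} := by
      ext z; rw [mem_singleton]
      exact ⟨huniq z, fun h => h ▸ hy⟩
    rw [hYeq] at c1 c2
    refine dl A B R s cR X y hXc hXZ (hYc y hy).1 (hYc y hy).2 (hSR y hy) hyR' (hYZ y hy) c1 ?_
    intro x hx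
    refine c2 x ?_
    rw [mem_insert] at hx
    rw [mem_union, mem_singleton]
    tauto

end

end Pool.Agent.R90.W
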