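import Pool.Agent.R90.W.Clos

set_option autoImplicit false

/-!
# Closure in the degenerate case, and the main theorem on words
-/

namespace Pool.Agent.R90.W

open Finset

lemma min_path_evc {A B C : ℕ → ℤ} (eA : EvC A) (eB : EvC B) (hC : ∀ h, C h = min (A h) (B h)) :
    EvC C := by
  obtain ⟨n, hn⟩ := eA
  obtain ⟨m, hm⟩ := eB
  refine ⟨max n m, fun h hh => ?_⟩
  rw [hC, hC, hn h (by omega), hm h (by omega), hn (max n m) (by omega), hm (max n m) (by omega)]

/-- data of the degenerate situation, without an assumption on the order of `e` and `R` -/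
structure DSit (A B : ℕ → ℤ) (e R : ℕ) : Prop where
  pA : IsPath A
  pB : IsPath B
  eA : EvC A
  eB : EvC B
  le1 : ∀ h, A h ≤ B h + 1
  le2 : ∀ h, B h ≤ A h + 1
  he : A e = B e + 1
  hR : B R = A R + 1
  ce : Cor A e
  cR : Cor B R
  El : ∀ h, h < e → B h < A h → A e = A h + ((e:ℤ) - h)
  Er : ∀ h, e < h → B h < A h → A h = A e
  Fl : ∀ h, h < R → A h < B h → B R = B h + ((R:ℤ) - h)
  Fr : ∀ h, R < h → A h < B h → B h = B R

lemma DSit.symm {A B : ℕ → ℤ} {e R : ℕ} (s : DSit A B e R) : DSit B A R e :=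
  ⟨s.pB, s.pA, s.eB, s.eA, s.le2, s.le1, s.hR, s.he, s.cR, s.ce, s.Fl, s.Fr, s.El, s.Er⟩

/-- the closure in the degenerate situation -/
theorem clos_ds_aux {A B : ℕ → ℤ} {e R : ℕ} (s : DSit A B e R) {k : ℕ} (hk : 1 ≤ k)
    (tr : Tr A B k) (C : ℕ → ℤ) (hC : ∀ h, C h = min (A h) (B h)) :
    ∃ K : Finset ℕ, K.Nonempty ∧ (∀ z ∈ K, Cor C z) ∧
    (∀ z ∈ K, (∃ z' ∈ K, C z + 1 ≤ T z' (C z' - 1) z) ∨
      C z + 1 ≤ min (T e (C e) z) (T R (C R) z)) ∧
    ((∃ z ∈ K, C e + C R + 2 ≤ T z (C z - 1) e + T z (C z - 1) R) ∨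
    (∀ z ∈ K, C e + C R + 1 = T z (C z - 1) e + T z (C z - 1) R ∧
      ∃ z' ∈ K, C z + 1 ≤ T z' (C z' - 1) z)) := by
  classical
  have pC : IsPath C := by
    have := inf_path s.pA s.pB
    rwa [show (fun h => min (A h) (B h)) = C from (funext hC).symm] at this
  have eC : EvC C := min_path_evc s.eA s.eB hC
  obtain ⟨L, a, b, hab, hL, hh⟩ := tr
  have hCe : C e = A e - 1 := by rw [hC]; have := s.he; omega
  have hCR : C R = B R - 1 := by rw [hC]; have := s.hR; omega
  have hCe' : C e = B e := by have := s.he; omega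
  have hCR' : C R = A R := by have := s.hR; omega
  -- canonical vectors
  have can : ∀ i, ∃ (V : ℕ → ℤ) (z t : ℕ), ((t = 0 ∧ Cor C z ∧ V = T z (C z - 1)) ∨
      (t = 1 ∧ V = fun h => min (T e (C e) h) (T R (C R) h))) ∧ ∀ h, L i h ≤ V h := by
    intro i
    obtain ⟨pL, ⟨hA, hA'⟩, ⟨hB, hB'⟩⟩ := hL i
    by_cases hlt : ∃ h, L i h < C h
    · obtain ⟨h, hl⟩ := hlt
      have p0 := pL.nonneg h
      obtain ⟨z, -, cz, hz⟩ := exists_cor pC eC h 0 (by omega) (by rw [pC.zero]; omega)
      have hLz : L i z ≤ C z - 1 := by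
        rcases hz with ⟨h1, h2⟩ | ⟨h1, h2⟩
        · have := pL.mono h1; omega
        · have := pL.mono h1; omega
      exact ⟨_, z, 0, Or.inl ⟨rfl, cz, rfl⟩, fun h => le_T pL _ _ hLz h⟩
    · push Not at hlt
      -- value at e
      have hLe : L i e ≤ C e := by
        have h1 := hlt hA
        have h2 : B hA < A hA := by rw [hC] at h1; omega
        have h4 : C hA = A hA - 1 := by rw [hC]; have := s.le1 hA; omega
        rcases lt_trichotomy hA e with h3 | h3 | h3
        · have := s.El hA h3 h2; have := pL.mono (show hA ≤ e by omega); omega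
        · subst h3; omega
        · have := s.Er hA h3 h2; have := pL.mono (show e ≤ hA by omega); omega
      have hLR : L i R ≤ C R := by
        have h1 := hlt hB
        have h2 : A hB < B hB := by rw [hC] at h1; omega
        have h4 : C hB = B hB - 1 := by rw [hC]; have := s.le2 hB; omega
        rcases lt_trichotomy hB R with h3 | h3 | h3
        · have := s.Fl hB h3 h2; have := pL.mono (show hB ≤ R by omega); omega
        · subst h3; omega
        · have := s.Fr hB h3 h2; have := pL.mono (show R ≤ hB by omega); omega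
      exact ⟨_, 0, 1, Or.inr ⟨rfl, rfl⟩, fun h => le_min (le_T pL _ _ hLe h) (le_T pL _ _ hLR h)⟩
  choose V z t hcan hLV using can
  have cz : ∀ i, t i = 0 → Cor C (z i) ∧ V i = T (z i) (C (z i) - 1) := by
    intro i hi
    rcases hcan i with ⟨-, h⟩ | ⟨h0, -⟩
    · exact h
    · omega
  have cP : ∀ i, t i ≠ 0 → V i = fun h => min (T e (C e) h) (T R (C R) h) := by
    intro i hi
    rcases hcan i with ⟨h0, -⟩ | ⟨-, h⟩
    · exact absurd h0 hi
    · exact h
  have hVsum : ∀ h, (a:ℤ) * A h + b * B h ≤ ∑ i, V i h := fun h =>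
    le_trans (hh h) (sum_le_sum (fun i _ => hLV i h))
  have hkab : (k:ℤ) = a + b := by rw [← hab]; push_cast; ring
  have hsumC : ∀ h, (0:ℤ) ≤ ∑ i, (V i h - C h) := by
    intro h
    rw [sum_sub_distrib]
    simp only [sum_const, card_univ, Fintype.card_fin, nsmul_eq_mul]
    have h1 := hVsum h
    have h2 : C h ≤ A h := by rw [hC]; exact min_le_left _ _
    have h3 : C h ≤ B h := by rw [hC]; exact min_le_right _ _
    rw [hkab]
    have h5 : (0:ℤ) ≤ a := by positivity
    have h6 : (0:ℤ) ≤ b := by positivity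
    nlinarith
  have TCe : T e (C e) e = C e := by rw [T_ge _ _ _ le_rfl (pC.nonneg e).2]; ring
  have TCR : T R (C R) R = C R := by rw [T_ge _ _ _ le_rfl (pC.nonneg R).2]; ring
  have ho : (0:ℤ) ≤ ∑ i, (V i e + V i R - C e - C R - 1) := by
    have h1 := hVsum e
    have h2 := hVsum R
    have h3 : ∑ i, (V i e + V i R - C e - C R - 1) =
        ∑ i, V i e + ∑ i, V i R - k * (C e + C R + 1) := by
      rw [← sum_add_distrib]
      rw [show (k:ℤ) * (C e + C R + 1) = ∑ i : Fin k, (C e + C R + 1) by simp]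
      rw [← sum_sub_distrib]
      exact sum_congr rfl (fun i _ => by ring)
    rw [h3, hkab]
    have e1 : A e = C e + 1 := by omega
    have e2 : B e = C e := hCe'.symm
    have e3 : B R = C R + 1 := by omega
    have e4 : A R = C R := hCR'.symm
    rw [e1, e2] at h1
    rw [e3, e4] at h2
    linarith
  have hoP : ∀ i, t i ≠ 0 → V i e + V i R - C e - C R - 1 ≤ -1 := by
    intro i hi
    rw [cP i hi]
    have h1 := min_le_left (T e (C e) e) (T R (C R) e)
    have h2 := min_le_right (T e (C e) R) (T R (C R) R)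
    show min (T e (C e) e) (T R (C R) e) + min (T e (C e) R) (T R (C R) R) - C e - C R - 1 ≤ -1
    omega
  set K : Finset ℕ := (univ.filter (fun i => t i = 0)).image z with hK
  have memK : ∀ x, x ∈ K ↔ ∃ i, t i = 0 ∧ z i = x := by intro x; simp [hK]
  have hKne : K.Nonempty := by
    by_contra hcon
    rw [Finset.not_nonempty_iff_eq_empty] at hcon
    have hno : ∀ i, t i ≠ 0 := by
      intro i hi
      have : z i ∈ K := (memK _).2 ⟨i, hi, rfl⟩
      rw [hcon] at this; exact absurd this (notMem_empty _)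
    have : ∑ i, (V i e + V i R - C e - C R - 1) < 0 := by
      apply Finset.sum_neg'
      · intro j _; have := hoP j (hno j); omega
      · exact ⟨⟨0, hk⟩, mem_univ _, by have := hoP ⟨0, hk⟩ (hno _); omega⟩
    omega
  have help : ∀ x ∈ K, ∃ i, C x + 1 ≤ V i x := by
    intro x hx
    obtain ⟨i0, h0, rfl⟩ := (memK x).1 hx
    by_contra hcon
    push Not at hcon
    have h1 := hsumC (z i0)
    have h2 : ∑ j, (V j (z i0) - C (z i0)) < 0 := by
      apply Finset.sum_neg'
      · intro j _; have := hcon j; omega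
      · exact ⟨i0, mem_univ _, by rw [(cz i0 h0).2, T_at pC (cz i0 h0).1]; omega⟩
    omega
  refine ⟨K, hKne, ?_, ?_, ?_⟩
  · intro x hx
    obtain ⟨i, hi, rfl⟩ := (memK x).1 hx
    exact (cz i hi).1
  · intro x hx
    obtain ⟨i, hi⟩ := help x hx
    by_cases h0 : t i = 0
    · left
      exact ⟨z i, (memK _).2 ⟨i, h0, rfl⟩, by rw [(cz i h0).2] at hi; exact hi⟩
    · right
      rw [cP i h0] at hi; exact hi
  · by_cases hbig : ∃ i, 1 ≤ V i e + V i R - C e - C R - 1
    · left
      obtain ⟨i, hi⟩ := hbig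
      have h0 : t i = 0 := by
        by_contra h0; have := hoP i h0; omega
      refine ⟨z i, (memK _).2 ⟨i, h0, rfl⟩, ?_⟩
      rw [(cz i h0).2] at hi; omega
    · right
      push Not at hbig
      have hall : ∀ i, V i e + V i R - C e - C R - 1 = 0 := by
        intro i
        by_contra hne
        have : ∑ i, (V i e + V i R - C e - C R - 1) < 0 := by
          apply Finset.sum_neg'
          · intro j _; have := hbig j; omega
          · exact ⟨i, mem_univ _, by have := hbig i; omega⟩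
        omega
      have ht : ∀ i, t i = 0 := by
        intro i; by_contra h0; have := hoP i h0; have := hall i; omega
      intro x hx
      obtain ⟨i, hi, rfl⟩ := (memK x).1 hx
      refine ⟨?_, ?_⟩
      · have := hall i; rw [(cz i hi).2] at this; omega
      · obtain ⟨j, hj⟩ := help _ hx
        exact ⟨z j, (memK _).2 ⟨j, ht j, rfl⟩, by rw [(cz j (ht j)).2] at hj; exact hj⟩

theorem clos_ds {A B : ℕ → ℤ} {e R : ℕ} (s : DSit A B e R) (ds : StmtDS) {k : ℕ} (hk : 1 ≤ k)
    (tr : Tr A B k) : Good A B := by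
  have hne : e ≠ R := by rintro rfl; have := s.he; have := s.hR; omega
  rcases lt_or_gt_of_ne hne with h | h
  · obtain ⟨K, h1, h2, h3, h4⟩ := clos_ds_aux s hk tr (fun h => min (A h) (B h)) (fun _ => rfl)
    exact ds A B _ e R s.pA s.pB s.eA s.eB (fun _ => rfl) h s.le1 s.le2 s.he s.hR s.ce s.cR
      s.El s.Er s.Fl s.Fr K h1 h2 h3 h4
  · obtain ⟨K, h1, h2, h3, h4⟩ := clos_ds_aux s.symm hk tr.symm (fun h => min (B h) (A h))
      (fun _ => rfl)
    exact (ds B A _ R e s.pB s.pA s.eB s.eA (fun _ => rfl) h s.le2 s.le1 s.hR s.he s.cR s.ce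
      s.Fl s.Fr s.El s.Er K h1 h2 h3 h4).symm

theorem clos_sit {A B : ℕ → ℤ} {R : ℕ} (s : Sit A B R) (nl : StmtN) (dr : StmtDR) (dl : StmtDL)
    (ds : StmtDS) {k : ℕ} (hk : 1 ≤ k) (tr : Tr A B k) : Good A B := by
  by_cases nd : ∀ h, B h < A h → ∃ e, Cor A e ∧ B e < A e ∧ (e ≠ h ∨ B h + 2 ≤ A h)
  · obtain ⟨V, c, t, d, D⟩ := exists_tdata s tr
    exact clos_nd s nl dr dl nd hk D
  · push Not at nd
    obtain ⟨e, he, hun⟩ := nd
    have hpos : A 0 < A e := by
      have := s.pB.nonneg e; rw [s.pA.zero]; omega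
    obtain ⟨c, -, cc, hc⟩ := exists_cor s.pA s.eA e 0 (by omega) hpos
    have hcE : B c < A c := by
      rcases hc with ⟨h1, h2⟩ | ⟨h1, h2⟩
      · have := s.pB.mono h1; omega
      · have := s.pB.mono h1; omega
    have hce := (hun c cc hcE).1
    subst hce
    have h1 := (hun c cc hcE).2
    have he1 : A c = B c + 1 := by omega
    -- every point of E is dominated
    have dom : ∀ h, B h < A h → (c ≤ h ∧ A c = A h) ∨ (h ≤ c ∧ A c = A h + ((c:ℤ) - h)) := by
      intro h hh
      have hpos : A 0 < A h := by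
        have := s.pB.nonneg h; rw [s.pA.zero]; omega
      obtain ⟨x, -, cx, hx⟩ := exists_cor s.pA s.eA h 0 (by omega) hpos
      have hxE : B x < A x := by
        rcases hx with ⟨h1, h2⟩ | ⟨h1, h2⟩
        · have := s.pB.mono h1; omega
        · have := s.pB.mono h1; omega
      have := (hun x cx hxE).1
      subst this
      exact hx
    have le1 : ∀ h, A h ≤ B h + 1 := by
      intro h
      by_cases hh : B h < A h
      · rcases dom h hh with ⟨h1, h2⟩ | ⟨h1, h2⟩
        · have := s.pB.mono h1; omega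
        · have := s.pB.mono h1; omega
      · omega
    refine clos_ds (e := c) (R := R) ⟨s.pA, s.pB, s.eA, s.eB, le1, s.le, he1, s.hR, cc, s.corR,
      ?_, ?_, s.Fl, s.Fr⟩ ds hk tr
    · intro h hlt hh
      rcases dom h hh with ⟨h1, h2⟩ | ⟨h1, h2⟩
      · omega
      · exact h2
    · intro h hlt hh
      rcases dom h hh with ⟨h1, h2⟩ | ⟨h1, h2⟩
      · exact h2.symm
      · omega

/-- **Main theorem on words.** A trade of any length gives a trade of length 2 or 3. -/
theorem main_words (nl : StmtN) (dr : StmtDR) (dl : StmtDL) (ds : StmtDS) {A B : ℕ → ℤ}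
    (pA : IsPath A) (pB : IsPath B) (eA : EvC A) (eB : EvC B) {k : ℕ} (hk : 1 ≤ k)
    (tr : Tr A B k) : Good A B := by
  by_cases hF : ∃ h, A h < B h
  · by_cases hE : ∃ h, B h < A h
    · rcases L0 pA pB eA eB hE hF with h | ⟨R, s⟩ | ⟨R, s⟩
      · exact h
      · exact clos_sit s nl dr dl ds hk tr
      · exact (clos_sit s nl dr dl ds hk tr.symm).symm
    · push Not at hE
      exact (one_word pB pA eA hE hk tr.symm).symm
  · push Not at hF
    exact one_word pA pB eB hF hk tr

end Pool.Agent.R90.W
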