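import Pool.Agent.R90.W.Defs

set_option autoImplicit false
set_option linter.unusedSectionVars false
set_option linter.unusedVariables false

/-!
# The D'-lemma, left case
-/

namespace Pool.Agent.R90.W

open Finset

/-- helping in numbers -/
def Hp (A B : ℕ → ℤ) (R : ℕ) (X : Finset ℕ) (y h : ℕ) : Prop :=
  (∃ x ∈ X, x < R ∧ ((h < x ∧ A h + 1 ≤ h ∧ A h + 2 ≤ A x) ∨
    (x < h ∧ A h + 2 ≤ A x + ((h:ℤ) - x)))) ∨
  (h < y ∧ B h + 1 ≤ h ∧ B h + 2 ≤ B y)

/-- the context of the left case -/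
structure DLC (A B : ℕ → ℤ) (R : ℕ) (X : Finset ℕ) (y : ℕ) : Prop where
  s : Sit A B R
  cR : Cor A R
  hX : ∀ x ∈ X, Cor A x ∧ B x ≤ A x
  XR : ∀ x ∈ X, x < R
  cy : Cor B y
  hy : B y ≤ A y
  eR : B y + R = A R + 2 + y
  yR : y < R
  ny : A y = B y → ¬ Cor A y
  y1 : A y + 1 ≤ y
  C1 : ∀ h, h < R → B h ≤ A h → min (h:ℤ) (A R - 1) + B h < 2 * A h → Hp A B R X y h
  C2 : ∀ c, c = y ∨ c ∈ X → 2 * A c + 1 ≤ min (c:ℤ) (A R - 1) + B c ∨ Hp A B R X y c

section
variable {A B : ℕ → ℤ} {R y : ℕ} {X : Finset ℕ}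

lemma P_lt (s : Sit A B R) {x h : ℕ} (c : Cor A x) (hx : h < x) (hR : h < R) (cR : Cor A R) 
    (h1 : A h + 1 ≤ h) (h2 : A h + 2 ≤ A x) : A h + 1 ≤ P A R x h := by
  unfold P
  rw [T_le x _ h hx.le, T_le R _ h hR.le]
  have := cR.lt h hR
  omega

lemma P_gt (s : Sit A B R) {x h : ℕ} (c : Cor A x) (hx : x < h) (hR : h < R) (cR : Cor A R) 
    (h2 : A h + 2 ≤ A x + ((h:ℤ) - x)) : A h + 1 ≤ P A R x h := by
  unfold P
  have h0 := s.pA.nonneg x
  rw [T_ge x _ h hx.le (by omega), T_le R _ h hR.le]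
  have := cR.lt h hR
  omega

lemma P_inv (s : Sit A B R) {x h : ℕ} (c : Cor A x) (hR : h < R) (cR : Cor A R) 
    (h2 : A h + 1 ≤ P A R x h) : (h < x ∧ A h + 1 ≤ h ∧ A h + 2 ≤ A x) ∨ 
      (x < h ∧ A h + 2 ≤ A x + ((h:ℤ) - x)) := by
  unfold P at h2
  have h0 := s.pA.nonneg x
  rcases lt_trichotomy h x with k | k | k
  · rw [T_le x _ h k.le, T_le R _ h hR.le] at h2
    left; omega
  · subst k
    rw [T_le h _ h le_rfl] at h2
    omega
  · rw [T_ge x _ h k.le (by omega), T_le R _ h hR.le] at h2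
    right; omega

lemma S_lt' (h : ℕ) (hh : h ≤ y) : S B y h = min (h:ℤ) (B y - 1) := T_le _ _ _ hh

lemma S_ge' (s : Sit A B R) (h : ℕ) (hh : y ≤ h) : S B y h = B y - 1 + ((h:ℤ) - y) := by
  have := s.pB.nonneg y
  exact T_ge _ _ _ hh (by omega)

lemma S_inv (s : Sit A B R) (cy : Cor B y) {h : ℕ} 
    (h2 : B h + 1 ≤ S B y h) : (h < y ∧ B h + 1 ≤ h ∧ B h + 2 ≤ B y) ∨ (y < h ∧ B h + 2 ≤ B y + ((h:ℤ) - y)) := by
  have := s.pB.nonneg y
  rcases lt_trichotomy h y with k | k | k
  · rw [S_lt' h k.le] at h2; left; omega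
  · subst k; rw [S_lt' h le_rfl] at h2; omega
  · rw [S_ge' s h k.le] at h2; right; omega

lemma DLC.Bgt (c : DLC A B R X y) {h : ℕ} (h1 : y < h) (h2 : h ≤ R) : B h = B y + ((h:ℤ) - y) - 1 := by
  have k1 := c.cy.gt h h1
  have k2 := c.s.pB.mono h2
  have k3 := c.s.hR
  have k4 := c.eR
  omega

lemma Hp_of (s : Sit A B R) (cR : Cor A R) (hX : ∀ x ∈ X, Cor A x ∧ B x ≤ A x)
    (XR : ∀ x ∈ X, x < R) (cy : Cor B y) (yR : y < R) (eR : B y + R = A R + 2 + y)
    (h : ℕ) (hR : h < R) (hl : Hlp A B R X {y} h) :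
    Hp A B R X y h := by
  rcases hl with ⟨x, hx, h2⟩ | ⟨z, hz, h2⟩
  · left
    exact ⟨x, hx, XR x hx, P_inv s (hX x hx).1 hR cR h2⟩
  · right
    rw [Finset.mem_singleton] at hz; subst hz
    rcases S_inv s cy h2 with k | k
    · exact k
    · exfalso
      have k1 := s.pB.mono hR.le
      have k3 := s.hR
      omega

/-- mk2 for two `A`-corners -/
lemma DLC.mkPP (c : DLC A B R X y) {x x' : ℕ} (cx : Cor A x) (cx' : Cor A x') (h1 : x < x')
    (h2 : x' < R) (h3 : A x + 1 ≤ x) (h4 : A x' + 2 ≤ A x + ((x':ℤ) - x)) (h5 : A x + 2 ≤ A x') :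
    Good A B :=
  mk2 (P_niceA c.s cx) (P_niceA c.s cx') (P_gt c.s cx h1 h2 c.cR h4)
    (P_lt c.s cx' h1 (h1.trans h2) c.cR h3 h5)

/-- mk2 for an `A`-corner left of `y` -/
lemma DLC.mkSP (c : DLC A B R X y) {x : ℕ} (cx : Cor A x) (h1 : x < y)
    (h3 : B x + 1 ≤ x) (h4 : B x + 2 ≤ B y) (h5 : A y + 2 ≤ A x + ((y:ℤ) - x)) :
    Good A B := by
  refine mk2 (P_niceA c.s cx) (S_nice c.s c.cy c.hy) (P_gt c.s cx h1 c.yR c.cR h5) ?_
  rw [S_lt' x h1.le]; omega

/-- mk3: `S_y` helps `x0`, `P_x0` helps `x`, `P_x` helps `y` -/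
lemma DLC.mkSPP (c : DLC A B R X y) {x0 x : ℕ} (cx0 : Cor A x0) (cx : Cor A x) (h0 : x0 < y)
    (h1 : y < x) (h2 : x < R)
    (h3 : B x0 + 1 ≤ x0) (h4 : B x0 + 2 ≤ B y) (h5 : A x + 2 ≤ A x0 + ((x:ℤ) - x0))
    (h6 : A y + 2 ≤ A x) :
    Good A B := by
  refine mk3 (S_nice c.s c.cy c.hy) (P_niceA c.s cx0) (P_niceA c.s cx) ?_
    (P_gt c.s cx0 (by omega) h2 c.cR h5) (P_lt c.s cx h1 c.yR c.cR c.y1 h6)
  rw [S_lt' x0 h0.le]; omega

lemma DLC.apos (c : DLC A B R X y) : 1 ≤ A R ∧ A R ≤ R := c.s.A_pos c.cR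

lemma DLC.SR_loses (c : DLC A B R X y) : Loses A B (T R (A R - 1)) := by
  have h1 := c.apos
  have h2 := T_at c.s.pA c.cR
  refine ⟨T_path R (A R - 1) (by omega) (by omega), ⟨R, ?_⟩, ⟨R, ?_⟩⟩
  · omega
  · have := c.s.hR; omega

/-- the final trade of length 2 -/
lemma DLC.fin2 (c : DLC A B R X y)
    (hw : ∀ h, h < R → 2 * A h ≤ min (h:ℤ) (A R - 1) + S B y h) : Good A B := by
  refine good2 c.SR_loses (S_loses c.s c.cy c.hy) (Or.inl rfl) (Or.inl rfl) ?_
  intro h
  have h1 := c.apos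
  have h5 := c.eR
  have h6 := c.yR
  rcases lt_or_ge h R with k | k
  · rw [T_le R _ h k.le]; have := hw h k; omega
  · rw [T_ge R _ h k (by omega), S_ge' c.s h (by omega)]
    have h2 := c.s.pA.mono k
    rcases eq_or_lt_of_le k with k1 | k1
    · subst k1; omega
    · have h3 := c.cR.gt h k1
      omega

/-- the final trade of length 3 -/
lemma DLC.fin3 (c : DLC A B R X y) {x : ℕ} (cx : Cor A x) (xR : x < R)
    (hw : ∀ h, h < R → 3 * A h ≤ min (h:ℤ) (A R - 1) + S B y h + P A R x h) : Good A B := by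
  refine good3 c.SR_loses (S_loses c.s c.cy c.hy) (P_loses c.s cx)
    (Or.inl rfl) (Or.inl rfl) (Or.inl rfl) ?_
  intro h
  have h1 := c.apos
  have h5 := c.eR
  have h6 := c.yR
  rcases lt_or_ge h R with k | k
  · rw [T_le R _ h k.le]; have := hw h k; omega
  · have h7 := (P_niceA c.s cx).off h (by omega)
    rw [T_ge R _ h k (by omega), S_ge' c.s h (by omega)]
    have h2 := c.s.pA.mono k
    rcases eq_or_lt_of_le k with k1 | k1
    · subst k1; omega
    · have h3 := c.cR.gt h k1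
      omega

/-- left of an `A`-corner `x < R` we are not in `F` -/
lemma DLC.notF (c : DLC A B R X y) {x h : ℕ} (cx : Cor A x) (xR : x < R) (hx : h ≤ x) :
    B h ≤ A h := by
  by_contra hcon
  have h1 := c.s.Fl h (by omega) (by omega)
  have h2 := c.s.hR
  have h3 := cx.gt R xR
  have h4 := c.s.pA.mono hx
  have h5 := c.s.le h
  omega

/-- more generally: if `A` has a `0`-step between `h` and `R` we are not in `F` -/
lemma DLC.notF' (c : DLC A B R X y) {h : ℕ} (xR : h < R) (hx : A R < A h + ((R:ℤ) - h)) :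
    B h ≤ A h := by
  by_contra hcon
  have h1 := c.s.Fl h (by omega) (by omega)
  have h2 := c.s.hR
  have h5 := c.s.le h
  omega

/-- the next run -/
lemma next_run {A : ℕ → ℤ} {R : ℕ} (p : IsPath A) (e : EvC A) (cR : Cor A R) {q : ℕ} (hq : q < R)
    (h0 : A (q+1) = A q) : ∃ t x, q < t ∧ t < x ∧ x ≤ R ∧ A t = A q ∧ A x = A q + ((x:ℤ) - t) ∧
      Cor A x := by
  classical
  have hex : ∃ t, A q < A (t+1) := ⟨R-1, by
    have := cR.lt q hq; have := cR.pos; rw [show R - 1 + 1 = R by omega]; omega⟩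
  obtain ⟨t, ht⟩ : ∃ t, t = Nat.find hex := ⟨_, rfl⟩
  have h1 : A q < A (t+1) := by rw [ht]; exact Nat.find_spec hex
  have h2 : ∀ m, m < t → A (m+1) ≤ A q := by
    intro m hm
    have := Nat.find_min hex (m := m) (by omega)
    omega
  have h3 : q < t := by
    by_contra hc
    have hc1 : t ≤ q := by omega
    rcases eq_or_lt_of_le hc1 with k | k
    · rw [k] at h1; omega
    · have := p.mono (show t + 1 ≤ q by omega); omega
  have h4 : A t = A q := by
    have k1 := h2 (t-1) (by omega)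
    rw [show t - 1 + 1 = t by omega] at k1
    have k2 := p.mono h3.le
    omega
  have h5 : A (t+1) = A t + 1 := by
    rcases p.step t with k | k <;> omega
  obtain ⟨x, k1, k2, k3⟩ := run_up p e t
  have k4 : x ≠ t := by rintro rfl; omega
  have k5 : x ≤ R := by
    by_contra hc
    have l1 := p.mono (show t ≤ x by omega)
    rcases lt_or_ge t R with l | l
    · have l2 := p.mono (show t ≤ R by omega)
      have l3 := cR.gt (R+1) (by omega)
      have l4 := p.mono (show R + 1 ≤ x by omega)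
      push_cast at l3 l4
      omega
    · have l2 := cR.lt q hq
      have l3 := p.mono l
      omega
  refine ⟨t, x, h3, by omega, k5, h4, by omega, (cor_iff p x).2 ⟨by omega, ?_, k3⟩⟩
  have l1 := p.mono (show t ≤ x - 1 by omega)
  have l2 := p.mono (show x - 1 ≤ x by omega)
  omega


lemma DLC.Blt (c : DLC A B R X y) {h : ℕ} (h1 : h < y) : B h + 1 ≤ B y := c.cy.lt h h1

lemma DLC.wF (c : DLC A B R X y) {h : ℕ} (h1 : h < R) (h2 : y ≤ h) (h3 : A h + ((R:ℤ) - h) = A R) :
    2 * A h ≤ min (h:ℤ) (A R - 1) + S B y h := by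
  rw [S_ge' c.s h h2]
  have := c.eR
  have := c.apos
  omega

lemma DLC.w0 (c : DLC A B R X y) {h t k0 : ℕ} (h1 : h ≤ t) (h2 : t < y) (h3 : A t = k0)
    (h4 : k0 < y) (h5 : B k0 = k0) :
    2 * A h ≤ min (h:ℤ) (A R - 1) + S B y h := by
  rw [S_lt' h (by omega)]
  have k1 := c.s.pA.mono h1
  have k2 := c.Blt h4
  have k3 := c.s.pA.nonneg h
  have k4 := c.cR.lt h (by have := c.yR; omega)
  omega

/-- case I: the first corner of `A` is helped -/
lemma DLC.caseI (c : DLC A B R X y) {k0 : ℕ} (h1 : A k0 = k0) (h2 : A (k0+1) = A k0)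
    (h3 : B k0 + 1 ≤ k0) : Good A B := by
  have hR2 : A R + 2 ≤ R := by
    have k1 := c.eR; have k2 := c.s.pB.nonneg y; omega
  have hk0 : 1 ≤ k0 := by
    have := c.s.pB.nonneg k0; omega
  have cx0 : Cor A k0 := (cor_iff c.s.pA k0).2 ⟨hk0, by
    have k1 := c.s.pA.mono (show k0 - 1 ≤ k0 by omega)
    have k2 := c.s.pA.nonneg (k0-1)
    have k3 : ((k0 - 1 : ℕ) : ℤ) = k0 - 1 := by omega
    omega, h2⟩
  have k0R : k0 < R := by
    by_contra hc
    have := c.s.pA.mono (show R ≤ k0 by omega)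
    omega
  have hS : k0 < y ∧ B k0 + 2 ≤ B y := by
    have hH := c.C1 k0 k0R (by omega) (by omega)
    rcases hH with ⟨x, hx, hxR, h4 | h4⟩ | h4
    · omega
    · have := c.s.pA.nonneg x; omega
    · exact ⟨h4.1, h4.2.2⟩
  by_cases hmu : A y + 2 ≤ y
  · exact c.mkSP cx0 hS.1 h3 hS.2 (by omega)
  have hAy : A y = y - 1 := by have := c.y1; omega
  have hBy := c.s.pB.mono hS.1.le
  rcases c.C2 y (Or.inl rfl) with hD | hH
  · -- D'(y) ≥ 1
    have e1 := c.eR
    refine c.fin2 ?_
    intro h hh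
    rcases lt_or_ge h y with k | k
    · rw [S_lt' h k.le]
      rcases le_or_gt h k0 with l | l
      · have k1 := c.s.pA.nonneg h
        omega
      · have k1 := cx0.gt h l
        omega
    · rw [S_ge' c.s h k]
      have k1 := c.s.pA.mono k
      have k2 := c.cR.lt h hh
      have k3 : A h + 1 ≤ h := by omega
      by_contra hcon
      have k4 : A h = h - 1 := by omega
      have k5 : A R = h := by omega
      have k6 : y < h := by
        rcases eq_or_lt_of_le k with e | e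
        · subst e; omega
        · exact e
      have k7 := c.Bgt k6 hh.le
      have k8 := c.notF' hh (by omega)
      rcases c.C1 h hh k8 (by omega) with ⟨x, hx, hxR, h4 | h4⟩ | h4
      · have := c.cR.lt x hxR; omega
      · have := c.s.pA.nonneg x; omega
      · omega
  · rcases hH with ⟨x, hx, hxR, h4 | h4⟩ | h4
    · have cx := (c.hX x hx).1
      by_cases hx2 : A x + 2 ≤ x
      · exact c.mkSPP cx0 cx hS.1 h4.1 hxR h3 hS.2 (by omega) h4.2.2
      have k7 := c.Bgt h4.1 hxR.le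
      rcases c.C2 x (Or.inr hx) with hD | hH
      · omega
      · rcases hH with ⟨x', hx', hxR', h5 | h5⟩ | h5
        · have cx' := (c.hX x' hx').1
          have k8 := cx.gt x' h5.1
          exact c.mkSPP cx0 cx' hS.1 (by omega) hxR' h3 hS.2 (by omega) (by omega)
        · have := c.s.pA.nonneg x'; omega
        · omega
    · have := c.s.pA.nonneg x; omega
    · omega

/-- common part of case II -/
structure KC (A B : ℕ → ℤ) (R : ℕ) (X : Finset ℕ) (y k0 t1 x1 t2 : ℕ) : Prop where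
  c : DLC A B R X y
  cx1 : Cor A x1
  o1 : k0 < t1
  o2 : t1 < x1
  o3 : x1 < t2
  o4 : t2 < R
  a0 : A k0 = k0
  b0 : B k0 = k0
  a1 : A t1 = k0
  b1 : B t1 = k0
  a2 : A x1 = k0 + ((x1:ℤ) - t1)
  a3 : A t2 = A x1
  yt : t1 < y

/-- case K1: only one corner `x1` between the initial and the final run -/
lemma KC.K1 {k0 t1 x1 t2 : ℕ} (k : KC A B R X y k0 t1 x1 t2) (a6 : A R = A x1 + ((R:ℤ) - t2))
    (X1 : ∀ x ∈ X, x = x1) : Good A B := by
  have c := k.c
  have x1R : x1 < R := by have := k.o3; have := k.o4; omega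
  have e1 := c.eR
  have e2 := c.hy
  have e3 := c.apos
  have o1 := k.o1
  have o2 := k.o2
  have o3 := k.o3
  have o4 := k.o4
  have a0 := k.a0
  have b0 := k.b0
  have a1 := k.a1
  have b1 := k.b1
  have a2 := k.a2
  have a3 := k.a3
  have yt := k.yt
  have yR := c.yR
  have bx1 := c.notF k.cx1 x1R le_rfl
  have yt2 : y < t2 := by
    by_contra hc
    have k1 := c.s.pA.mono (show t2 ≤ y by omega)
    have k2 := c.s.pA.mono yR.le
    omega
  have nx1 := c.s.pB.nonneg x1
  -- the values of `A`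
  have segs : ∀ h, h < R → h ≤ t1 ∨ (t1 ≤ h ∧ h ≤ x1 ∧ A h = A x1 - ((x1:ℤ) - h)) ∨
      (x1 ≤ h ∧ h ≤ t2 ∧ A h = A x1) ∨ (t2 ≤ h ∧ A h + ((R:ℤ) - h) = A R) := by
    intro h hh
    rcases le_or_gt h t1 with l | l
    · left; exact l
    rcases le_or_gt h x1 with l' | l'
    · have k1 := c.s.pA.mono l.le
      have k2 := c.s.pA.mono l'
      right; left; refine ⟨l.le, l', ?_⟩; omega
    rcases le_or_gt h t2 with l'' | l''
    · have k1 := c.s.pA.mono l'.le
      have k2 := c.s.pA.mono l''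
      right; right; left; refine ⟨l'.le, l'', ?_⟩; omega
    · have k1 := c.s.pA.mono l''.le
      have k2 := c.s.pA.mono hh.le
      right; right; right; refine ⟨l''.le, ?_⟩; omega
  rcases lt_or_ge x1 y with hy1 | hy1
  · have Ay : A y = A x1 := by
      rcases segs y yR with l | l | l | l <;> omega
    by_cases hb : B x1 + 2 ≤ B y
    · have k1 := c.s.pB.mono hy1.le
      exact c.mkSP k.cx1 hy1 (by omega) hb (by omega)
    have By : B y = B x1 + 1 := by have := c.Blt hy1; omega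
    have D1 : 2 * A x1 ≤ min (x1:ℤ) (A R - 1) + B x1 := by
      by_contra hc
      rcases c.C1 x1 x1R bx1 (by omega) with ⟨x, hx, hxR, h4⟩ | h4
      · have := X1 x hx; subst this; omega
      · omega
    refine c.fin2 ?_
    intro h hh
    rcases segs h hh with l | l | l | l
    · exact c.w0 l yt a1 (by omega) b0
    · rw [S_lt' h (by omega)]
      omega
    · rcases lt_or_ge h y with l' | l'
      · rw [S_lt' h (by omega)]; omega
      · rw [S_ge' c.s h l']; omega
    · exact c.wF hh (by omega) l.2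
  · -- t1 < y ≤ x1
    have Ay : A y = A x1 - ((x1:ℤ) - y) := by
      rcases segs y yR with l | l | l | l <;> omega
    -- in both cases `u_{x1} ≥ m0 + 1`
    have U1 : 2 * A x1 ≤ min (x1:ℤ) (A R - 1) + (B y + ((x1:ℤ) - y) - 1) := by
      rcases eq_or_lt_of_le hy1 with e | e
      · rcases c.C2 y (Or.inl rfl) with hD | ⟨x, hx, hxR, h4⟩ | h4
        · subst e; omega
        · have := X1 x hx; omega
        · omega
      · have k1 := c.Bgt e x1R.le
        by_contra hc
        rcases c.C1 x1 x1R bx1 (by omega) with ⟨x, hx, hxR, h4⟩ | h4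
        · have := X1 x hx; subst this; omega
        · omega
    refine c.fin2 ?_
    intro h hh
    rcases segs h hh with l | l | l | l
    · exact c.w0 l yt a1 (by omega) b0
    · rcases lt_or_ge h y with l' | l'
      · have := c.s.pB.mono l'.le
        rw [S_lt' h (by omega)]; 
        have := c.s.pB.nonneg h
        omega
      · rw [S_ge' c.s h l']; omega
    · rw [S_ge' c.s h (by omega)]; omega
    · exact c.wF hh (by omega) l.2


/-- case K2: two corners `x1 < x2` between the initial and the final run -/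
structure K2C (A B : ℕ → ℤ) (R : ℕ) (X : Finset ℕ) (y k0 t1 x1 t2 x2 t3 : ℕ) : Prop where
  k : KC A B R X y k0 t1 x1 t2
  cx2 : Cor A x2
  o5 : t2 < x2
  o6 : x2 < t3
  o7 : t3 < R
  a4 : A x2 = A x1 + ((x2:ℤ) - t2)
  a5 : A t3 = A x2
  a6 : A R = A x2 + ((R:ℤ) - t3)
  X2 : ∀ x ∈ X, x = x1 ∨ x = x2
  cd : x2 = t2 + 1 ∨ t2 = x1 + 1

/-- the numeric facts of case K2 -/
structure K2N (A B : ℕ → ℤ) (R y k0 t1 x1 t2 x2 t3 : ℕ) : Prop where
  e1 : B y + R = A R + 2 + y
  e2 : B y ≤ A y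
  e3 : 1 ≤ A R ∧ A R ≤ R
  o1 : k0 < t1
  o2 : t1 < x1
  o3 : x1 < t2
  o5 : t2 < x2
  o6 : x2 < t3
  o7 : t3 < R
  a1 : A t1 = k0
  b0 : B k0 = k0
  b1 : B t1 = k0
  a2 : A x1 = k0 + ((x1:ℤ) - t1)
  a3 : A t2 = A x1
  a4 : A x2 = A x1 + ((x2:ℤ) - t2)
  a5 : A t3 = A x2
  a6 : A R = A x2 + ((R:ℤ) - t3)
  cd : x2 = t2 + 1 ∨ t2 = x1 + 1
  yt : t1 < y
  yt3 : y < t3
  yR : y < R
  bx1 : B x1 ≤ A x1
  bx2 : B x2 ≤ A x2
  nx1 : 0 ≤ B x1 ∧ B x1 ≤ x1
  nx2 : 0 ≤ B x2 ∧ B x2 ≤ x2

section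
variable {k0 t1 x1 t2 x2 t3 : ℕ}

lemma K2C.num (k : K2C A B R X y k0 t1 x1 t2 x2 t3) : K2N A B R y k0 t1 x1 t2 x2 t3 := by
  have c := k.k.c
  have yR := c.yR
  have o3 := k.k.o3
  have o5 := k.o5
  have o6 := k.o6
  have o7 := k.o7
  have a5 := k.a5
  have a6 := k.a6
  have e1 := c.eR
  have e2 := c.hy
  refine ⟨c.eR, c.hy, c.apos, k.k.o1, k.k.o2, k.k.o3, k.o5, k.o6, k.o7, k.k.a1, k.k.b0, k.k.b1,
    k.k.a2, k.k.a3, k.a4, k.a5, k.a6, k.cd, k.k.yt, ?_, c.yR, c.notF k.k.cx1 (by omega) le_rfl,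
    c.notF k.cx2 (by omega) le_rfl, c.s.pB.nonneg x1, c.s.pB.nonneg x2⟩
  by_contra hc
  have k1 := c.s.pA.mono (show t3 ≤ y by omega)
  have k2 := c.s.pA.mono yR.le
  omega

lemma K2C.segs (k : K2C A B R X y k0 t1 x1 t2 x2 t3) (h : ℕ) (hh : h < R) :
    h ≤ t1 ∨ (t1 ≤ h ∧ h ≤ x1 ∧ A h = A x1 - ((x1:ℤ) - h)) ∨
      (x1 ≤ h ∧ h ≤ t2 ∧ A h = A x1) ∨ (t2 ≤ h ∧ h ≤ x2 ∧ A h = A x2 - ((x2:ℤ) - h)) ∨
      (x2 ≤ h ∧ h ≤ t3 ∧ A h = A x2) ∨ (t3 ≤ h ∧ A h + ((R:ℤ) - h) = A R) := by
  have c := k.k.c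
  have n := k.num
  obtain ⟨e1, e2, e3, o1, o2, o3, o5, o6, o7, a1, b0, b1, a2, a3, a4, a5, a6, cd, yt, yt3, yR,
    bx1, bx2, nx1, nx2⟩ := n
  rcases le_or_gt h t1 with l | l
  · left; exact l
  rcases le_or_gt h x1 with l' | l'
  · have k1 := c.s.pA.mono l.le
    have k2 := c.s.pA.mono l'
    right; left; refine ⟨l.le, l', ?_⟩; omega
  rcases le_or_gt h t2 with l | l
  · have k1 := c.s.pA.mono l'.le
    have k2 := c.s.pA.mono l
    right; right; left; refine ⟨l'.le, l, ?_⟩; omega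
  rcases le_or_gt h x2 with l' | l'
  · have k1 := c.s.pA.mono l.le
    have k2 := c.s.pA.mono l'
    right; right; right; left; refine ⟨l.le, l', ?_⟩; omega
  rcases le_or_gt h t3 with l | l
  · have k1 := c.s.pA.mono l'.le
    have k2 := c.s.pA.mono l
    right; right; right; right; left; refine ⟨l'.le, l, ?_⟩; omega
  · have k1 := c.s.pA.mono l.le
    have k2 := c.s.pA.mono hh.le
    right; right; right; right; right; refine ⟨l.le, ?_⟩; omega

/-- it is enough to check the trade of length 2 on `[t1, t3]` -/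
lemma K2C.fin (k : K2C A B R X y k0 t1 x1 t2 x2 t3)
    (hw : ∀ h, t1 ≤ h → h ≤ t3 → 2 * A h ≤ min (h:ℤ) (A R - 1) + S B y h) : Good A B := by
  have n := k.num
  refine k.k.c.fin2 ?_
  intro h hh
  have o1 := n.o1
  have yt := n.yt
  have yt3 := n.yt3
  rcases k.segs h hh with l | l | l | l | l | l
  · exact k.k.c.w0 l n.yt n.a1 (by omega) n.b0
  · exact hw h l.1 (by have := n.o3; have := n.o5; have := n.o6; omega)
  · exact hw h (by have := n.o2; omega) (by have := n.o3; have := n.o5; have := n.o6; omega)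
  · exact hw h (by have := n.o2; have := n.o3; omega) (by have := n.o6; omega)
  · exact hw h (by have := n.o2; have := n.o3; have := n.o5; omega) l.2.1
  · exact k.k.c.wF hh (by omega) l.2

/-- it is enough to check the trade of length 3 on `[t1, t3]` -/
lemma K2C.finP (k : K2C A B R X y k0 t1 x1 t2 x2 t3) {x : ℕ} (cx : Cor A x) (h1 : t1 < x)
    (h2 : x < t3)
    (hw : ∀ h, t1 ≤ h → h ≤ t3 → 3 * A h ≤ min (h:ℤ) (A R - 1) + S B y h + P A R x h) :
    Good A B := by
  have n := k.num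
  have o7 := n.o7
  refine k.k.c.fin3 cx (by omega) ?_
  intro h hh
  have o1 := n.o1
  have yt := n.yt
  have yt3 := n.yt3
  rcases lt_or_ge h t1 with l | l
  · have := k.k.c.w0 l.le n.yt n.a1 (by omega) n.b0
    have := (P_niceA k.k.c.s cx).off h (by omega)
    omega
  rcases le_or_gt h t3 with l' | l'
  · exact hw h l l'
  · have k1 := k.k.c.s.pA.mono l'.le
    have k2 := k.k.c.s.pA.mono hh.le
    have := n.a5; have := n.a6
    have := k.k.c.wF hh (by omega) (by omega)
    have := (P_niceA k.k.c.s cx).off h (by omega)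
    omega

lemma K2C.H1 (k : K2C A B R X y k0 t1 x1 t2 x2 t3) (h : Hp A B R X y x1) :
    (x2 ∈ X ∧ A x1 + 2 ≤ A x2) ∨ (x1 < y ∧ B x1 + 2 ≤ B y) := by
  have n := k.num
  have := n.o3; have := n.o5
  rcases h with ⟨x, hx, hxR, h4⟩ | h4
  · rcases k.X2 x hx with e | e
    · subst e; omega
    · subst e; left; refine ⟨hx, ?_⟩; omega
  · right; omega

lemma K2C.H2 (k : K2C A B R X y k0 t1 x1 t2 x2 t3) (h : Hp A B R X y x2) :
    (x1 ∈ X ∧ A x2 + 2 ≤ A x1 + ((x2:ℤ) - x1)) ∨ (x2 < y ∧ B x2 + 2 ≤ B y) := by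
  have n := k.num
  have := n.o3; have := n.o5
  rcases h with ⟨x, hx, hxR, h4⟩ | h4
  · rcases k.X2 x hx with e | e
    · subst e; left; refine ⟨hx, ?_⟩; omega
    · subst e; omega
  · right; omega

lemma K2C.Hy (k : K2C A B R X y k0 t1 x1 t2 x2 t3) (h : Hp A B R X y y) :
    (x1 ∈ X ∧ ((y < x1 ∧ A y + 2 ≤ A x1) ∨ (x1 < y ∧ A y + 2 ≤ A x1 + ((y:ℤ) - x1)))) ∨
    (x2 ∈ X ∧ ((y < x2 ∧ A y + 2 ≤ A x2) ∨ (x2 < y ∧ A y + 2 ≤ A x2 + ((y:ℤ) - x2)))) := by
  rcases h with ⟨x, hx, hxR, h4⟩ | h4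
  · rcases k.X2 x hx with e | e
    · subst e; left; refine ⟨hx, ?_⟩; omega
    · subst e; right; refine ⟨hx, ?_⟩; omega
  · omega

/-- `C1` at `x1` -/
lemma K2C.c1 (k : K2C A B R X y k0 t1 x1 t2 x2 t3) :
    2 * A x1 ≤ min (x1:ℤ) (A R - 1) + B x1 ∨ (x2 ∈ X ∧ A x1 + 2 ≤ A x2) ∨
      (x1 < y ∧ B x1 + 2 ≤ B y) := by
  have n := k.num
  have := n.o3; have := n.o5; have := n.o6; have := n.o7
  by_cases hc : 2 * A x1 ≤ min (x1:ℤ) (A R - 1) + B x1
  · exact Or.inl hc
  · exact Or.inr (k.H1 (k.k.c.C1 x1 (by omega) n.bx1 (by omega)))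

lemma K2C.c2 (k : K2C A B R X y k0 t1 x1 t2 x2 t3) :
    2 * A x2 ≤ min (x2:ℤ) (A R - 1) + B x2 ∨ (x1 ∈ X ∧ A x2 + 2 ≤ A x1 + ((x2:ℤ) - x1)) ∨
      (x2 < y ∧ B x2 + 2 ≤ B y) := by
  have n := k.num
  have := n.o3; have := n.o5; have := n.o6; have := n.o7
  by_cases hc : 2 * A x2 ≤ min (x2:ℤ) (A R - 1) + B x2
  · exact Or.inl hc
  · exact Or.inr (k.H2 (k.k.c.C1 x2 (by omega) n.bx2 (by omega)))

lemma K2C.d1 (k : K2C A B R X y k0 t1 x1 t2 x2 t3) (h : x1 ∈ X) :
    2 * A x1 + 1 ≤ min (x1:ℤ) (A R - 1) + B x1 ∨ (x2 ∈ X ∧ A x1 + 2 ≤ A x2) ∨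
      (x1 < y ∧ B x1 + 2 ≤ B y) := by
  rcases k.k.c.C2 x1 (Or.inr h) with l | l
  · exact Or.inl l
  · exact Or.inr (k.H1 l)

lemma K2C.d2 (k : K2C A B R X y k0 t1 x1 t2 x2 t3) (h : x2 ∈ X) :
    2 * A x2 + 1 ≤ min (x2:ℤ) (A R - 1) + B x2 ∨ 
      (x1 ∈ X ∧ A x2 + 2 ≤ A x1 + ((x2:ℤ) - x1)) ∨ (x2 < y ∧ B x2 + 2 ≤ B y) := by
  rcases k.k.c.C2 x2 (Or.inr h) with l | l
  · exact Or.inl l
  · exact Or.inr (k.H2 l)

lemma K2C.dy (k : K2C A B R X y k0 t1 x1 t2 x2 t3) :
    2 * A y + 1 ≤ min (y:ℤ) (A R - 1) + B y ∨ 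
    (x1 ∈ X ∧ ((y < x1 ∧ A y + 2 ≤ A x1) ∨ (x1 < y ∧ A y + 2 ≤ A x1 + ((y:ℤ) - x1)))) ∨
    (x2 ∈ X ∧ ((y < x2 ∧ A y + 2 ≤ A x2) ∨ (x2 < y ∧ A y + 2 ≤ A x2 + ((y:ℤ) - x2)))) := by
  rcases k.k.c.C2 y (Or.inl rfl) with l | l
  · exact Or.inl l
  · exact Or.inr (k.Hy l)


lemma P_vle (s : Sit A B R) (cR : Cor A R) {x h : ℕ} (xR : x < R) (hx : h ≤ x) :
    P A R x h = min (h:ℤ) (A x - 1) := by
  unfold P
  rw [T_le x _ h hx, T_le R _ h (by omega)]
  have := cR.lt x xR
  omega

lemma P_vge (s : Sit A B R) (cR : Cor A R) {x h : ℕ} (hR : h ≤ R) (hx : x ≤ h) :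
    P A R x h = min (A x - 1 + ((h:ℤ) - x)) (A R) := by
  unfold P
  have := s.pA.nonneg x
  rw [T_ge x _ h hx (by omega), T_le R _ h hR]
  omega

lemma K2C.a (k : K2C A B R X y k0 t1 x1 t2 x2 t3) (hy1 : y ≤ x1) : Good A B := by
  have c := k.k.c
  obtain ⟨e1, e2, e3, o1, o2, o3, o5, o6, o7, a1, b0, b1, a2, a3, a4, a5, a6, cd, yt, yt3, yR,
    bx1, bx2, nx1, nx2⟩ := k.num
  have Ay : A y = A x1 - ((x1:ℤ) - y) := by
    rcases k.segs y yR with l | l | l | l | l | l <;> omega
  have Bx2 := c.Bgt (show y < x2 by omega) (by omega)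
  have Bx1 : B x1 = B y + ((x1:ℤ) - y) - 1 ∨ (y = x1 ∧ B x1 = B y) := by
    rcases eq_or_lt_of_le hy1 with e | e
    · right; subst e; exact ⟨rfl, rfl⟩
    · left; exact c.Bgt e (by omega)
  have D2 : 2 * A x2 ≤ min (x2:ℤ) (A R - 1) + B x2 := by
    rcases k.c2 with l | ⟨l1, l2⟩ | l
    · exact l
    · rcases k.d1 l1 with m | m | m
      · omega
      · omega
      · omega
    · omega
  by_cases U1 : 2 * A x1 ≤ min (x1:ℤ) (A R - 1) + (B y + ((x1:ℤ) - y) - 1)
  · refine k.fin ?_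
    intro h h1 h2
    rcases k.segs h (by omega) with l | l | l | l | l | l
    · exact c.w0 l yt a1 (by omega) b0
    · rcases lt_or_ge h y with l' | l'
      · rw [S_lt' h (by omega)]
        omega
      · rw [S_ge' c.s h l']; omega
    · rw [S_ge' c.s h (by omega)]; omega
    · rw [S_ge' c.s h (by omega)]; omega
    · rw [S_ge' c.s h (by omega)]; omega
    · exact c.wF (by omega) (by omega) l.2
  · have hX2 : x2 ∈ X ∧ A x1 + 2 ≤ A x2 := by
      rcases eq_or_lt_of_le hy1 with e | e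
      · rcases k.dy with l | ⟨l1, l2⟩ | ⟨l1, l2⟩
        · exfalso; subst e; omega
        · exfalso; omega
        · refine ⟨l1, ?_⟩; subst e; omega
      · rcases k.c1 with l | l | l
        · exfalso; omega
        · exact l
        · exfalso; omega
    have D2' : 2 * A x2 + 1 ≤ min (x2:ℤ) (A R - 1) + B x2 := by
      rcases k.d2 hX2.1 with l | l | l
      · exact l
      · exfalso; omega
      · exfalso; omega
    refine k.finP k.cx2 (by omega) (by omega) ?_
    intro h h1 h2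
    rcases k.segs h (by omega) with l | l | l | l | l | l
    · have := c.w0 l yt a1 (by omega) b0
      have := (P_niceA c.s k.cx2).off h (by omega)
      omega
    · rw [P_vle c.s c.cR (by omega) (by omega : h ≤ x2)]
      rcases lt_or_ge h y with l' | l'
      · rw [S_lt' h (by omega)]; omega
      · rw [S_ge' c.s h l']; omega
    · rw [P_vle c.s c.cR (by omega) (by omega : h ≤ x2), S_ge' c.s h (by omega)]; omega
    · rw [P_vle c.s c.cR (by omega) (by omega : h ≤ x2), S_ge' c.s h (by omega)]; omega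
    · rw [P_vge c.s c.cR (by omega) (by omega : x2 ≤ h), S_ge' c.s h (by omega)]; omega
    · have := c.wF (show h < R by omega) (by omega) l.2
      have := (P_niceA c.s k.cx2).off h (by omega)
      omega

lemma K2C.b (k : K2C A B R X y k0 t1 x1 t2 x2 t3) (hy1 : x1 < y) (hy2 : y ≤ t2) : Good A B := by
  have c := k.k.c
  obtain ⟨e1, e2, e3, o1, o2, o3, o5, o6, o7, a1, b0, b1, a2, a3, a4, a5, a6, cd, yt, yt3, yR,
    bx1, bx2, nx1, nx2⟩ := k.num
  have Ay : A y = A x1 := by
    rcases k.segs y yR with l | l | l | l | l | l <;> omega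
  have Bx2 := c.Bgt (show y < x2 by omega) (by omega)
  by_cases hb : B x1 + 2 ≤ B y
  · have k1 := c.s.pB.mono hy1.le
    exact c.mkSP k.k.cx1 hy1 (by omega) hb (by omega)
  have By : B y = B x1 + 1 := by have := c.Blt hy1; omega
  have D1 : 2 * A x1 ≤ min (x1:ℤ) (A R - 1) + B x1 := by
    rcases k.c1 with l | ⟨l1, l2⟩ | l
    · exact l
    · rcases k.d2 l1 with m | m | m
      · omega
      · omega
      · omega
    · omega
  have D2 : 2 * A x2 ≤ min (x2:ℤ) (A R - 1) + B x2 := by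
    rcases k.c2 with l | ⟨l1, l2⟩ | l
    · exact l
    · rcases k.d1 l1 with m | m | m
      · omega
      · omega
      · omega
    · omega
  refine k.fin ?_
  intro h h1 h2
  rcases k.segs h (by omega) with l | l | l | l | l | l
  · exact c.w0 l yt a1 (by omega) b0
  · rw [S_lt' h (by omega)]; omega
  · rcases lt_or_ge h y with l' | l'
    · rw [S_lt' h (by omega)]; omega
    · rw [S_ge' c.s h l']; omega
  · rw [S_ge' c.s h (by omega)]; omega
  · rw [S_ge' c.s h (by omega)]; omega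
  · exact c.wF (by omega) (by omega) l.2

lemma K2C.c' (k : K2C A B R X y k0 t1 x1 t2 x2 t3) (hy1 : t2 < y) (hy2 : y ≤ x2) : Good A B := by
  have c := k.k.c
  obtain ⟨e1, e2, e3, o1, o2, o3, o5, o6, o7, a1, b0, b1, a2, a3, a4, a5, a6, cd, yt, yt3, yR,
    bx1, bx2, nx1, nx2⟩ := k.num
  have Ay : A y = A x2 - ((x2:ℤ) - y) := by
    rcases k.segs y yR with l | l | l | l | l | l <;> omega
  by_cases hd : x1 + 2 ≤ t2
  · have hy3 : y = x2 := by omega
    by_cases hb : B x1 + 2 ≤ B y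
    · have k1 := c.s.pB.mono (show x1 ≤ y by omega)
      exact c.mkSP k.k.cx1 (by omega) (by omega) hb (by omega)
    have By : B y = B x1 + 1 := by have := c.Blt (show x1 < y by omega); omega
    have D1 : 2 * A x1 ≤ min (x1:ℤ) (A R - 1) + B x1 := by
      rcases k.c1 with l | ⟨l1, l2⟩ | l
      · exact l
      · omega
      · omega
    by_cases Dy : 2 * A y + 1 ≤ min (y:ℤ) (A R - 1) + B y
    · refine k.fin ?_
      intro h h1 h2
      rcases k.segs h (by omega) with l | l | l | l | l | l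
      · exact c.w0 l yt a1 (by omega) b0
      · rw [S_lt' h (by omega)]; omega
      · rw [S_lt' h (by omega)]; omega
      · rcases lt_or_ge h y with l' | l'
        · rw [S_lt' h (by omega)]; omega
        · rw [S_ge' c.s h l']; omega
      · rw [S_ge' c.s h (by omega)]; omega
      · exact c.wF (by omega) (by omega) l.2
    · have D1' : 2 * A x1 + 1 ≤ min (x1:ℤ) (A R - 1) + B x1 := by
        rcases k.dy with l | ⟨l1, l2⟩ | ⟨l1, l2⟩
        · exfalso; omega
        · rcases k.d1 l1 with m | m | m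
          · exact m
          · exfalso; omega
          · exfalso; omega
        · exfalso; omega
      refine k.finP k.k.cx1 (by omega) (by omega) ?_
      intro h h1 h2
      rcases k.segs h (by omega) with l | l | l | l | l | l
      · have := c.w0 l yt a1 (by omega) b0
        have := (P_niceA c.s k.k.cx1).off h (by omega)
        omega
      · rw [P_vle c.s c.cR (by omega) (by omega : h ≤ x1), S_lt' h (by omega)]; omega
      · rw [P_vge c.s c.cR (by omega) (by omega : x1 ≤ h), S_lt' h (by omega)]; omega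
      · rw [P_vge c.s c.cR (by omega) (by omega : x1 ≤ h)]
        rcases lt_or_ge h y with l' | l'
        · rw [S_lt' h (by omega)]; omega
        · rw [S_ge' c.s h l']; omega
      · rw [P_vge c.s c.cR (by omega) (by omega : x1 ≤ h), S_ge' c.s h (by omega)]; omega
      · have := c.wF (show h < R by omega) (by omega) l.2
        have := (P_niceA c.s k.k.cx1).off h (by omega)
        omega
  · have U2 : 2 * A x2 ≤ min (x2:ℤ) (A R - 1) + (B y + ((x2:ℤ) - y) - 1) := by
      rcases eq_or_lt_of_le hy2 with e | e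
      · rcases k.dy with l | ⟨l1, l2⟩ | ⟨l1, l2⟩
        · subst e; omega
        · exfalso; subst e; omega
        · exfalso; omega
      · have Bx2 := c.Bgt e (by omega)
        rcases k.c2 with l | ⟨l1, l2⟩ | l
        · omega
        · exfalso; omega
        · exfalso; omega
    refine k.fin ?_
    intro h h1 h2
    rcases k.segs h (by omega) with l | l | l | l | l | l
    · exact c.w0 l yt a1 (by omega) b0
    · rw [S_lt' h (by omega)]; omega
    · rw [S_lt' h (by omega)]; omega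
    · rcases lt_or_ge h y with l' | l'
      · rw [S_lt' h (by omega)]; omega
      · rw [S_ge' c.s h l']; omega
    · rw [S_ge' c.s h (by omega)]; omega
    · exact c.wF (by omega) (by omega) l.2

lemma K2C.d (k : K2C A B R X y k0 t1 x1 t2 x2 t3) (hy1 : x2 < y) : Good A B := by
  have c := k.k.c
  obtain ⟨e1, e2, e3, o1, o2, o3, o5, o6, o7, a1, b0, b1, a2, a3, a4, a5, a6, cd, yt, yt3, yR,
    bx1, bx2, nx1, nx2⟩ := k.num
  have Ay : A y = A x2 := by
    rcases k.segs y yR with l | l | l | l | l | l <;> omega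
  by_cases hb : B x1 + 2 ≤ B y
  · exact c.mkSP k.k.cx1 (by omega) (by omega) hb (by omega)
  have By : B y = B x1 + 1 := by have := c.Blt (show x1 < y by omega); omega
  have Bx2 : B x2 = B x1 := by
    have := c.s.pB.mono (show x1 ≤ x2 by omega)
    have := c.Blt hy1
    omega
  by_cases hd : x1 + 2 ≤ t2
  · have D1 : 2 * A x1 ≤ min (x1:ℤ) (A R - 1) + B x1 := by
      rcases k.c1 with l | ⟨l1, l2⟩ | l
      · exact l
      · omega
      · omega
    by_cases D2 : 2 * A x2 ≤ min (x2:ℤ) (A R - 1) + B x2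
    · refine k.fin ?_
      intro h h1 h2
      rcases k.segs h (by omega) with l | l | l | l | l | l
      · exact c.w0 l yt a1 (by omega) b0
      · rw [S_lt' h (by omega)]; omega
      · rw [S_lt' h (by omega)]; omega
      · rw [S_lt' h (by omega)]; omega
      · rcases lt_or_ge h y with l' | l'
        · rw [S_lt' h (by omega)]; omega
        · rw [S_ge' c.s h l']; omega
      · exact c.wF (by omega) (by omega) l.2
    · have D1' : 2 * A x1 + 1 ≤ min (x1:ℤ) (A R - 1) + B x1 := by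
        rcases k.c2 with l | ⟨l1, l2⟩ | l
        · exfalso; omega
        · rcases k.d1 l1 with m | m | m
          · exact m
          · exfalso; omega
          · exfalso; omega
        · exfalso; omega
      refine k.finP k.k.cx1 (by omega) (by omega) ?_
      intro h h1 h2
      rcases k.segs h (by omega) with l | l | l | l | l | l
      · have := c.w0 l yt a1 (by omega) b0
        have := (P_niceA c.s k.k.cx1).off h (by omega)
        omega
      · rw [P_vle c.s c.cR (by omega) (by omega : h ≤ x1), S_lt' h (by omega)]; omega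
      · rw [P_vge c.s c.cR (by omega) (by omega : x1 ≤ h), S_lt' h (by omega)]; omega
      · rw [P_vge c.s c.cR (by omega) (by omega : x1 ≤ h), S_lt' h (by omega)]; omega
      · rw [P_vge c.s c.cR (by omega) (by omega : x1 ≤ h)]
        rcases lt_or_ge h y with l' | l'
        · rw [S_lt' h (by omega)]; omega
        · rw [S_ge' c.s h l']; omega
      · have := c.wF (show h < R by omega) (by omega) l.2
        have := (P_niceA c.s k.k.cx1).off h (by omega)
        omega
  · have D2 : 2 * A x2 ≤ min (x2:ℤ) (A R - 1) + B x2 := by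
      rcases k.c2 with l | ⟨l1, l2⟩ | l
      · exact l
      · omega
      · omega
    have D1 : 2 * A x1 ≤ min (x1:ℤ) (A R - 1) + B x1 := by
      rcases k.c1 with l | ⟨l1, l2⟩ | l
      · exact l
      · rcases k.d2 l1 with m | m | m
        · omega
        · omega
        · omega
      · omega
    refine k.fin ?_
    intro h h1 h2
    rcases k.segs h (by omega) with l | l | l | l | l | l
    · exact c.w0 l yt a1 (by omega) b0
    · rw [S_lt' h (by omega)]; omega
    · rw [S_lt' h (by omega)]; omega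
    · rw [S_lt' h (by omega)]; omega
    · rcases lt_or_ge h y with l' | l'
      · rw [S_lt' h (by omega)]; omega
      · rw [S_ge' c.s h l']; omega
    · exact c.wF (by omega) (by omega) l.2

end

/-- case II -/
lemma DLC.caseII (c : DLC A B R X y) {k0 : ℕ} (h1 : A k0 = k0) (h2 : A (k0+1) = A k0)
    (h3 : B k0 = k0) : Good A B := by
  have yR := c.yR
  have e1 := c.eR
  have e2 := c.hy
  have hR2 : A R + 2 ≤ R := by
    have k1 := c.eR; have k2 := c.s.pB.nonneg y; omega
  have k0R : k0 < R := by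
    by_contra hc
    have := c.s.pA.mono (show R ≤ k0 by omega)
    omega
  have k0y : k0 < y := by
    by_contra hc
    have := c.s.pA.mono (show y ≤ k0 by omega)
    have := c.y1
    omega
  obtain ⟨t1, x1, o1, o2, l1, a1, a2, cx1⟩ := next_run c.s.pA c.s.eA c.cR k0R h2
  have yt : t1 < y := by
    by_contra hc
    have k1 := c.s.pA.mono (show y ≤ t1 by omega)
    have k2 := c.Blt k0y
    omega
  have x1R : x1 < R := by
    by_contra hc
    have e : x1 = R := by omega
    subst e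
    have k1 := c.s.pA.mono yt.le
    have k2 := c.s.pA.mono yR.le
    omega
  have b1 : B t1 = k0 := by
    have k1 := c.notF cx1 x1R o2.le
    have k2 := c.s.pB.mono o1.le
    omega
  have Xk0 : ∀ x ∈ X, x1 ≤ x := by
    intro x hx
    have cx := (c.hX x hx).1
    by_contra hc
    rcases le_or_gt x k0 with l | l
    · have e : x = k0 := by
        rcases eq_or_lt_of_le l with e | e
        · exact e
        · exfalso
          have := cx.gt k0 e
          have := c.s.pA.nonneg x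
          omega
      subst e
      rcases c.C2 x (Or.inr hx) with m | ⟨x', hx', hxR', m⟩ | m
      · omega
      · have := c.s.pA.nonneg x'; omega
      · omega
    · rcases le_or_gt x t1 with l' | l'
      · have := c.s.pA.mono l'
        have := cx.lt k0 l
        omega
      · have := cx.gt x1 (by omega)
        have := c.s.pA.mono l'.le
        omega
  have hx1c := (cor_iff c.s.pA x1).1 cx1
  obtain ⟨t2, x2, o3, o5, l2, a3, a4, cx2⟩ := next_run c.s.pA c.s.eA c.cR x1R hx1c.2.2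
  have k : KC A B R X y k0 t1 x1 t2 := ⟨c, cx1, o1, o2, o3, by omega, h1, h3, by omega, b1,
    by omega, a3, yt⟩
  have Xx2 : ∀ x ∈ X, x = x1 ∨ x2 ≤ x := by
    intro x hx
    have cx := (c.hX x hx).1
    have h0 := Xk0 x hx
    by_contra hc
    push Not at hc
    have h4 : x1 < x := lt_of_le_of_ne h0 (Ne.symm hc.1)
    rcases le_or_gt x t2 with l' | l'
    · have := c.s.pA.mono l'
      have := cx.lt x1 h4
      omega
    · have := cx.gt x2 (by omega)
      have := c.s.pA.mono l'.le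
      omega
  rcases eq_or_lt_of_le l2 with e | x2R
  · subst e
    refine k.K1 (by omega) ?_
    intro x hx
    rcases Xx2 x hx with l | l
    · exact l
    · have := c.XR x hx; omega
  have hx2c := (cor_iff c.s.pA x2).1 cx2
  obtain ⟨t3, x3, o6, o7, l3, a5, a6, cx3⟩ := next_run c.s.pA c.s.eA c.cR x2R hx2c.2.2
  rcases eq_or_lt_of_le l3 with e | x3R
  · subst e
    by_cases hcd : x2 = t2 + 1 ∨ t2 = x1 + 1
    · have kk : K2C A B x3 X y k0 t1 x1 t2 x2 t3 := by
        refine ⟨k, cx2, o5, o6, by omega, by omega, a5, by omega, ?_, hcd⟩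
        intro x hx
        rcases Xx2 x hx with l | l
        · exact Or.inl l
        · right
          by_contra hc
          have h4 : x2 < x := lt_of_le_of_ne l (Ne.symm hc)
          have cx := (c.hX x hx).1
          have h5 := c.XR x hx
          rcases le_or_gt x t3 with l' | l'
          · have := c.s.pA.mono l'
            have := cx.lt x2 h4
            omega
          · have := cx.gt x3 (by omega)
            have := c.s.pA.mono l'.le
            omega
      rcases le_or_gt y x1 with m | m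
      · exact kk.a m
      rcases le_or_gt y t2 with m' | m'
      · exact kk.b m m'
      rcases le_or_gt y x2 with m | m
      · exact kk.c' m' m
      · exact kk.d m
    · exact c.mkPP cx1 cx2 (by omega) x2R (by omega) (by omega) (by omega)
  · exact c.mkPP cx1 cx3 (by omega) x3R (by omega) (by omega) (by omega)

end

/-- The D'-lemma, left case -/
theorem dl : StmtDL := by
  intro A B R s cR X y hX hXR cy hy hS yR ny C1 C2
  have hpos := s.A_pos cR
  have nB := s.pB.nonneg y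
  have eR : B y + R = A R + 2 + y := by
    rw [S_ge' s R yR.le] at hS
    have := s.hR
    omega
  have hyA := cR.lt y yR
  have y1 : A y + 1 ≤ y := by
    rcases C2 y (Finset.mem_insert_self y X) with h | h
    · rw [T_le R _ y yR.le] at h; omega
    · rcases h with ⟨x, hx, h⟩ | ⟨z, hz, h⟩
      · unfold P at h
        rw [T_le R _ y yR.le] at h
        have := min_le_right (T x (A x - 1) y) (min (y:ℤ) (A R))
        omega
      · rw [Finset.mem_singleton] at hz; subst hz
        rw [S_lt' z le_rfl] at h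
        omega
  by_cases XR : ∀ x ∈ X, x < R
  · have C1' : ∀ h, h < R → B h ≤ A h → min (h:ℤ) (A R - 1) + B h < 2 * A h →
        Hp A B R X y h := by
      intro h hh h1 h2
      refine Hp_of s cR hX XR cy yR eR h hh (C1 h h1 ?_)
      rw [T_le R _ h hh.le]; exact h2
    have C2' : ∀ c, c = y ∨ c ∈ X → 2 * A c + 1 ≤ min (c:ℤ) (A R - 1) + B c ∨
        Hp A B R X y c := by
      intro c hc
      have hcR : c < R := by
        rcases hc with rfl | hc
        · exact yR
        · exact XR c hc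
      rcases C2 c (by rw [Finset.mem_insert]; exact hc) with h | h
      · rw [T_le R _ c hcR.le] at h; exact Or.inl h
      · exact Or.inr (Hp_of s cR hX XR cy yR eR c hcR h)
    have c : DLC A B R X y := ⟨s, cR, hX, XR, cy, hy, eR, yR, ny, y1, C1', C2'⟩
    obtain ⟨k0, _, hk1, hk2⟩ := run_up s.pA s.eA 0
    have hk1' : A k0 = k0 := by rw [hk1, s.pA.zero]; push_cast; ring
    have := s.pB.nonneg k0
    rcases lt_or_ge (B k0) k0 with h | h
    · exact c.caseI hk1' hk2 (by omega)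
    · exact c.caseII hk1' hk2 (by omega)
  · push Not at XR
    obtain ⟨x, hx, hxR⟩ := XR
    have cx := (hX x hx).1
    have hxB := (hX x hx).2
    have hx1 : R < x := by
      rcases eq_or_lt_of_le hxR with e | e
      · subst e; have := s.hR; omega
      · exact e
    have k1 := cx.lt R hx1
    have k2 := s.corR.gt x hx1
    have k3 := s.hR
    refine mk2 (P_niceA s cx) (S_nice s cy hy) ?_ ?_
    · unfold P
      rw [T_le x _ y (by omega), T_le R _ y yR.le]
      omega
    · rw [S_ge' s x (by omega)]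
      omega

end Pool.Agent.R90.W
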