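import Pool.Agent.R90.W.Defs

set_option autoImplicit false
set_option linter.unusedVariables false

namespace Pool.Agent.R90.W

open Finset

section rt
variable {A B : ℕ → ℤ} {R : ℕ}

/-- right of `R`: help relation for `P` (with `W = A`) and `S` (with `W = B`) -/
def PHr (W : ℕ → ℤ) (g h : ℕ) : Prop :=
  (g < h ∧ W h + 2 ≤ W g + ((h:ℤ) - g)) ∨ (h < g ∧ W h + 2 ≤ W g)

lemma ph_iff (s : Sit A B R) (cR : Cor A R) {x h : ℕ} (c : Cor A x) (hx : R < x) (hh : R < h) :
    A h + 1 ≤ P A R x h ↔ PHr A x h := by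
  have a1 := s.A_pos c
  have a2 := s.A_pos cR
  have a3 := cR.gt x hx
  have a4 := cR.gt h hh
  unfold P PHr
  rw [T_ge R (A R) h (by omega) (by omega)]
  rcases lt_trichotomy x h with h1 | h1 | h1
  · rw [T_ge x (A x - 1) h (by omega) (by omega)]
    constructor
    · intro k; left; constructor
      · exact h1
      · have := min_le_left (A x - 1 + ((h:ℤ) - x)) (A R + ((h:ℤ) - R)); omega
    · intro k; apply le_min <;> omega
  · subst h1
    rw [T_ge x (A x - 1) x (by omega) (by omega)]
    constructor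
    · intro k
      have := min_le_left (A x - 1 + ((x:ℤ) - x)) (A R + ((x:ℤ) - R)); omega
    · intro k; omega
  · rw [T_le x (A x - 1) h (by omega)]
    constructor
    · intro k; right; constructor
      · exact h1
      · have k1 := min_le_left (min (h:ℤ) (A x - 1)) (A R + ((h:ℤ) - R))
        have k2 := min_le_right (h:ℤ) (A x - 1); omega
    · intro k; apply le_min
      · apply le_min <;> omega
      · omega

lemma sh_iff (s : Sit A B R) {y h : ℕ} (c : Cor B y) (hy : R < y) (hh : R < h) :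
    B h + 1 ≤ S B y h ↔ PHr B y h := by
  have a1 := s.B_pos c
  have a2 := s.B_pos s.corR
  have a4 := s.corR.gt h hh
  unfold S PHr
  rcases lt_trichotomy y h with h1 | h1 | h1
  · rw [T_ge y (B y - 1) h (by omega) (by omega)]
    constructor
    · intro k; left; omega
    · intro k; omega
  · subst h1
    rw [T_ge y (B y - 1) y (by omega) (by omega)]
    constructor <;> intro k <;> omega
  · rw [T_le y (B y - 1) h (by omega)]
    constructor
    · intro k; right; constructor
      · exact h1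
      · have k2 := min_le_right (h:ℤ) (B y - 1); omega
    · intro k; apply le_min <;> omega

lemma A_notF (s : Sit A B R) {x : ℕ} (c : Cor A x) (hx : R < x) : B x ≤ A x := by
  by_contra hlt
  have h1 := s.Fr x hx (by omega)
  have h2 := c.lt R hx
  have h3 := s.hR
  omega

lemma B_notF (s : Sit A B R) {y : ℕ} (c : Cor B y) (hy : R < y) : B y ≤ A y := by
  by_contra hlt
  have h1 := s.Fr y hy (by omega)
  have h2 := c.lt R hy
  omega

lemma good_pp (s : Sit A B R) (cR : Cor A R) {x x' : ℕ} (c : Cor A x) (c' : Cor A x') (hx : R < x)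
    (hxx : x < x') (h1 : A x' + 2 ≤ A x + ((x':ℤ) - x)) (h2 : A x + 2 ≤ A x') : Good A B :=
  mk2 (P_niceA s c) (P_niceA s c')
    ((ph_iff s cR c hx (by omega)).2 (Or.inl ⟨hxx, h1⟩))
    ((ph_iff s cR c' (by omega) hx).2 (Or.inr ⟨hxx, h2⟩))

lemma good_ps1 (s : Sit A B R) (cR : Cor A R) {x y : ℕ} (c : Cor A x) (c' : Cor B y) (hx : R < x)
    (hxx : x < y) (h1 : A y + 2 ≤ A x + ((y:ℤ) - x)) (h2 : B x + 2 ≤ B y) : Good A B :=
  mk2 (P_niceA s c) (S_nice s c' (B_notF s c' (by omega)))
    ((ph_iff s cR c hx (by omega)).2 (Or.inl ⟨hxx, h1⟩))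
    ((sh_iff s c' (by omega) hx).2 (Or.inr ⟨hxx, h2⟩))

lemma good_ps2 (s : Sit A B R) (cR : Cor A R) {x y : ℕ} (c : Cor A x) (c' : Cor B y) (hy : R < y)
    (hxx : y < x) (h1 : A y + 2 ≤ A x) (h2 : B x + 2 ≤ B y + ((x:ℤ) - y)) : Good A B :=
  mk2 (P_niceA s c) (S_nice s c' (B_notF s c' (by omega)))
    ((ph_iff s cR c (by omega) hy).2 (Or.inr ⟨hxx, h1⟩))
    ((sh_iff s c' (by omega) (by omega)).2 (Or.inl ⟨hxx, h2⟩))

lemma good_ss (s : Sit A B R) {y y' : ℕ} (c : Cor B y) (c' : Cor B y') (hy : R < y)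
    (hxx : y < y') (h1 : B y' + 2 ≤ B y + ((y':ℤ) - y)) (h2 : B y + 2 ≤ B y') : Good A B :=
  mk2 (S_nice s c (B_notF s c (by omega))) (S_nice s c' (B_notF s c' (by omega)))
    ((sh_iff s c hy (by omega)).2 (Or.inl ⟨hxx, h1⟩))
    ((sh_iff s c' (by omega) hy).2 (Or.inr ⟨hxx, h2⟩))

/-- no corners of `X` left of `R` -/
lemma dr_left (s : Sit A B R) (cR : Cor A R) {x y : ℕ} (c : Cor A x) (hx : B x ≤ A x)
    (c' : Cor B y) (hS : S B y R = B R) (hy : R < y) (hxR : x ≤ R)
    (hM : B x + 1 ≤ x) : Good A B := by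
  have hR := s.hR
  have hne : x ≠ R := by rintro rfl; omega
  have hlt : x < R := by omega
  have a1 := s.A_pos c
  have a2 := s.A_pos cR
  have b1 := s.B_pos c'
  have b2 := s.B_pos s.corR
  have m1 := s.pB.mono hxR
  have k1 := s.corR.lt x hlt
  have k2 := c.gt R hlt
  have k3 := cR.gt y hy
  have hBy : B y = B R + 1 := by
    unfold S at hS
    rw [T_le y (B y - 1) R (by omega)] at hS
    rcases min_choice (R:ℤ) (B y - 1) with h | h
    · rw [h] at hS; omega
    · rw [h] at hS; omega
  refine mk2 (P_niceA s c) (S_nice s c' (B_notF s c' hy)) ?_ ?_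
  · unfold P
    rw [T_ge R (A R) y (by omega) (by omega), T_ge x (A x - 1) y (by omega) (by omega)]
    apply le_min <;> omega
  · unfold S
    rw [T_le y (B y - 1) x (by omega)]
    apply le_min <;> omega

/-- help relation right of `R`, with used vectors -/
def HH (A B : ℕ → ℤ) (X Y : Finset ℕ) (h : ℕ) : Prop :=
  (∃ x ∈ X, x < h ∧ A h + 2 ≤ A x + ((h:ℤ) - x)) ∨ (∃ x ∈ X, h < x ∧ A h + 2 ≤ A x) ∨
  (∃ y ∈ Y, y < h ∧ B h + 2 ≤ B y + ((h:ℤ) - y)) ∨ (∃ y ∈ Y, h < y ∧ B h + 2 ≤ B y)

/-- the situation right of `R`, no good trade -/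
structure RC (A B : ℕ → ℤ) (R : ℕ) (X Y : Finset ℕ) (y : ℕ) : Prop where
  s : Sit A B R
  cR : Cor A R
  hX : ∀ x ∈ X, Cor A x ∧ R < x
  hY : ∀ z ∈ Y, Cor B z ∧ R < z ∧ z ≤ y
  yY : y ∈ Y
  C1 : ∀ h, R < h → B h ≤ A h → A R + ((h:ℤ) - R) + B h ≤ 2 * A h → HH A B X Y h
  C2 : ∀ c, c ∈ X ∨ c ∈ Y → 2 * A c + 2 ≤ A R + ((c:ℤ) - R) + B c ∨ HH A B X Y c
  ng : ¬ Good A B

variable {X Y : Finset ℕ} {y : ℕ}

lemma RC.pp (r : RC A B R X Y y) {x x' : ℕ} (c : Cor A x) (c' : Cor A x') (hx : R < x)
    (hxx : x < x') (h1 : A x' + 2 ≤ A x + ((x':ℤ) - x)) (h2 : A x + 2 ≤ A x') : False :=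
  r.ng (good_pp r.s r.cR c c' hx hxx h1 h2)

lemma RC.ps1 (r : RC A B R X Y y) {x y' : ℕ} (c : Cor A x) (c' : Cor B y') (hx : R < x)
    (hxx : x < y') (h1 : A y' + 2 ≤ A x + ((y':ℤ) - x)) (h2 : B x + 2 ≤ B y') : False :=
  r.ng (good_ps1 r.s r.cR c c' hx hxx h1 h2)

lemma RC.ps2 (r : RC A B R X Y y) {x y' : ℕ} (c : Cor A x) (c' : Cor B y') (hy : R < y')
    (hxx : y' < x) (h1 : A y' + 2 ≤ A x) (h2 : B x + 2 ≤ B y' + ((x:ℤ) - y')) : False :=
  r.ng (good_ps2 r.s r.cR c c' hy hxx h1 h2)

lemma RC.ss (r : RC A B R X Y y) {z z' : ℕ} (c : Cor B z) (c' : Cor B z') (hy : R < z)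
    (hxx : z < z') (h1 : B z' + 2 ≤ B z + ((z':ℤ) - z)) (h2 : B z + 2 ≤ B z') : False :=
  r.ng (good_ss r.s c c' hy hxx h1 h2)

/-- Step 1: no `A`-corner `x` between `R` and `y` with `f x ≤ - b y`. -/
lemma RC.step1 (r : RC A B R X Y y) : ∀ x, Cor A x → R < x → x < y →
    ((x:ℤ) - R) - 2 * (A x - A R) ≤ -(B y - B R) → False := by
  intro x
  induction x using Nat.strong_induction_on with
  | _ x ih =>
  intro cx hRx hxy hf
  have s := r.s
  have hR := s.hR
  have cy := (r.hY y r.yY).1
  have hRy := (r.hY y r.yY).2.1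
  have mA := fun g h => @IsPath.mono A s.pA g h
  have mB := fun g h => @IsPath.mono B s.pB g h
  have kf := A_notF s cx hRx
  have hb := s.corR.gt
  have e1 := cy.lt x hxy
  have e2 := cx.gt y hxy
  have e3 := cy.lt R hRy
  -- `x` is helped
  have hx := r.C1 x hRx kf (by omega)
  rcases hx with ⟨w, hw, hwx, h1⟩ | ⟨w, hw, hwx, h1⟩ | ⟨w, hw, hwx, h1⟩ | ⟨w, hw, hwx, h1⟩
  · -- (ii)
    obtain ⟨cw, hRw⟩ := r.hX w hw
    by_cases h2 : ((w:ℤ) - R) - 2 * (A w - A R) ≤ -(B y - B R)
    · exact ih w hwx cw hRw (by omega) h2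
    · exact r.pp cw cx hRw hwx h1 (by omega)
  · -- (i)
    obtain ⟨cw, hRw⟩ := r.hX w hw
    have g1 := cx.gt w hwx
    have g2 := mA x w (by omega)
    by_cases h2 : A w + 2 ≤ A x + ((w:ℤ) - x)
    · exact r.pp cx cw hRx hwx h2 h1
    have hD : ¬ 2 * A w + 2 ≤ A R + ((w:ℤ) - R) + B w := by
      rcases le_or_gt w y with h3 | h3
      · have := mB w y h3; omega
      · have := cy.gt w h3; omega
    rcases (r.C2 w (Or.inl hw)).resolve_left hD with ⟨c, hc, hcw, h3⟩ | ⟨c, hc, hcw, h3⟩ | ⟨c, hc, hcw, h3⟩ | ⟨c, hc, hcw, h3⟩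
    · obtain ⟨cc, hRc⟩ := r.hX c hc
      have hcx : c < x := by
        by_contra hle
        have := mA x c (by omega)
        omega
      have := mA c x (by omega)
      exact r.pp cc cw hRc hcw h3 (by omega)
    · obtain ⟨cc, hRc⟩ := r.hX c hc
      have g3 := cw.gt c hcw
      exact r.pp cx cc hRx (by omega) (by omega) (by omega)
    · obtain ⟨cc, hRc, hcy⟩ := r.hY c hc
      rcases le_or_gt c x with h4 | h4
      · have := mA c x (by omega)
        exact r.ps2 cw cc hRc hcw (by omega) h3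
      · have g3 := cx.gt c h4
        have g4 := mB c w (by omega)
        exact r.ps2 cw cc hRc hcw (by omega) h3
    · obtain ⟨cc, hRc, hcy⟩ := r.hY c hc
      have g3 := cw.gt c hcw
      have g4 := mB x w (by omega)
      exact r.ps1 cx cc hRx (by omega) (by omega) (by omega)
  · -- (iv)
    obtain ⟨cw, hRw, hwy⟩ := r.hY w hw
    have g1 := cx.lt w hwx
    by_cases h2 : A w + 2 ≤ A x
    · exact r.ps2 cx cw hRw hwx h2 h1
    have g2 := mB w x (by omega)
    have g3 := mA w x (by omega)
    have g4 := mA R w (by omega)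
    obtain ⟨c, hRc, cc, hc⟩ := exists_cor s.pA s.eA w R (by omega) (by omega)
    rcases hc with ⟨hc1, hc2⟩ | ⟨hc1, hc2⟩
    · exact ih c (by omega) cc hRc (by omega) (by omega)
    · rcases le_or_gt x c with h5 | h5
      · have := mA x c h5; omega
      · exact ih c h5 cc hRc (by omega) (by omega)
  · -- (iii)
    obtain ⟨cw, hRw, hwy⟩ := r.hY w hw
    have g1 := mB w y hwy
    have g2 := mB x y (by omega)
    by_cases h2 : A y + 2 ≤ A x + ((y:ℤ) - x)
    · exact r.ps1 cx cy hRx hxy h2 (by omega)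
    have hD : ¬ 2 * A y + 2 ≤ A R + ((y:ℤ) - R) + B y := by omega
    rcases (r.C2 y (Or.inr r.yY)).resolve_left hD with ⟨c, hc, hcy, h3⟩ | ⟨c, hc, hcy, h3⟩ | ⟨c, hc, hcy, h3⟩ | ⟨c, hc, hcy, h3⟩
    · -- P_c -> y, c < y
      obtain ⟨cc, hRc⟩ := r.hX c hc
      have hcx : c < x := by
        by_contra hle
        have := mA x c (by omega)
        omega
      have g3 := mB c x (by omega)
      exact r.ps1 cc cy hRc hcy h3 (by omega)
    · -- P_c -> y, c > y
      obtain ⟨cc, hRc⟩ := r.hX c hc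
      have g3 := mA x y (by omega)
      have g4 := cx.gt c (by omega)
      by_cases h4 : A c + 2 ≤ A x + ((c:ℤ) - x)
      · exact r.pp cx cc hRx (by omega) h4 (by omega)
      have g5 := mB x c (by omega)
      have hD' : ¬ 2 * A c + 2 ≤ A R + ((c:ℤ) - R) + B c := by omega
      rcases (r.C2 c (Or.inl hc)).resolve_left hD' with ⟨w', hw', hwc, h5⟩ | ⟨w', hw', hwc, h5⟩ | ⟨w', hw', hwc, h5⟩ | ⟨w', hw', hwc, h5⟩
      · obtain ⟨cw', hRw'⟩ := r.hX w' hw'
        have hwx' : w' < x := by
          by_contra hle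
          have := mA x w' (by omega)
          omega
        have := mA w' x (by omega)
        exact r.pp cw' cc hRw' hwc h5 (by omega)
      · obtain ⟨cw', hRw'⟩ := r.hX w' hw'
        have := cc.gt w' hwc
        exact r.pp cx cw' hRx (by omega) (by omega) (by omega)
      · obtain ⟨cw', hRw', hwy'⟩ := r.hY w' hw'
        rcases le_or_gt w' x with h6 | h6
        · have := mA w' x (by omega)
          exact r.ps2 cc cw' hRw' hwc (by omega) h5
        · have g6 := cx.gt w' h6
          have g7 := mB w' c (by omega)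
          exact r.ps2 cc cw' hRw' hwc (by omega) h5
      · obtain ⟨cw', hRw', hwy'⟩ := r.hY w' hw'
        omega
    · -- S_c -> y, c < y
      obtain ⟨cc, hRc, hcy'⟩ := r.hY c hc
      by_cases h4 : B c + 2 ≤ B y
      · exact r.ss cc cy hRc hcy h3 h4
      have g3 := cy.lt c hcy
      have hxc : x < c := by
        by_contra hle
        have := mB c x (by omega)
        omega
      have g4 := cx.gt c hxc
      have g5 := mA c y (by omega)
      have hD' : ¬ 2 * A c + 2 ≤ A R + ((c:ℤ) - R) + B c := by omega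
      rcases (r.C2 c (Or.inr hc)).resolve_left hD' with ⟨w', hw', hwc, h5⟩ | ⟨w', hw', hwc, h5⟩ | ⟨w', hw', hwc, h5⟩ | ⟨w', hw', hwc, h5⟩
      · obtain ⟨cw', hRw'⟩ := r.hX w' hw'
        have hwx' : w' < x := by
          by_contra hle
          have := mA x w' (by omega)
          omega
        have := mB w' x (by omega)
        exact r.ps1 cw' cy hRw' (by omega) (by omega) (by omega)
      · obtain ⟨cw', hRw'⟩ := r.hX w' hw'
        have hyw : y ≤ w' := by
          by_contra hle
          have := cw'.gt y (by omega)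
          have := mA c w' (by omega)
          omega
        have := mB y w' (by omega)
        exact r.ps2 cw' cc hRc (by omega) (by omega) (by omega)
      · obtain ⟨cw', hRw', hwy'⟩ := r.hY w' hw'
        have := cc.lt w' hwc
        exact r.ss cw' cy hRw' (by omega) (by omega) (by omega)
      · obtain ⟨cw', hRw', hwy'⟩ := r.hY w' hw'
        have := mB w' y (by omega)
        omega
    · obtain ⟨cc, hRc, hcy'⟩ := r.hY c hc
      omega

/-- if `f h ≤ - b y` then `A` has only `1`-steps between `h` and `y` -/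
lemma RC.fh (r : RC A B R X Y y) {h : ℕ} (hRh : R < h) (hhy : h < y)
    (hf : ((h:ℤ) - R) - 2 * (A h - A R) ≤ -(B y - B R)) : A y = A h + ((y:ℤ) - h) := by
  have s := r.s
  have cy := (r.hY y r.yY).1
  have hRy := (r.hY y r.yY).2.1
  have mA := fun g h => @IsPath.mono A s.pA g h
  have e3 := cy.lt R hRy
  have e4 := mA R h (by omega)
  obtain ⟨c, hRc, cc, hc⟩ := exists_cor s.pA s.eA h R (by omega) (by omega)
  rcases hc with ⟨hc1, hc2⟩ | ⟨hc1, hc2⟩
  · exact (r.step1 c cc hRc (by omega) (by omega)).elim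
  · rcases lt_or_ge c y with h5 | h5
    · exact (r.step1 c cc hRc h5 (by omega)).elim
    · have := mA y c h5
      have := mA h y (by omega)
      omega

/-- the value of `S_R + S_y` -/
lemma RC.w_le (r : RC A B R X Y y) (h : ℕ) (hh : h ≤ R) :
    2 * A h ≤ T R (A R - 1) h + S B y h := by
  have s := r.s
  have hR := s.hR
  have cy := (r.hY y r.yY).1
  have hRy := (r.hY y r.yY).2.1
  have a2 := s.A_pos r.cR
  have e3 := cy.lt R hRy
  have e4 := s.pA.nonneg h
  have e5 := s.pA.mono hh
  unfold S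
  rw [T_le R (A R - 1) h hh, T_le y (B y - 1) h (by omega)]
  rcases eq_or_lt_of_le hh with h1 | h1
  · subst h1
    rw [min_eq_right (by omega : A h - 1 ≤ (h:ℤ))]
    have : A h + 1 ≤ min (h:ℤ) (B y - 1) := by
      have := s.B_pos s.corR
      apply le_min <;> omega
    omega
  · have e6 := r.cR.lt h h1
    have k1 : A h ≤ min (h:ℤ) (A R - 1) := by apply le_min <;> omega
    have k2 : A h ≤ min (h:ℤ) (B y - 1) := by apply le_min <;> omega
    omega

lemma RC.w_mid (r : RC A B R X Y y) (h : ℕ) (hh : R < h) (hy : h ≤ y)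
    (hf : ((h:ℤ) - R) - 2 * (A h - A R) + (B y - B R) ≥ 1) :
    2 * A h ≤ T R (A R - 1) h + S B y h := by
  have s := r.s
  have hR := s.hR
  have a2 := s.A_pos r.cR
  have e4 := s.pA.nonneg h
  have e5 := r.cR.gt h hh
  unfold S
  rw [T_ge R (A R - 1) h (by omega) (by omega), T_le y (B y - 1) h (by omega)]
  rcases min_choice (h:ℤ) (B y - 1) with h1 | h1 <;> rw [h1] <;> omega

lemma RC.w_ge (r : RC A B R X Y y) (h : ℕ) (hy : y ≤ h) :
    T R (A R - 1) h + S B y h = A R - 1 + ((h:ℤ) - R) + (B y - 1 + ((h:ℤ) - y)) := by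
  have s := r.s
  have cy := (r.hY y r.yY).1
  have hRy := (r.hY y r.yY).2.1
  have a2 := s.A_pos r.cR
  have b2 := s.B_pos cy
  unfold S
  rw [T_ge R (A R - 1) h (by omega) (by omega), T_ge y (B y - 1) h hy (by omega)]

lemma SR_loses (s : Sit A B R) (cR : Cor A R) : Loses A B (T R (A R - 1)) := by
  have a2 := s.A_pos cR
  have hR := s.hR
  refine ⟨T_path R (A R - 1) (by omega) (by omega), ⟨R, ?_⟩, ⟨R, ?_⟩⟩
  · rw [T_at s.pA cR]; omega
  · rw [T_at s.pA cR]; omega

lemma RC.step2 (r : RC A B R X Y y) (hD : 2 * A y + 2 ≤ A R + ((y:ℤ) - R) + B y) : False := by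
  have s := r.s
  have hR := s.hR
  have cy := (r.hY y r.yY).1
  have hRy := (r.hY y r.yY).2.1
  refine r.ng (good2 (SR_loses s r.cR) (S_loses s cy (B_notF s cy hRy)) (Or.inl rfl) (Or.inl rfl) ?_)
  intro h
  have goal2 : 2 * A h ≤ T R (A R - 1) h + S B y h := by
    rcases le_or_gt h R with h1 | h1
    · exact r.w_le h h1
    rcases le_or_gt h y with h2 | h2
    · apply r.w_mid h h1 h2
      by_contra hlt
      rcases eq_or_lt_of_le h2 with h3 | h3
      · subst h3; omega
      · have := r.fh h1 h3 (by omega)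
        omega
    · rw [r.w_ge h h2.le]
      have := s.pA.mono h2.le
      omega
  omega

/-- `f y ≤ - b y` implies that `a(c,y]` is at least `min 2 (y - c)` -/
lemma RC.l3 (r : RC A B R X Y y) (hf : ((y:ℤ) - R) - 2 * (A y - A R) ≤ -(B y - B R)) {c : ℕ}
    (h1 : R ≤ c) (h2 : c < y) : A c + 1 ≤ A y ∧ (c + 2 ≤ y → A c + 2 ≤ A y) := by
  have s := r.s
  have cy := (r.hY y r.yY).1
  have hRy := (r.hY y r.yY).2.1
  have e3 := cy.lt R hRy
  rcases eq_or_lt_of_le h1 with h3 | h3
  · subst h3; constructor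
    · omega
    · intro _; omega
  · by_cases h4 : ((c:ℤ) - R) - 2 * (A c - A R) ≤ -(B y - B R)
    · have := r.fh h3 h2 h4
      constructor
      · omega
      · intro _; omega
    · constructor
      · omega
      · intro _; omega

theorem RC.final (r : RC A B R X Y y) : False := by
  classical
  have s := r.s
  have hR := s.hR
  have cy := (r.hY y r.yY).1
  have hRy := (r.hY y r.yY).2.1
  have mA := fun g h => @IsPath.mono A s.pA g h
  have mB := fun g h => @IsPath.mono B s.pB g h
  have hD : ¬ 2 * A y + 2 ≤ A R + ((y:ℤ) - R) + B y := fun h => r.step2 h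
  have hf : ((y:ℤ) - R) - 2 * (A y - A R) ≤ -(B y - B R) := by omega
  have e3 := cy.lt R hRy
  have l3 := fun c => @RC.l3 A B R X Y y r hf c
  -- x1
  obtain ⟨x1, hy1, c1, h1s⟩ : ∃ x1, y ≤ x1 ∧ Cor A x1 ∧ A x1 = A y + ((x1:ℤ) - y) := by
    obtain ⟨c, hRc, cc, hc⟩ := exists_cor s.pA s.eA y R (by omega) (by omega)
    rcases hc with ⟨hc1, hc2⟩ | ⟨hc1, hc2⟩
    · rcases lt_or_ge c y with h5 | h5
      · exact (r.step1 c cc hRc h5 (by omega)).elim
      · have : c = y := by omega
        subst this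
        exact ⟨c, le_refl _, cc, by omega⟩
    · exact ⟨c, hc1, cc, hc2⟩
  have hRx1 : R < x1 := by omega
  rcases (r.C2 y (Or.inr r.yY)).resolve_left hD with ⟨c, hc, hcy, h3⟩ | ⟨c, hc, hcy, h3⟩ | ⟨c, hc, hcy, h3⟩ | ⟨c, hc, hcy, h3⟩
  · -- (a)
    obtain ⟨cc, hRc⟩ := r.hX c hc
    have g1 := l3 c (by omega) hcy
    exact r.pp cc c1 hRc (by omega) (by omega) (by omega)
  · -- (c)
    have hXne : X.Nonempty := ⟨c, hc⟩
    set x2 := X.max' hXne with hx2
    have hx2X : x2 ∈ X := X.max'_mem hXne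
    have hmax : ∀ x ∈ X, x ≤ x2 := fun x hx => X.le_max' x hx
    have hcx2 := hmax c hc
    obtain ⟨c2, hRx2⟩ := r.hX x2 hx2X
    have g1 := mA c x2 hcx2
    by_cases hm : B x2 + 2 ≤ B y + ((x2:ℤ) - y)
    · exact r.ps2 c2 cy hRy (by omega) (by omega) hm
    have g2 := cy.gt x2 (by omega)
    have g3 := mA y x2 (by omega)
    -- corners of `A` above `y` are above `x1`
    have hab : ∀ w, Cor A w → y < w → x1 ≤ w := by
      intro w cw hw
      by_contra hlt
      have k1 := cw.gt x1 (by omega)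
      have k2 := mA y w (by omega)
      omega
    have hx12 := hab x2 c2 (by omega)
    have g4 := mA x1 x2 hx12
    -- x1 is not helped if a(x1,x2] ≤ 1
    have key1 : A x2 ≤ A x1 + 1 → HH A B X Y x1 → False := by
      intro ha hh
      have hyx1 : y < x1 := by
        by_contra hle
        have : x1 = y := by omega
        subst this; omega
      rcases hh with ⟨u, hu, hux, h5⟩ | ⟨u, hu, hux, h5⟩ | ⟨u, hu, hux, h5⟩ | ⟨u, hu, hux, h5⟩
      · obtain ⟨cu, hRu⟩ := r.hX u hu
        have huy : u < y := by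
          by_contra hle
          rcases eq_or_lt_of_le (not_lt.1 hle) with h6 | h6
          · subst h6; omega
          · have := hab u cu h6; omega
        have g5 := l3 u (by omega) huy
        exact r.pp cu c1 hRu hux h5 (by omega)
      · have := hmax u hu
        have := mA u x2 this
        omega
      · obtain ⟨cu, hRu, huy⟩ := r.hY u hu
        rcases eq_or_lt_of_le huy with h6 | h6
        · subst h6
          have := mB x1 x2 hx12
          omega
        · have g5 := l3 u (by omega) h6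
          exact r.ps2 c1 cu hRu hux (by omega) h5
      · obtain ⟨cu, hRu, huy⟩ := r.hY u hu
        omega
    have hD1 : y < x1 → ¬ 2 * A x1 + 2 ≤ A R + ((x1:ℤ) - R) + B x1 := by
      intro hyx1
      have := cy.gt x1 hyx1
      omega
    -- x2 is not helped
    have key2 : ¬ HH A B X Y x2 := by
      rintro (⟨w, hw, hwx, h5⟩ | ⟨w, hw, hwx, h5⟩ | ⟨w, hw, hwx, h5⟩ | ⟨w, hw, hwx, h5⟩)
      · obtain ⟨cw, hRw⟩ := r.hX w hw
        by_cases h6 : A w + 2 ≤ A x2
        · exact r.pp cw c2 hRw hwx h5 h6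
        have hyw : y < w := by
          by_contra hle
          have := mA w y (by omega)
          omega
        have hx1w := hab w cw hyw
        have g5 := mA x1 w hx1w
        by_cases h7 : A x1 + 2 ≤ A x2
        · exact r.pp c1 c2 hRx1 (by omega) (by omega) h7
        have hw1 : w = x1 := by
          by_contra hne
          have k1 := cw.lt x1 (by omega)
          have k2 := c2.lt w hwx
          omega
        subst hw1
        exact key1 (by omega) ((r.C2 w (Or.inl hw)).resolve_left (hD1 hyw))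
      · have := hmax w hw; omega
      · obtain ⟨cw, hRw, hwy⟩ := r.hY w hw
        rcases eq_or_lt_of_le hwy with h6 | h6
        · subst h6; omega
        · have := mA w y hwy
          exact r.ps2 c2 cw hRw hwx (by omega) h5
      · obtain ⟨cw, hRw, hwy⟩ := r.hY w hw
        omega
    have hD2 := (r.C2 x2 (Or.inl hx2X)).resolve_right key2
    have hlt12 : x1 < x2 := by
      rcases eq_or_lt_of_le hx12 with h6 | h6
      · exfalso
        rw [← h6] at hD2 g2 g3 hm
        omega
      · exact h6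
    have g6 := c1.gt x2 hlt12
    by_cases ha : A x2 ≤ A x1 + 1
    · have hyx1 : y < x1 := by
        by_contra hle
        have : x1 = y := by omega
        subst this; omega
      refine key1 ha (r.C1 x1 hRx1 (A_notF s c1 hRx1) ?_)
      have := cy.gt x1 hyx1
      omega
    by_cases hb : A x2 + 2 ≤ A x1 + ((x2:ℤ) - x1)
    · exact r.pp c1 c2 hRx1 hlt12 hb (by omega)
    have hDy : 2 * A y + 1 = A R + ((y:ℤ) - R) + B y := by omega
    -- the trade
    refine r.ng (good3 (SR_loses s r.cR) (S_loses s cy (B_notF s cy hRy)) (P_loses s c2)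
      (Or.inl rfl) (Or.inl rfl) (Or.inl rfl) ?_)
    intro h
    have off := (P_niceA s c2).off
    have at_ := (P_niceA s c2).at_
    have hP : A h - 1 ≤ P A R x2 h := by
      by_cases h6 : h = x2
      · subst h6; exact at_
      · have := off h h6; omega
    rcases le_or_gt h R with h6 | h6
    · have k1 := r.w_le h h6
      have k2 := off h (by omega)
      omega
    rcases lt_or_ge h y with h7 | h7
    · have k1 : 2 * A h ≤ T R (A R - 1) h + S B y h := by
        apply r.w_mid h h6 h7.le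
        by_contra hlt
        have := r.fh h6 h7 (by omega)
        omega
      have k2 := off h (by omega)
      omega
    have k1 := r.w_ge h h7
    rcases le_or_gt h x1 with h8 | h8
    · have k2 := mA h x1 h8
      have k3 := mA y h h7
      have k4 : A h + 1 ≤ P A R x2 h :=
        (ph_iff s r.cR c2 hRx2 h6).2 (Or.inr ⟨by omega, by omega⟩)
      omega
    · have k2 := c1.gt h h8
      omega
  · -- (b)
    obtain ⟨cc, hRc, hcy'⟩ := r.hY c hc
    have g1 := l3 c (by omega) hcy
    have g2 := mB y x1 hy1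
    have g3 := mB c y (by omega)
    exact r.ps2 c1 cc hRc (by omega) (by omega) (by omega)
  · obtain ⟨cc, hRc, hcy'⟩ := r.hY c hc
    omega

end rt

theorem dr : StmtDR := by
  intro A B R s cR X Y hX hXT hY hYn hYne C1 C2
  classical
  by_contra ng
  set y := Y.max' hYne with hy
  have yY : y ∈ Y := Y.max'_mem hYne
  have hR := s.hR
  have a2 := s.A_pos cR
  have hRy := (hY y yY).2.2.2
  have cy := (hY y yY).1
  -- no corners of `X` on the left
  have hXR : ∀ x ∈ X, R < x := by
    intro x hx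
    by_contra hle
    have hle' : x ≤ R := by omega
    obtain ⟨cx, hBx⟩ := hX x hx
    have hne : x ≠ R := by rintro rfl; omega
    have hM : B x + 1 ≤ x := by
      rcases C2 x (Finset.mem_union_left _ hx) with h1 | h1
      · rw [T_le R (A R - 1) x hle'] at h1
        have := min_le_left (x:ℤ) (A R - 1)
        have := s.pA.nonneg x
        omega
      · rcases h1 with ⟨z, hz, h2⟩ | ⟨z, hz, h2⟩
        · have k1 : P A R z x ≤ x := by
            unfold P
            have := (T_path R (A R) (by omega) (by omega)).nonneg x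
            have := min_le_right (T z (A z - 1) x) (T R (A R) x)
            omega
          omega
        · have hz' := hY z hz
          have k1 : S B z x ≤ x := by
            unfold S
            have := s.B_pos hz'.1
            exact ((T_path z (B z - 1) (by omega) (by omega)).nonneg x).2
          omega
    exact ng (dr_left s cR cx hBx cy (hY y yY).2.2.1 hRy hle' hM)
  have hlp : ∀ h, R < h → Hlp A B R X Y h → HH A B X Y h := by
    intro h hh hl
    rcases hl with ⟨z, hz, h2⟩ | ⟨z, hz, h2⟩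
    · have := (ph_iff s cR (hX z hz).1 (hXR z hz) hh).1 h2
      rcases this with k | k
      · exact Or.inl ⟨z, hz, k⟩
      · exact Or.inr (Or.inl ⟨z, hz, k⟩)
    · have := (sh_iff s (hY z hz).1 (hY z hz).2.2.2 hh).1 h2
      rcases this with k | k
      · exact Or.inr (Or.inr (Or.inl ⟨z, hz, k⟩))
      · exact Or.inr (Or.inr (Or.inr ⟨z, hz, k⟩))
  have hT : ∀ h, R < h → T R (A R - 1) h = A R - 1 + ((h:ℤ) - R) := by
    intro h hh
    exact T_ge R (A R - 1) h (by omega) (by omega)
  have r : RC A B R X Y y := {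
    s := s
    cR := cR
    hX := fun x hx => ⟨(hX x hx).1, hXR x hx⟩
    hY := fun z hz => ⟨(hY z hz).1, (hY z hz).2.2.2, Y.le_max' z hz⟩
    yY := yY
    C1 := fun h hh hB hlt => hlp h hh (C1 h hB (by rw [hT h hh]; omega))
    C2 := fun c hc => by
      have hRc : R < c := by
        rcases hc with hc | hc
        · exact hXR c hc
        · exact (hY c hc).2.2.2
      rcases C2 c (Finset.mem_union.2 hc) with h1 | h1
      · left; rw [hT c hRc] at h1; omega
      · right; exact hlp c hRc h1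
    ng := ng }
  exact r.final

end Pool.Agent.R90.W
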