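import Pool.Agent.R90.W.Defs

set_option autoImplicit false
set_option linter.unusedVariables false

/-!
# The DS-lemma: trades when `|A - B| ≤ 1`
-/

namespace Pool.Agent.R90.W.DS

open Pool.Agent.R90.W

/-- the situation of the DS-lemma -/
structure DSit (A B C : ℕ → ℤ) (e R : ℕ) : Prop where
  pA : IsPath A
  pB : IsPath B
  hC : ∀ h, C h = min (A h) (B h)
  eR : e < R
  AB : ∀ h, A h ≤ B h + 1
  BA : ∀ h, B h ≤ A h + 1
  Ae : A e = B e + 1
  BR : B R = A R + 1
  El : ∀ h, h < e → B h < A h → A e = A h + ((e:ℤ) - h)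
  Er : ∀ h, e < h → B h < A h → A h = A e
  Fl : ∀ h, h < R → A h < B h → B R = B h + ((R:ℤ) - h)
  Fr : ∀ h, R < h → A h < B h → B h = B R

section
variable {A B C : ℕ → ℤ} {e R : ℕ}

lemma DSit.pC (s : DSit A B C e R) : IsPath C := by
  have h : C = fun h => min (A h) (B h) := funext s.hC
  rw [h]; exact inf_path s.pA s.pB

lemma keyE (s : DSit A B C e R) {L : ℕ → ℤ} (p : IsPath L) (h : ℕ) (hh : B h < A h) :
    L e - C e ≤ L h - C h := by
  have h1 := s.hC h
  have h2 := s.hC e
  have h3 := s.Ae
  have h4 := s.AB h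
  rcases lt_trichotomy h e with k | k | k
  · have h5 := s.El h k hh
    have h6 := p.mono k.le
    omega
  · subst k; exact le_rfl
  · have h5 := s.Er h k hh
    have h6 := p.mono k.le
    omega

lemma keyF (s : DSit A B C e R) {L : ℕ → ℤ} (p : IsPath L) (h : ℕ) (hh : A h < B h) :
    L R - C R ≤ L h - C h := by
  have h1 := s.hC h
  have h2 := s.hC R
  have h3 := s.BR
  have h4 := s.BA h
  rcases lt_trichotomy h R with k | k | k
  · have h5 := s.Fl h k hh
    have h6 := p.mono k.le
    omega
  · subst k; exact le_rfl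
  · have h5 := s.Fr h k hh
    have h6 := p.mono k.le
    omega

lemma crit2 (s : DSit A B C e R) {L1 L2 : ℕ → ℤ} (l1 : Loses A B L1) (l2 : Loses A B L2)
    (h0 : ∀ h, 2 * C h ≤ L1 h + L2 h)
    (h1 : 2 * (C e + C R) + 2 ≤ L1 e + L2 e + (L1 R + L2 R)) : Good A B := by
  have he := h0 e
  have hR := h0 R
  have key : ∀ W1 W2 : ℕ → ℤ, (W1 = A ∨ W1 = B) → (W2 = A ∨ W2 = B) →
      (∀ h, W1 h + W2 h ≤ L1 h + L2 h) → Good A B := fun W1 W2 a b c => good2 l1 l2 a b c
  have hE : ∀ h, B h < A h → L1 e + L2 e - 2 * C e ≤ L1 h + L2 h - 2 * C h := by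
    intro h hh
    have k1 := keyE s l1.1 h hh; have k2 := keyE s l2.1 h hh; omega
  have hF : ∀ h, A h < B h → L1 R + L2 R - 2 * C R ≤ L1 h + L2 h - 2 * C h := by
    intro h hh
    have k1 := keyF s l1.1 h hh; have k2 := keyF s l2.1 h hh; omega
  by_cases a2 : 2 ≤ L1 e + L2 e - 2 * C e
  · refine key A A (Or.inl rfl) (Or.inl rfl) (fun h => ?_)
    have k1 := hE h; have k2 := hF h; have k3 := h0 h; have k4 := s.hC h
    have k5 := s.AB h; have k6 := s.BA h; omega
  by_cases a1 : 1 ≤ L1 e + L2 e - 2 * C e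
  · refine key A B (Or.inl rfl) (Or.inr rfl) (fun h => ?_)
    have k1 := hE h; have k2 := hF h; have k3 := h0 h; have k4 := s.hC h
    have k5 := s.AB h; have k6 := s.BA h; omega
  · refine key B B (Or.inr rfl) (Or.inr rfl) (fun h => ?_)
    have k1 := hE h; have k2 := hF h; have k3 := h0 h; have k4 := s.hC h
    have k5 := s.AB h; have k6 := s.BA h; omega

lemma crit3 (s : DSit A B C e R) {L1 L2 L3 : ℕ → ℤ} (l1 : Loses A B L1) (l2 : Loses A B L2)
    (l3 : Loses A B L3)
    (h0 : ∀ h, 3 * C h ≤ L1 h + L2 h + L3 h)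
    (h1 : 3 * (C e + C R) + 3 ≤ L1 e + L2 e + L3 e + (L1 R + L2 R + L3 R)) : Good A B := by
  have he := h0 e
  have hR := h0 R
  have key : ∀ W1 W2 W3 : ℕ → ℤ, (W1 = A ∨ W1 = B) → (W2 = A ∨ W2 = B) → (W3 = A ∨ W3 = B) →
      (∀ h, W1 h + W2 h + W3 h ≤ L1 h + L2 h + L3 h) → Good A B :=
    fun W1 W2 W3 a b c d => good3 l1 l2 l3 a b c d
  have hE : ∀ h, B h < A h → L1 e + L2 e + L3 e - 3 * C e ≤ L1 h + L2 h + L3 h - 3 * C h := by
    intro h hh
    have k1 := keyE s l1.1 h hh; have k2 := keyE s l2.1 h hh; have k3 := keyE s l3.1 h hh; omega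
  have hF : ∀ h, A h < B h → L1 R + L2 R + L3 R - 3 * C R ≤ L1 h + L2 h + L3 h - 3 * C h := by
    intro h hh
    have k1 := keyF s l1.1 h hh; have k2 := keyF s l2.1 h hh; have k3 := keyF s l3.1 h hh; omega
  by_cases a3 : 3 ≤ L1 e + L2 e + L3 e - 3 * C e
  · refine key A A A (Or.inl rfl) (Or.inl rfl) (Or.inl rfl) (fun h => ?_)
    have k1 := hE h; have k2 := hF h; have k3 := h0 h; have k4 := s.hC h
    have k5 := s.AB h; have k6 := s.BA h; omega
  by_cases a2 : 2 ≤ L1 e + L2 e + L3 e - 3 * C e
  · refine key A A B (Or.inl rfl) (Or.inl rfl) (Or.inr rfl) (fun h => ?_)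
    have k1 := hE h; have k2 := hF h; have k3 := h0 h; have k4 := s.hC h
    have k5 := s.AB h; have k6 := s.BA h; omega
  by_cases a1 : 1 ≤ L1 e + L2 e + L3 e - 3 * C e
  · refine key A B B (Or.inl rfl) (Or.inr rfl) (Or.inr rfl) (fun h => ?_)
    have k1 := hE h; have k2 := hF h; have k3 := h0 h; have k4 := s.hC h
    have k5 := s.AB h; have k6 := s.BA h; omega
  · refine key B B B (Or.inr rfl) (Or.inr rfl) (Or.inr rfl) (fun h => ?_)
    have k1 := hE h; have k2 := hF h; have k3 := h0 h; have k4 := s.hC h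
    have k5 := s.AB h; have k6 := s.BA h; omega

end

/-- the vector `S_x` at `p` -/
def t (C : ℕ → ℤ) (x p : ℕ) : ℤ := T x (C x - 1) p
/-- the vector `Pi` at `p` -/
def q (C : ℕ → ℤ) (e R p : ℕ) : ℤ := min (T e (C e) p) (T R (C R) p)

section
variable {C : ℕ → ℤ} {e R : ℕ}

lemma t_low (C : ℕ → ℤ) {x p : ℕ} (h : p ≤ x) : t C x p = min (p:ℤ) (C x - 1) := T_le _ _ _ h

lemma t_high (pC : IsPath C) {x p : ℕ} (h : x ≤ p) : t C x p = C x - 1 + ((p:ℤ) - x) :=
  T_ge _ _ _ h (by have := pC.nonneg x; omega)

lemma t_path (pC : IsPath C) {x : ℕ} (c : Cor C x) : IsPath (t C x) := by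
  have h1 := c.lt 0 c.pos; rw [pC.zero] at h1; have h2 := pC.nonneg x
  exact T_path x (C x - 1) (by omega) (by omega)

lemma q_low (pC : IsPath C) {e R p : ℕ} (heR : e ≤ R) (h : p ≤ e) :
    q C e R p = min (p:ℤ) (C e) := by
  unfold q
  rw [T_le _ _ _ h, T_le _ _ _ (h.trans heR)]
  have := pC.mono heR
  omega

lemma q_mid (pC : IsPath C) {e R p : ℕ} (h1 : e ≤ p) (h2 : p ≤ R) :
    q C e R p = min (C e + ((p:ℤ) - e)) (C R) := by
  unfold q
  have := pC.nonneg e
  rw [T_ge _ _ _ h1 this.2, T_le _ _ _ h2]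
  omega

lemma q_high (pC : IsPath C) {e R p : ℕ} (heR : e ≤ R) (h : R ≤ p) :
    q C e R p = C R + ((p:ℤ) - R) := by
  unfold q
  rw [T_ge _ _ _ (heR.trans h) (pC.nonneg e).2, T_ge _ _ _ h (pC.nonneg R).2]
  have := pC.mono heR
  omega

end



/-- the data of the case analysis: `z` has `omega ≥ 1` and is not helped by `Pi` -/
structure Core (C : ℕ → ℤ) (e R l z r : ℕ) (G : Prop) : Prop where
  pC : IsPath C
  heR : e < R
  hmu : C e + 1 ≤ e
  cl : Cor C l
  cz : Cor C z
  cr : Cor C r
  lz : l ≤ z
  zr : z ≤ r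
  hPair : ∀ x y, Cor C x → Cor C y → C y + 1 ≤ t C x y → C x + 1 ≤ t C y x →
     2 * (C e + C R) + 2 ≤ t C x e + t C x R + (t C y e + t C y R) → G
  hPi : ∀ x, Cor C x → C x + 1 ≤ q C e R x → C e + C R + 2 ≤ t C x e + t C x R → G
  hTri : ∀ x w, Cor C x → Cor C w → C x + 1 ≤ t C w x → C w ≤ t C x w → C w + 1 ≤ q C e R w →
     2 * (C e + C R) + 3 ≤ t C x e + t C x R + (t C w e + t C w R) → G
  hl : C l + 1 ≤ t C r l ∨ C l + 1 ≤ q C e R l
  hr : C r + 1 ≤ t C l r ∨ C r + 1 ≤ q C e R r
  hz : C z + 1 ≤ t C l z ∨ C z + 1 ≤ t C r z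
  hqz : q C e R z ≤ C z
  ho : C e + C R + 2 ≤ t C z e + t C z R

/-- both descriptions of `t` -/
lemma t_spec {C : ℕ → ℤ} (pC : IsPath C) (x p : ℕ) :
    (p ≤ x ∧ t C x p = min (p:ℤ) (C x - 1)) ∨ (x < p ∧ t C x p = C x - 1 + ((p:ℤ) - x)) := by
  by_cases h : p ≤ x
  · exact Or.inl ⟨h, t_low C h⟩
  · exact Or.inr ⟨by omega, t_high pC (by omega)⟩

lemma mono_spec {C : ℕ → ℤ} (pC : IsPath C) (g h : ℕ) :
    (g ≤ h ∧ C g ≤ C h ∧ C h ≤ C g + ((h:ℤ) - g)) ∨ (h < g ∧ C h ≤ C g ∧ C g ≤ C h + ((g:ℤ) - h)) := by
  by_cases k : g ≤ h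
  · exact Or.inl ⟨k, pC.mono k⟩
  · exact Or.inr ⟨by omega, pC.mono (by omega)⟩

lemma cor_spec {C : ℕ → ℤ} {x : ℕ} (c : Cor C x) (h : ℕ) :
    (h < x ∧ C h + 1 ≤ C x) ∨ (x < h ∧ C h + 1 ≤ C x + ((h:ℤ) - x)) ∨ (h = x ∧ C h = C x) := by
  rcases lt_trichotomy h x with k | k | k
  · exact Or.inl ⟨k, c.lt h k⟩
  · exact Or.inr (Or.inr ⟨k, by rw [k]⟩)
  · exact Or.inr (Or.inl ⟨k, c.gt h k⟩)

section
variable {C : ℕ → ℤ} {e R l z r : ℕ} {G : Prop}

lemma case1 (s : Core C e R l z r G) (h : z < e) : G := by
  have heR := s.heR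
  have q1 := s.hqz
  rw [q_low s.pC heR.le h.le] at q1
  have ho := s.ho
  rw [t_high s.pC h.le, t_high s.pC (h.le.trans heR.le)] at ho
  have lz := s.lz
  have zr := s.zr
  have nz := s.pC.nonneg z
  have nl := s.pC.nonneg l
  have mze := s.pC.mono h.le
  have meR := s.pC.mono heR.le
  have mlz := s.pC.mono s.lz
  have mzr := s.pC.mono s.zr
  have mre := mono_spec s.pC e r
  have mrR := mono_spec s.pC r R
  have hmu := s.hmu
  rcases s.hz with k | k
  · -- 1a: l helps z
    have hlz : l < z := by
      rcases lz.lt_or_eq with h1 | h1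
      · exact h1
      · subst h1; rw [t_low _ le_rfl] at k; omega
    rw [t_high s.pC lz] at k
    by_cases p : C l + 1 ≤ q C e R l
    · refine s.hPi l s.cl p ?_
      rw [t_high s.pC (show l ≤ e by omega), t_high s.pC (show l ≤ R by omega)]; omega
    · have k2 := s.hl.resolve_right p
      rw [q_low s.pC heR.le (by omega)] at p
      rw [t_low _ (by omega)] at k2
      have re : e < r := by omega
      refine s.hPair l r s.cl s.cr ?_ ?_ ?_
      · rw [t_high s.pC (by omega)]; omega
      · rw [t_low _ (by omega)]; omega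
      · rw [t_high s.pC (show l ≤ e by omega), t_high s.pC (show l ≤ R by omega),
          t_low C (show e ≤ r by omega)]
        have := t_spec s.pC r R
        have := cor_spec s.cr R
        omega
  · -- 1b: r helps z
    rw [t_low _ zr] at k
    have re : e < r := by omega
    have hlow : C R ≤ t C r R + 1 := by
      have := t_spec s.pC r R
      have := cor_spec s.cr R
      have := s.pC.nonneg R
      omega
    by_cases m2 : C r + 2 ≤ C z + ((r:ℤ) - z)
    · refine s.hPair z r s.cz s.cr ?_ ?_ ?_
      · rw [t_high s.pC zr]; omega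
      · rw [t_low _ zr]; omega
      · rw [t_high s.pC (show z ≤ e by omega), t_high s.pC (show z ≤ R by omega),
          t_low C (show e ≤ r by omega)]
        omega
    · have hrR : r < R := by omega
      have p : ¬ (C r + 1 ≤ q C e R r) := by
        rw [q_mid s.pC re.le hrR.le]; 
        have := s.cz.gt r (by omega)
        omega
      have k2 := s.hr.resolve_right p
      rw [t_high s.pC (by omega)] at k2
      refine s.hPair l r s.cl s.cr ?_ ?_ ?_
      · rw [t_high s.pC (by omega)]; omega
      · have := s.hl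
        rw [t_low _ (by omega), q_low s.pC heR.le (by omega)] at this
        rw [t_low _ (by omega)]; omega
      · rw [t_high s.pC (show l ≤ e by omega), t_high s.pC (show l ≤ R by omega),
          t_low C (show e ≤ r by omega)]
        omega

end

section
variable {C : ℕ → ℤ} {e R l z r : ℕ} {G : Prop}

lemma case2 (s : Core C e R l z r G) (h : z = e) : G := by
  subst h
  have heR := s.heR
  have ho := s.ho
  rw [t_low _ le_rfl, t_high s.pC heR.le] at ho
  have lz := s.lz
  have zr := s.zr
  have nz := s.pC.nonneg z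
  have nl := s.pC.nonneg l
  have meR := s.pC.mono heR.le
  have mlz := s.pC.mono s.lz
  have mzr := s.pC.mono s.zr
  have mrR := mono_spec s.pC r R
  have hmu := s.hmu
  have czl := cor_spec s.cz l
  have clz := cor_spec s.cl z
  have czr := cor_spec s.cz r
  have hlow : C R ≤ t C r R + 1 := by
    have := t_spec s.pC r R
    have := cor_spec s.cr R
    have := s.pC.nonneg R
    omega
  have hl := s.hl
  rw [t_low _ (lz.trans zr), q_low s.pC heR.le lz] at hl
  have L : l < z → G := by
    intro hlz
    refine s.hPi l s.cl ?_ ?_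
    · rw [q_low s.pC heR.le lz]; omega
    · rw [t_high s.pC lz, t_high s.pC (show l ≤ R by omega)]; omega
  rcases s.hz with k | k
  · apply L
    rcases lz.lt_or_eq with h1 | h1
    · exact h1
    · subst h1; rw [t_low _ le_rfl] at k; omega
  · rw [t_low _ zr] at k
    by_cases m2 : C r + 2 ≤ C z + ((r:ℤ) - z)
    · refine s.hPair z r s.cz s.cr ?_ ?_ ?_
      · rw [t_high s.pC zr]; omega
      · rw [t_low _ zr]; omega
      · rw [t_low C (le_refl z), t_high s.pC heR.le, t_low C zr]
        omega
    · have hrR : r < R := by omega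
      by_cases hlz : l < z
      · exact L hlz
      · have : l = z := by omega
        subst this
        have hr := s.hr
        rw [t_high s.pC zr] at hr
        refine s.hTri l r s.cz s.cr ?_ ?_ ?_ ?_
        · rw [t_low _ zr]; omega
        · rw [t_high s.pC zr]; omega
        · rcases hr with h1 | h1
          · omega
          · exact h1
        · rw [t_low C (le_refl l), t_high s.pC heR.le, t_low C zr, t_high s.pC hrR.le]
          omega

lemma case3 (s : Core C e R l z r G) (h1 : e < z) (h2 : z < R) (hm : C z = C e + ((z:ℤ) - e)) :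
    G := by
  have heR := s.heR
  have ho := s.ho
  rw [t_low _ h1.le, t_high s.pC h2.le] at ho
  have lz := s.lz
  have zr := s.zr
  have nz := s.pC.nonneg z
  have nl := s.pC.nonneg l
  have ne := s.pC.nonneg e
  have mzR := s.pC.mono h2.le
  have mlz := s.pC.mono s.lz
  have mzr := s.pC.mono s.zr
  have mrR := mono_spec s.pC r R
  have mle := mono_spec s.pC l e
  have hmu := s.hmu
  have czR := s.cz.gt R h2
  have cle := cor_spec s.cl e
  have czr := cor_spec s.cz r
  have hlow : C R ≤ t C r R + 1 ∧ (r ≠ R → C R ≤ t C r R) := by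
    have := t_spec s.pC r R
    have := cor_spec s.cr R
    have := s.pC.nonneg R
    omega
  have hl := s.hl
  rw [t_low _ (lz.trans zr)] at hl
  rcases s.hz with k | k
  · have hlz : l < z := by
      rcases lz.lt_or_eq with h1 | h1
      · exact h1
      · subst h1; rw [t_low _ le_rfl] at k; omega
    rw [t_high s.pC lz] at k
    have hle : l < e := by omega
    by_cases p : C l + 1 ≤ q C e R l
    · refine s.hPi l s.cl p ?_
      rw [t_high s.pC (show l ≤ e by omega), t_high s.pC (show l ≤ R by omega)]; omega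
    · have k2 := hl.resolve_right p
      rw [q_low s.pC heR.le (by omega)] at p
      refine s.hPair l r s.cl s.cr ?_ ?_ ?_
      · rw [t_high s.pC (by omega)]; omega
      · rw [t_low _ (by omega)]; omega
      · rw [t_high s.pC (show l ≤ e by omega), t_high s.pC (show l ≤ R by omega),
          t_low C (show e ≤ r by omega)]
        omega
  · rw [t_low _ zr] at k
    by_cases m2 : C r + 2 ≤ C z + ((r:ℤ) - z)
    · refine s.hPair z r s.cz s.cr ?_ ?_ ?_
      · rw [t_high s.pC zr]; omega
      · rw [t_low _ zr]; omega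
      · rw [t_low C h1.le, t_high s.pC h2.le, t_low C (show e ≤ r by omega)]
        omega
    · have tre := t_low C (show e ≤ r by omega)
      by_cases p : C r + 1 ≤ q C e R r
      · have hrR : r ≠ R := by
          rintro rfl
          rw [q_mid s.pC heR.le le_rfl] at p; omega
        refine s.hTri z r s.cz s.cr ?_ ?_ p ?_
        · rw [t_low _ zr]; omega
        · rw [t_high s.pC zr]; omega
        · rw [t_low C h1.le, t_high s.pC h2.le, tre]
          omega
      · have k2 := s.hr.resolve_right p
        rw [t_high s.pC (by omega)] at k2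
        have hle : l < e := by omega
        rw [q_low s.pC heR.le hle.le] at hl
        refine s.hPair l r s.cl s.cr ?_ ?_ ?_
        · rw [t_high s.pC (by omega)]; omega
        · rw [t_low _ (by omega)]; omega
        · rw [t_high s.pC (show l ≤ e by omega), t_high s.pC (show l ≤ R by omega), tre]
          omega

lemma case4 (s : Core C e R l z r G) (h1 : e < z) (h2 : z < R) (hm : C R = C z)
    (hm2 : C z + 1 ≤ C e + ((z:ℤ) - e)) : G := by
  have heR := s.heR
  have ho := s.ho
  rw [t_low _ h1.le, t_high s.pC h2.le] at ho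
  have lz := s.lz
  have zr := s.zr
  have nz := s.pC.nonneg z
  have nl := s.pC.nonneg l
  have ne := s.pC.nonneg e
  have nR := s.pC.nonneg R
  have mez := s.pC.mono h1.le
  have mlz := s.pC.mono s.lz
  have mzr := s.pC.mono s.zr
  have mrR := mono_spec s.pC r R
  have mle := mono_spec s.pC l e
  have hmu := s.hmu
  have czR := s.cz.gt R h2
  have cle := cor_spec s.cl e
  have clz := cor_spec s.cl z
  have czr := cor_spec s.cz r
  have tle := t_spec s.pC l e
  have hl := s.hl
  rw [t_low _ (lz.trans zr)] at hl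
  have hlmu : C l + 1 ≤ l := by
    rcases hl with h | h
    · omega
    · by_cases hle : l ≤ e
      · rw [q_low s.pC heR.le hle] at h; omega
      · rw [q_mid s.pC (by omega) (by omega)] at h; omega
  have hlow : C R ≤ t C r R + 1 ∧ (r ≠ R → C R ≤ t C r R) := by
    have := t_spec s.pC r R
    have := cor_spec s.cr R
    omega
  rcases s.hz with k | k
  · have hlz : l < z := by
      rcases lz.lt_or_eq with h1 | h1
      · exact h1
      · subst h1; rw [t_low _ le_rfl] at k; omega
    rw [t_high s.pC lz] at k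
    by_cases p : C l + 1 ≤ q C e R l
    · have hle : l ≠ e := by
        rintro rfl
        rw [q_low s.pC heR.le le_rfl] at p; omega
      refine s.hPi l s.cl p ?_
      rw [t_high s.pC (show l ≤ R by omega)]; omega
    · by_cases c2 : C l + 2 ≤ C z
      · refine s.hPair l z s.cl s.cz ?_ ?_ ?_
        · rw [t_high s.pC lz]; omega
        · rw [t_low _ lz]; omega
        · rw [t_high s.pC (show l ≤ R by omega), t_low C h1.le, t_high s.pC h2.le]
          omega
      · have k2 := hl.resolve_right p
        have hRr : R < r := by omega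
        refine s.hPair l r s.cl s.cr ?_ ?_ ?_
        · rw [t_high s.pC (by omega)]; omega
        · rw [t_low _ (by omega)]; omega
        · rw [t_high s.pC (show l ≤ R by omega), t_low C (show e ≤ r by omega), t_low C hRr.le]
          omega
  · rw [t_low _ zr] at k
    have hRr : R < r := by omega
    have tre := t_low C (show e ≤ r by omega)
    have trR := t_low C hRr.le
    by_cases m2 : C r + 2 ≤ C z + ((r:ℤ) - z)
    · refine s.hPair z r s.cz s.cr ?_ ?_ ?_
      · rw [t_high s.pC zr]; omega
      · rw [t_low _ zr]; omega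
      · rw [t_low C h1.le, t_high s.pC h2.le, tre, trR]
        omega
    · have p : ¬ (C r + 1 ≤ q C e R r) := by
        rw [q_high s.pC heR.le hRr.le]; omega
      have k2 := s.hr.resolve_right p
      rw [t_high s.pC (by omega)] at k2
      refine s.hPair l r s.cl s.cr ?_ ?_ ?_
      · rw [t_high s.pC (by omega)]; omega
      · rw [t_low _ (by omega)]; omega
      · rw [t_high s.pC (show l ≤ R by omega), tre, trR]
        omega

lemma case5 (s : Core C e R l z r G) (h : z = R) : G := by
  subst h
  have heR := s.heR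
  have ho := s.ho
  rw [t_low _ le_rfl, t_low _ heR.le] at ho
  have lz := s.lz
  have zr := s.zr
  have nz := s.pC.nonneg z
  have nl := s.pC.nonneg l
  have ne := s.pC.nonneg e
  have mez := s.pC.mono heR.le
  have mlz := s.pC.mono s.lz
  have mzr := s.pC.mono s.zr
  have mle := mono_spec s.pC l e
  have hmu := s.hmu
  have cle := cor_spec s.cl e
  have clz := cor_spec s.cl z
  have czr := cor_spec s.cz r
  have tle := t_spec s.pC l e
  have hl := s.hl
  rw [t_low _ (lz.trans zr)] at hl
  have hlmu : C l + 1 ≤ l := by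
    rcases hl with h | h
    · omega
    · by_cases hle : l ≤ e
      · rw [q_low s.pC heR.le hle] at h; omega
      · rw [q_mid s.pC (by omega) (by omega)] at h; omega
  rcases s.hz with k | k
  · have hlz : l < z := by
      rcases lz.lt_or_eq with h1 | h1
      · exact h1
      · subst h1; rw [t_low _ le_rfl] at k; omega
    rw [t_high s.pC lz] at k
    by_cases c2 : C l + 2 ≤ C z
    · refine s.hPair l z s.cl s.cz ?_ ?_ ?_
      · rw [t_high s.pC lz]; omega
      · rw [t_low _ lz]; omega
      · rw [t_high s.pC lz, t_low C heR.le, t_low C (le_refl z)]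
        omega
    · by_cases p : C l + 1 ≤ q C e z l
      · refine s.hPi l s.cl p ?_
        rw [t_high s.pC lz]; omega
      · have k2 := hl.resolve_right p
        have hRr : z < r := by omega
        refine s.hPair l r s.cl s.cr ?_ ?_ ?_
        · rw [t_high s.pC (by omega)]; omega
        · rw [t_low _ (by omega)]; omega
        · rw [t_high s.pC lz, t_low C (show e ≤ r by omega), t_low C hRr.le]
          omega
  · rw [t_low _ zr] at k
    have hRr : z < r := by omega
    have tre := t_low C (show e ≤ r by omega)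
    have trR := t_low C hRr.le
    by_cases m2 : C r + 2 ≤ C z + ((r:ℤ) - z)
    · refine s.hPair z r s.cz s.cr ?_ ?_ ?_
      · rw [t_high s.pC zr]; omega
      · rw [t_low _ zr]; omega
      · rw [t_low C heR.le, t_low C (le_refl z), tre, trR]
        omega
    · refine s.hTri z r s.cz s.cr ?_ ?_ ?_ ?_
      · rw [t_low _ zr]; omega
      · rw [t_high s.pC zr]; omega
      · rw [q_high s.pC heR.le hRr.le]; omega
      · rw [t_low C heR.le, t_low C (le_refl z), tre, trR]
        omega

lemma case6 (s : Core C e R l z r G) (h : R < z) (hm : C z = C R + ((z:ℤ) - R)) : G := by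
  have heR := s.heR
  have ho := s.ho
  rw [t_low _ h.le, t_low _ (by omega)] at ho
  have lz := s.lz
  have zr := s.zr
  have nz := s.pC.nonneg z
  have nl := s.pC.nonneg l
  have ne := s.pC.nonneg e
  have nR := s.pC.nonneg R
  have meR := s.pC.mono heR.le
  have mlz := s.pC.mono s.lz
  have mzr := s.pC.mono s.zr
  have mle := mono_spec s.pC l e
  have mlR := mono_spec s.pC l R
  have hmu := s.hmu
  have cle := cor_spec s.cl e
  have clR := cor_spec s.cl R
  have clz := cor_spec s.cl z
  have czr := cor_spec s.cz r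
  have tle := t_spec s.pC l e
  have hl := s.hl
  rw [t_low _ (lz.trans zr)] at hl
  rcases s.hz with k | k
  · have hlz : l < z := by
      rcases lz.lt_or_eq with h1 | h1
      · exact h1
      · subst h1; rw [t_low _ le_rfl] at k; omega
    rw [t_high s.pC lz] at k
    have hlR : l < R := by omega
    have hlmu : C l + 1 ≤ l := by
      rcases hl with h | h
      · omega
      · by_cases hle : l ≤ e
        · rw [q_low s.pC heR.le hle] at h; omega
        · rw [q_mid s.pC (by omega) (by omega)] at h; omega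
    by_cases c2 : C l + 2 ≤ C z
    · refine s.hPair l z s.cl s.cz ?_ ?_ ?_
      · rw [t_high s.pC lz]; omega
      · rw [t_low _ lz]; omega
      · rw [t_high s.pC hlR.le, t_low C h.le, t_low C (show e ≤ z by omega)]
        omega
    · have p : ¬ (C l + 1 ≤ q C e R l) := by
        rw [q_mid s.pC (by omega) (by omega)]; omega
      have k2 := hl.resolve_right p
      refine s.hPair l r s.cl s.cr ?_ ?_ ?_
      · rw [t_high s.pC (by omega)]; omega
      · rw [t_low _ (by omega)]; omega
      · rw [t_high s.pC hlR.le, t_low C (show e ≤ r by omega), t_low C (show R ≤ r by omega)]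
        omega
  · rw [t_low _ zr] at k
    have hzr : z < r := by omega
    have tre := t_low C (show e ≤ r by omega)
    have trR := t_low C (show R ≤ r by omega)
    have tze := t_low C (show e ≤ z by omega)
    have tzR := t_low C h.le
    by_cases m2 : C r + 2 ≤ C z + ((r:ℤ) - z)
    · refine s.hPair z r s.cz s.cr ?_ ?_ ?_
      · rw [t_high s.pC zr]; omega
      · rw [t_low _ zr]; omega
      · rw [tre, trR, tze, tzR]
        omega
    · refine s.hTri z r s.cz s.cr ?_ ?_ ?_ ?_
      · rw [t_low _ zr]; omega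
      · rw [t_high s.pC zr]; omega
      · rw [q_high s.pC heR.le (by omega)]; omega
      · rw [tre, trR, tze, tzR]
        omega

/-- all cases -/
lemma core (s : Core C e R l z r G) : G := by
  have heR := s.heR
  rcases lt_trichotomy z e with h | h | h
  · exact case1 s h
  · exact case2 s h
  rcases lt_trichotomy z R with k | k | k
  · have hq := s.hqz
    rw [q_mid s.pC h.le k.le] at hq
    have m1 := s.pC.mono h.le
    have m2 := s.pC.mono k.le
    by_cases hm : C z = C e + ((z:ℤ) - e)
    · exact case3 s h k hm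
    · exact case4 s h k (by omega) (by omega)
  · exact case5 s k
  · have hq := s.hqz
    rw [q_high s.pC heR.le k.le] at hq
    have m2 := s.pC.mono k.le
    exact case6 s k (by omega)

end

section
variable {A B C : ℕ → ℤ} {e R : ℕ}

lemma t_loses (s : DSit A B C e R) {x : ℕ} (c : Cor C x) : Loses A B (t C x) := by
  have h1 := t_low C (le_refl x)
  have h2 := s.hC x
  have h3 := s.pC.nonneg x
  exact ⟨t_path s.pC c, ⟨x, by omega⟩, ⟨x, by omega⟩⟩

lemma t_off (s : DSit A B C e R) {x : ℕ} (c : Cor C x) (h : ℕ) :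
    (h ≠ x → C h ≤ t C x h) ∧ (h = x → t C x h = C x - 1) :=
  ⟨fun hh => T_off s.pC c h hh, fun hh => by subst hh; exact T_at s.pC c⟩

lemma q_loses (s : DSit A B C e R) : Loses A B (q C e R) := by
  have h1 := q_low s.pC s.eR.le (le_refl e)
  have h2 := q_high s.pC s.eR.le (le_refl R)
  have h3 := s.hC e
  have h4 := s.hC R
  have h5 := s.Ae
  have h6 := s.BR
  have h7 := s.pC.nonneg e
  have h8 := s.pC.nonneg R
  refine ⟨inf_path (T_path e (C e) h7.1 h7.2) (T_path R (C R) h8.1 h8.2), ⟨e, by omega⟩,
    ⟨R, by omega⟩⟩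

lemma q_ge (s : DSit A B C e R) (h : ℕ) : C h ≤ q C e R h :=
  le_min (le_T s.pC e (C e) le_rfl h) (le_T s.pC R (C R) le_rfl h)

lemma t_mono (s : DSit A B C e R) {l z r h : ℕ} (h1 : l ≤ z) (h2 : z ≤ r) 
    (hh : C h + 1 ≤ t C z h) : C h + 1 ≤ t C l h ∨ C h + 1 ≤ t C r h := by
  have m1 := s.pC.mono h1
  have m2 := s.pC.mono h2
  rcases lt_trichotomy h z with k | k | k
  · right
    rw [t_low C k.le] at hh
    rw [t_low C (k.le.trans h2)]; omega
  · subst k; rw [t_low C le_rfl] at hh; omega
  · left
    rw [t_high s.pC k.le] at hh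
    rw [t_high s.pC (h1.trans k.le)]; omega

end

/-- The DS-lemma. -/
theorem ds : StmtDS := by
  intro A B C e R pA pB eA eB hC heR hAB hBA hAe hBR cAe cBR El Er Fl Fr K hK hcor hcl hom
  have s : DSit A B C e R := ⟨pA, pB, hC, heR, hAB, hBA, hAe, hBR, El, Er, Fl, Fr⟩
  have pC := s.pC
  have hPair : ∀ x y, Cor C x → Cor C y → C y + 1 ≤ t C x y → C x + 1 ≤ t C y x →
      2 * (C e + C R) + 2 ≤ t C x e + t C x R + (t C y e + t C y R) → Good A B := by
    intro x y cx cy h1 h2 h3
    refine crit2 s (t_loses s cx) (t_loses s cy) (fun h => ?_) (by omega)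
    have k1 := t_off s cx h
    have k2 := t_off s cy h
    have k3 : h = y → C y + 1 ≤ t C x h := fun k => by rw [k]; exact h1
    have k4 : h = x → C x + 1 ≤ t C y h := fun k => by rw [k]; exact h2
    have k5 : h = x → C h = C x := fun k => by rw [k]
    have k6 : h = y → C h = C y := fun k => by rw [k]
    omega
  have qe : q C e R e = C e := by
    rw [q_low pC heR.le le_rfl]; have := pC.nonneg e; omega
  have qR : q C e R R = C R := by
    rw [q_high pC heR.le le_rfl]; omega
  have hPi : ∀ x, Cor C x → C x + 1 ≤ q C e R x → C e + C R + 2 ≤ t C x e + t C x R →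
      Good A B := by
    intro x cx h1 h2
    refine crit2 s (t_loses s cx) (q_loses s) (fun h => ?_) (by omega)
    have k1 := t_off s cx h
    have k2 := q_ge s h
    have k4 : h = x → C x + 1 ≤ q C e R h := fun k => by rw [k]; exact h1
    have k5 : h = x → C h = C x := fun k => by rw [k]
    omega
  have hTri : ∀ x w, Cor C x → Cor C w → C x + 1 ≤ t C w x → C w ≤ t C x w →
      C w + 1 ≤ q C e R w →
      2 * (C e + C R) + 3 ≤ t C x e + t C x R + (t C w e + t C w R) → Good A B := by
    intro x w cx cw h1 h2 h3 h4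
    refine crit3 s (t_loses s cx) (t_loses s cw) (q_loses s) (fun h => ?_) (by omega)
    have k1 := t_off s cx h
    have k2 := t_off s cw h
    have k3 := q_ge s h
    have k4 : h = w → C w + 1 ≤ q C e R h := fun k => by rw [k]; exact h3
    have k5 : h = x → C h = C x := fun k => by rw [k]
    have k6 : h = w → C h = C w := fun k => by rw [k]
    have k7 : h = w → C w ≤ t C x h := fun k => by rw [k]; exact h2
    have k8 : h = x → C x + 1 ≤ t C w h := fun k => by rw [k]; exact h1
    omega
  have hmin := K.min'_mem hK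
  have hmax := K.max'_mem hK
  set l := K.min' hK with hl
  set r := K.max' hK with hr
  have hlz : ∀ z ∈ K, l ≤ z := fun z hz => K.min'_le z hz
  have hzr : ∀ z ∈ K, z ≤ r := fun z hz => K.le_max' z hz
  have hself : ∀ x : ℕ, ¬ (C x + 1 ≤ t C x x) := by
    intro x h; rw [t_low C le_rfl] at h; omega
  rcases hom with ⟨z, hz, ho⟩ | hom
  · by_cases hq : C z + 1 ≤ q C e R z
    · exact hPi z (hcor z hz) hq ho
    have hhelp : ∀ x ∈ K, (C x + 1 ≤ t C l x ∨ C x + 1 ≤ t C r x) ∨ C x + 1 ≤ q C e R x := by
      intro x hx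
      rcases hcl x hx with ⟨z', hz', h⟩ | h
      · exact Or.inl (t_mono s (hlz z' hz') (hzr z' hz') h)
      · exact Or.inr h
    have hmu : C e + 1 ≤ e := by
      have h1 := hC e; have h2 := pA.nonneg e; omega
    refine core (z := z) (l := l) (r := r) (C := C) (e := e) (R := R)
      ⟨pC, heR, hmu, hcor l hmin, hcor z hz, hcor r hmax, hlz z hz, hzr z hz, hPair, hPi, hTri,
        ?_, ?_, ?_, by omega, ho⟩
    · rcases hhelp l hmin with (h | h) | h
      · exact absurd h (hself l)
      · exact Or.inl h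
      · exact Or.inr h
    · rcases hhelp r hmax with (h | h) | h
      · exact Or.inl h
      · exact absurd h (hself r)
      · exact Or.inr h
    · rcases hhelp z hz with h | h
      · exact h
      · exact absurd h hq
  · have hhelp : ∀ x ∈ K, C x + 1 ≤ t C l x ∨ C x + 1 ≤ t C r x := by
      intro x hx
      obtain ⟨z', hz', h⟩ := (hom x hx).2
      exact t_mono s (hlz z' hz') (hzr z' hz') h
    have h1 := (hhelp l hmin).resolve_left (hself l)
    have h2 := (hhelp r hmax).resolve_right (hself r)
    refine hPair l r (hcor l hmin) (hcor r hmax) h2 h1 ?_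
    have h3 : C e + C R + 1 = t C l e + t C l R := (hom l hmin).1
    have h4 : C e + C R + 1 = t C r e + t C r R := (hom r hmax).1
    omega

end Pool.Agent.R90.W.DS

/-- The DS-lemma. -/
theorem Pool.Agent.R90.W.ds : Pool.Agent.R90.W.StmtDS := Pool.Agent.R90.W.DS.ds
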