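import Mathlib

set_option autoImplicit false
set_option linter.unusedSectionVars false
set_option linter.unusedVariables false

/-!
# Words model for complete simple games with two shift-minimal winning types

`A`, `B` are lattice paths (value `0` at `0`, steps `0` or `1`), eventually constant.  A path `L`
wins iff `A ≤ L` or `B ≤ L` pointwise.  `Tr A B k`: there is a trade of length `k`.
-/

namespace Pool.Agent.R90.W

open Finset

/-- lattice paths: start at 0, steps 0 or 1 -/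
structure IsPath (L : ℕ → ℤ) : Prop where
  zero : L 0 = 0
  step : ∀ h, L (h+1) = L h ∨ L (h+1) = L h + 1

/-- both inequalities between the values of a path at two places -/
lemma IsPath.mono {L : ℕ → ℤ} (p : IsPath L) {g h : ℕ} (hgh : g ≤ h) :
    L g ≤ L h ∧ L h ≤ L g + ((h:ℤ) - g) := by
  induction h, hgh using Nat.le_induction with
  | base => simp
  | succ n hn ih =>
    rcases p.step n with h | h
    · rw [h]; push_cast; omega
    · rw [h]; push_cast; omega

lemma IsPath.nonneg {L : ℕ → ℤ} (p : IsPath L) (h : ℕ) : 0 ≤ L h ∧ L h ≤ h := by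
  have := p.mono (Nat.zero_le h); rw [p.zero] at this; simpa using this

/-- the largest path with value at most `v` at `c` (used for `0 ≤ v ≤ c`) -/
def T (c : ℕ) (v : ℤ) (h : ℕ) : ℤ := if h ≤ c then min (h:ℤ) v else v + ((h:ℤ) - c)

lemma T_le (c : ℕ) (v : ℤ) (h : ℕ) (hh : h ≤ c) : T c v h = min (h:ℤ) v := by
  unfold T; rw [if_pos hh]

lemma T_ge (c : ℕ) (v : ℤ) (h : ℕ) (hh : c ≤ h) (hv : v ≤ c) : T c v h = v + ((h:ℤ) - c) := by
  unfold T; split_ifs with h1
  · have : h = c := le_antisymm h1 hh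
    subst this; simp [hv]
  · rfl

lemma T_path (c : ℕ) (v : ℤ) (h0 : 0 ≤ v) (h1 : v ≤ c) : IsPath (T c v) := by
  constructor
  · unfold T; simp [h0]
  · intro h; unfold T; split_ifs <;> push_cast <;> omega

lemma inf_path {f g : ℕ → ℤ} (hf : IsPath f) (hg : IsPath g) :
    IsPath (fun h => min (f h) (g h)) := by
  constructor
  · simp [hf.zero, hg.zero]
  · intro h
    show min (f (h+1)) (g (h+1)) = min (f h) (g h) ∨ min (f (h+1)) (g (h+1)) = min (f h) (g h) + 1
    rcases hf.step h with h1 | h1 <;> rcases hg.step h with h2 | h2 <;> rw [h1, h2] <;> omega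

/-- a path with value at most `v` at `c` is below `T c v` -/
lemma le_T {L : ℕ → ℤ} (p : IsPath L) (c : ℕ) (v : ℤ) (hv : L c ≤ v) (h : ℕ) : L h ≤ T c v h := by
  have h0 := p.nonneg h
  unfold T; split_ifs with h1
  · have := p.mono h1; omega
  · have := p.mono (show c ≤ h by omega); omega

/-- `c` is a corner of the path `W`: the step into `c` is `1`, the step out of `c` is `0` -/
structure Cor (W : ℕ → ℤ) (c : ℕ) : Prop where
  pos : 1 ≤ c
  lt : ∀ h, h < c → W h + 1 ≤ W c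
  gt : ∀ h, c < h → W h + 1 ≤ W c + ((h:ℤ) - c)

lemma cor_iff {W : ℕ → ℤ} (p : IsPath W) (c : ℕ) :
    Cor W c ↔ (1 ≤ c ∧ W c = W (c-1) + 1 ∧ W (c+1) = W c) := by
  constructor
  · intro k
    have h1 := k.lt (c-1) (by have := k.pos; omega)
    have h2 := k.gt (c+1) (by omega)
    have h3 := p.mono (show c - 1 ≤ c by omega)
    have h4 := p.mono (show c ≤ c + 1 by omega)
    have := k.pos
    refine ⟨k.pos, ?_, ?_⟩ <;> push_cast at * <;> omega
  · rintro ⟨h1, h2, h3⟩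
    refine ⟨h1, ?_, ?_⟩
    · intro h hh
      have := p.mono (show h ≤ c - 1 by omega); omega
    · intro h hh
      have := p.mono (show c + 1 ≤ h by omega); push_cast at *; omega

/-- eventually constant -/
def EvC (W : ℕ → ℤ) : Prop := ∃ n, ∀ h, n ≤ h → W h = W n

/-- the end of the run of `1`-steps starting at `h` -/
lemma run_up {W : ℕ → ℤ} (p : IsPath W) (e : EvC W) (h : ℕ) :
    ∃ c, h ≤ c ∧ W c = W h + ((c:ℤ) - h) ∧ W (c+1) = W c := by
  obtain ⟨n, hn⟩ := e
  by_contra hcon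
  push Not at hcon
  have key : ∀ k : ℕ, W (h + k) = W h + k := by
    intro k; induction k with
    | zero => simp
    | succ k ih =>
      have h1 := hcon (h + k) (by omega) (by rw [ih]; push_cast; ring)
      rcases p.step (h+k) with h2 | h2
      · exact absurd h2 h1
      · rw [show h + (k+1) = h + k + 1 by ring, h2, ih]; push_cast; ring
  have h1 := key n
  have h2 := key (n+1)
  have h3 := hn (h+n) (by omega)
  have h4 := hn (h+(n+1)) (by omega)
  push_cast at h2; omega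

/-- the last `1`-step before `h` -/
lemma run_down {W : ℕ → ℤ} (p : IsPath W) (h : ℕ) (g : ℕ) (hgh : g ≤ h) (hW : W g < W h) :
    ∃ c, g < c ∧ c ≤ h ∧ W c = W h ∧ W c = W (c-1) + 1 := by
  induction h, hgh using Nat.le_induction with
  | base => omega
  | succ n hn ih =>
    rcases p.step n with h1 | h1
    · obtain ⟨c, h2, h3, h4, h5⟩ := ih (by omega)
      exact ⟨c, h2, by omega, by omega, h5⟩
    · exact ⟨n+1, by omega, le_refl _, rfl, by simpa using h1⟩

/-- from any place with `W h ≥ 1` one reaches a corner by going down to the last `1`-step, or by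
following the run of `1`-steps. In both cases `L - W` does not increase, for every path `L`. -/
lemma exists_cor {W : ℕ → ℤ} (p : IsPath W) (e : EvC W) (h : ℕ) (g : ℕ) (hg : g ≤ h) (hW : W g < W h) :
    ∃ c, g < c ∧ Cor W c ∧ ((c ≤ h ∧ W c = W h) ∨ (h ≤ c ∧ W c = W h + ((c:ℤ) - h))) := by
  obtain ⟨c, h1, h2, h3⟩ := run_up p e h
  obtain ⟨d, k1, k2, k3, k4⟩ := run_down p h g hg hW
  by_cases hc : W (h+1) = W h
  · refine ⟨d, k1, (cor_iff p d).2 ⟨by omega, k4, ?_⟩, Or.inl ⟨k2, k3⟩⟩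
    have h5 := p.mono (show d ≤ d+1 by omega)
    have h6 := p.mono (show d + 1 ≤ h + 1 by omega)
    omega
  · have hc1 : W (h+1) = W h + 1 := by
      rcases p.step h with h5 | h5
      · exact absurd h5 hc
      · exact h5
    have hne : c ≠ h := by rintro rfl; exact hc h3
    have h5 := p.mono (show h ≤ c - 1 by omega)
    have h6 := p.mono (show c - 1 ≤ c by omega)
    refine ⟨c, by omega, (cor_iff p c).2 ⟨by omega, ?_, h3⟩, Or.inr ⟨h1, h2⟩⟩
    omega

/-- losing paths -/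
def Loses (A B L : ℕ → ℤ) : Prop := IsPath L ∧ (∃ h, L h < A h) ∧ (∃ h, L h < B h)

/-- a trade with `k` losing paths -/
def Tr (A B : ℕ → ℤ) (k : ℕ) : Prop :=
  ∃ (L : Fin k → ℕ → ℤ) (a b : ℕ), a + b = k ∧ (∀ i, Loses A B (L i)) ∧
    ∀ h, (a:ℤ) * A h + (b:ℤ) * B h ≤ ∑ i, L i h

/-- there is a trade of length 2 or 3 -/
def Good (A B : ℕ → ℤ) : Prop := Tr A B 2 ∨ Tr A B 3

lemma good2 {A B : ℕ → ℤ} {L1 L2 W1 W2 : ℕ → ℤ} (l1 : Loses A B L1) (l2 : Loses A B L2)
    (w1 : W1 = A ∨ W1 = B) (w2 : W2 = A ∨ W2 = B) (hle : ∀ h, W1 h + W2 h ≤ L1 h + L2 h) :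
    Good A B := by
  left
  have key : ∀ a b : ℕ, a + b = 2 → (∀ h, (a:ℤ) * A h + (b:ℤ) * B h ≤ L1 h + L2 h) → Tr A B 2 := by
    intro a b hab hh
    refine ⟨![L1, L2], a, b, hab, ?_, ?_⟩
    · intro i; fin_cases i
      · exact l1
      · exact l2
    · intro h; rw [Fin.sum_univ_two]; exact hh h
  rcases w1 with rfl | rfl <;> rcases w2 with rfl | rfl
  · exact key 2 0 rfl (fun h => by have := hle h; push_cast; linarith)
  · exact key 1 1 rfl (fun h => by have := hle h; push_cast; linarith)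
  · exact key 1 1 rfl (fun h => by have := hle h; push_cast; linarith)
  · exact key 0 2 rfl (fun h => by have := hle h; push_cast; linarith)

lemma good3 {A B : ℕ → ℤ} {L1 L2 L3 W1 W2 W3 : ℕ → ℤ} (l1 : Loses A B L1) (l2 : Loses A B L2)
    (l3 : Loses A B L3)
    (w1 : W1 = A ∨ W1 = B) (w2 : W2 = A ∨ W2 = B) (w3 : W3 = A ∨ W3 = B)
    (hle : ∀ h, W1 h + W2 h + W3 h ≤ L1 h + L2 h + L3 h) :
    Good A B := by
  right
  have key : ∀ a b : ℕ, a + b = 3 → (∀ h, (a:ℤ) * A h + (b:ℤ) * B h ≤ L1 h + L2 h + L3 h) →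
      Tr A B 3 := by
    intro a b hab hh
    refine ⟨![L1, L2, L3], a, b, hab, ?_, ?_⟩
    · intro i; fin_cases i
      · exact l1
      · exact l2
      · exact l3
    · intro h; rw [Fin.sum_univ_three]; exact hh h
  rcases w1 with rfl | rfl <;> rcases w2 with rfl | rfl <;> rcases w3 with rfl | rfl
  · exact key 3 0 rfl (fun h => by have := hle h; push_cast; linarith)
  · exact key 2 1 rfl (fun h => by have := hle h; push_cast; linarith)
  · exact key 2 1 rfl (fun h => by have := hle h; push_cast; linarith)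
  · exact key 1 2 rfl (fun h => by have := hle h; push_cast; linarith)
  · exact key 2 1 rfl (fun h => by have := hle h; push_cast; linarith)
  · exact key 1 2 rfl (fun h => by have := hle h; push_cast; linarith)
  · exact key 1 2 rfl (fun h => by have := hle h; push_cast; linarith)
  · exact key 0 3 rfl (fun h => by have := hle h; push_cast; linarith)

/-- `(L, W, c)` is a nice pair: `L` is losing, `W` is `A` or `B`, `L ≥ W` off `c` and
`L c ≥ W c - 1`. -/
structure Nice (A B L W : ℕ → ℤ) (c : ℕ) : Prop where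
  los : Loses A B L
  hW : W = A ∨ W = B
  off : ∀ h, h ≠ c → W h ≤ L h
  at_ : W c - 1 ≤ L c

/-- helping 2-cycle of nice pairs -/
lemma mk2 {A B L1 W1 L2 W2 : ℕ → ℤ} {c1 c2 : ℕ} (n1 : Nice A B L1 W1 c1) (n2 : Nice A B L2 W2 c2)
    (h12 : W1 c2 + 1 ≤ L1 c2) (h21 : W2 c1 + 1 ≤ L2 c1) : Good A B := by
  refine good2 n1.los n2.los n1.hW n2.hW ?_
  intro h
  have a1 := n1.off h; have a2 := n2.off h; have b1 := n1.at_; have b2 := n2.at_
  by_cases e1 : h = c1
  · by_cases e2 : h = c2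
    · subst e1; subst e2; omega
    · subst e1; have := a2 e2; omega
  · by_cases e2 : h = c2
    · subst e2; have := a1 e1; omega
    · have := a1 e1; have := a2 e2; omega

/-- helping 3-cycle of nice pairs (`1` helps `c2`, `2` helps `c3`, `3` helps `c1`) -/
lemma mk3 {A B L1 W1 L2 W2 L3 W3 : ℕ → ℤ} {c1 c2 c3 : ℕ} (n1 : Nice A B L1 W1 c1)
    (n2 : Nice A B L2 W2 c2) (n3 : Nice A B L3 W3 c3) 
    (h12 : W1 c2 + 1 ≤ L1 c2) (h23 : W2 c3 + 1 ≤ L2 c3) (h31 : W3 c1 + 1 ≤ L3 c1) : Good A B := by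
  by_cases e13 : c1 = c3
  · subst e13; exact mk2 n1 n2 h12 h23
  by_cases e12 : c1 = c2
  · subst e12; have := n1.at_; exact mk2 n2 n3 h23 h31
  by_cases e23 : c2 = c3
  · subst e23; exact mk2 n1 n3 h12 h31
  refine good3 n1.los n2.los n3.los n1.hW n2.hW n3.hW ?_
  intro h
  have a1 := n1.off h; have a2 := n2.off h; have a3 := n3.off h
  have b1 := n1.at_; have b2 := n2.at_; have b3 := n3.at_
  by_cases e1 : h = c1
  · subst e1; have := a2 e12; have := a3 e13; omega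
  · by_cases e2 : h = c2
    · subst e2; have := a1 e1; have := a3 e23; omega
    · by_cases e3 : h = c3
      · subst e3; have := a1 e1; have := a2 e2; omega
      · have := a1 e1; have := a2 e2; have := a3 e3; omega

/-- the situation: `B ≤ A + 1`, the set `F = {A < B}` is dominated by the `B`-corner `R ∈ F`
(below `R` the path `B` has only `1`-steps between a point of `F` and `R`, above `R` only
`0`-steps), and `E = {B < A}` is nonempty. -/
structure Sit (A B : ℕ → ℤ) (R : ℕ) : Prop where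
  pA : IsPath A
  pB : IsPath B
  eA : EvC A
  eB : EvC B
  le : ∀ h, B h ≤ A h + 1
  hR : B R = A R + 1
  corR : Cor B R
  Fl : ∀ h, h < R → A h < B h → B R = B h + ((R:ℤ) - h)
  Fr : ∀ h, R < h → A h < B h → B h = B R
  hE : ∃ h, B h < A h

/-- the vector `P_x` (for `x ∉ F` an `A`-corner): loses against `A` at `x`, against `B` at `R` -/
def P (A : ℕ → ℤ) (R x : ℕ) (h : ℕ) : ℤ := min (T x (A x - 1) h) (T R (A R) h)

/-- the vector `S_y` (for `y ∉ F` a `B`-corner): loses against `A` and `B` at `y` -/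
def S (B : ℕ → ℤ) (y : ℕ) (h : ℕ) : ℤ := T y (B y - 1) h

section nice
variable {A B : ℕ → ℤ} {R : ℕ}

lemma Sit.A_pos (s : Sit A B R) {x : ℕ} (c : Cor A x) : 1 ≤ A x ∧ A x ≤ x := by
  have := c.lt 0 c.pos; rw [s.pA.zero] at this; have := s.pA.nonneg x; omega

lemma Sit.B_pos (s : Sit A B R) {x : ℕ} (c : Cor B x) : 1 ≤ B x ∧ B x ≤ x := by
  have := c.lt 0 c.pos; rw [s.pB.zero] at this; have := s.pB.nonneg x; omega

/-- outside its corner, `T x (A x - 1)` is at least `A` -/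
lemma T_off {W : ℕ → ℤ} (p : IsPath W) {x : ℕ} (c : Cor W x) (h : ℕ) (hx : h ≠ x) :
    W h ≤ T x (W x - 1) h := by
  have h0 := p.nonneg h
  unfold T; split_ifs with h1
  · have := c.lt h (by omega); omega
  · have := c.gt h (by omega); omega

lemma T_at {W : ℕ → ℤ} (p : IsPath W) {x : ℕ} (c : Cor W x) : T x (W x - 1) x = W x - 1 := by
  have := p.nonneg x; unfold T; simp; omega

lemma TR_ge (s : Sit A B R) (h : ℕ) : A h ≤ T R (A R) h := le_T s.pA R (A R) le_rfl h

/-- `T R (A R)` is at least `B` off `R` -/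
lemma TR_geB (s : Sit A B R) (h : ℕ) (hh : h ≠ R) : B h ≤ T R (A R) h := by
  have := T_off s.pB s.corR h hh
  rw [show B R - 1 = A R by have := s.hR; omega] at this; exact this

lemma P_path (s : Sit A B R) {x : ℕ} (c : Cor A x) : IsPath (P A R x) := by
  have h1 := s.A_pos c
  have h2 := s.pA.nonneg R
  exact inf_path (T_path x (A x - 1) (by omega) (by omega)) (T_path R (A R) (by omega) (by omega))

/-- `P_x` is losing for every `A`-corner `x` -/
lemma P_loses (s : Sit A B R) {x : ℕ} (c : Cor A x) : Loses A B (P A R x) := by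
  refine ⟨P_path s c, ⟨x, ?_⟩, ⟨R, ?_⟩⟩
  · unfold P; rw [T_at s.pA c]; have := min_le_left (A x - 1) (T R (A R) x); omega
  · unfold P; rw [T_ge R (A R) R le_rfl (s.pA.nonneg R).2]
    have := min_le_right (T x (A x - 1) R) (A R + ((R:ℤ) - R)); have := s.hR; omega

/-- `(P_x, A, x)` is a nice pair -/
lemma P_niceA (s : Sit A B R) {x : ℕ} (c : Cor A x) : Nice A B (P A R x) A x := by
  refine ⟨P_loses s c, Or.inl rfl, ?_, ?_⟩
  · intro h hh; exact le_min (T_off s.pA c h hh) (TR_ge s h)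
  · refine le_min ?_ ?_
    · rw [T_at s.pA c]
    · have := TR_ge s x; omega

/-- `(P_e, B, R)` is a nice pair for `e ∈ E` -/
lemma P_niceB (s : Sit A B R) {e : ℕ} (c : Cor A e) (he : B e < A e) : Nice A B (P A R e) B R := by
  have h0 : ∀ h, B h ≤ T e (A e - 1) h := fun h => le_T s.pB e (A e - 1) (by omega) h
  refine ⟨P_loses s c, Or.inr rfl, ?_, ?_⟩
  · intro h hh; exact le_min (h0 h) (TR_geB s h hh)
  · refine le_min ?_ ?_
    · have := h0 R; omega
    · have := TR_ge s R; have := s.hR; omega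

/-- `S_y` is losing for a `B`-corner `y ∉ F` -/
lemma S_loses (s : Sit A B R) {y : ℕ} (c : Cor B y) (hy : B y ≤ A y) : Loses A B (S B y) := by
  have h1 := s.B_pos c
  refine ⟨T_path y (B y - 1) (by omega) (by omega), ⟨y, ?_⟩, ⟨y, ?_⟩⟩
  · unfold S; rw [T_at s.pB c]; omega
  · unfold S; rw [T_at s.pB c]; omega

/-- `(S_y, B, y)` is a nice pair for a `B`-corner `y ∉ F` -/
lemma S_nice (s : Sit A B R) {y : ℕ} (c : Cor B y) (hy : B y ≤ A y) : Nice A B (S B y) B y := by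
  refine ⟨S_loses s c hy, Or.inr rfl, fun h hh => T_off s.pB c h hh, ?_⟩
  unfold S; rw [T_at s.pB c]

/-- for an `A`-corner `z` with `A z = B z`, `(T z (A z - 1), A, z)` is a nice pair -/
lemma TA_nice (s : Sit A B R) {z : ℕ} (c : Cor A z) (hz : A z ≤ B z) :
    Nice A B (T z (A z - 1)) A z := by
  have h1 := s.A_pos c
  refine ⟨⟨T_path z (A z - 1) (by omega) (by omega), ⟨z, ?_⟩, ⟨z, ?_⟩⟩, Or.inl rfl,
    fun h hh => T_off s.pA c h hh, ?_⟩
  · rw [T_at s.pA c]; omega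
  · rw [T_at s.pA c]; omega
  · rw [T_at s.pA c]

end nice

/-- `h` is helped by a used vector -/
def Hlp (A B : ℕ → ℤ) (R : ℕ) (X Y : Finset ℕ) (h : ℕ) : Prop :=
  (∃ x ∈ X, A h + 1 ≤ P A R x h) ∨ (∃ y ∈ Y, B h + 1 ≤ S B y h)

/-- the vector used for `x ∈ X`: `T x (A x - 1)` if `A x = B x`, otherwise `P_x` -/
noncomputable def PV (A B : ℕ → ℤ) (R x : ℕ) (h : ℕ) : ℤ :=
  if A x = B x then T x (A x - 1) h else P A R x h

/-- The N-lemma. `fl`: the flag that a nice pair with corner `R` may be used for helping; in that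
case some used vector helps `R`. -/
def StmtN : Prop :=
  ∀ (A B : ℕ → ℤ) (R : ℕ), Sit A B R →
  (∀ h, B h < A h → ∃ e, Cor A e ∧ B e < A e ∧ (e ≠ h ∨ B h + 2 ≤ A h)) →
  ∀ (X Y : Finset ℕ), (∀ x ∈ X, Cor A x ∧ B x ≤ A x) → (∀ y ∈ Y, Cor B y ∧ B y ≤ A y) →
  (X ∪ Y).Nonempty →
  ∀ fl : Prop, (fl → (∃ z ∈ X, A z = B z ∧ A R + 1 ≤ T z (A z - 1) R) ∨
      (∃ y ∈ Y, B R + 1 ≤ S B y R) ∨ (∃ z ∈ Y, A z = B z ∧ Cor A z ∧ A R + 1 ≤ T z (A z - 1) R)) →
  (∀ c ∈ X ∪ Y, (∃ x ∈ X, A c + 1 ≤ PV A B R x c) ∨ (∃ y ∈ Y, B c + 1 ≤ S B y c) ∨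
      (fl ∧ ∃ L W, Nice A B L W R ∧ W c + 1 ≤ L c)) →
  Good A B

/-- The D'-lemma, right case: all `y ∈ Y` are to the right of `R`. -/
def StmtDR : Prop :=
  ∀ (A B : ℕ → ℤ) (R : ℕ), Sit A B R → Cor A R →
  ∀ (X Y : Finset ℕ), (∀ x ∈ X, Cor A x ∧ B x ≤ A x) →
  (∀ x ∈ X, A x = B x → T x (A x - 1) R ≤ A R) →
  (∀ y ∈ Y, Cor B y ∧ B y ≤ A y ∧ S B y R = B R ∧ R < y) →
  (∀ y ∈ Y, A y = B y → ¬ Cor A y) → Y.Nonempty →
  (∀ h, B h ≤ A h → T R (A R - 1) h + B h < 2 * A h → Hlp A B R X Y h) →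
  (∀ c ∈ X ∪ Y, 2 * A c + 1 ≤ T R (A R - 1) c + B c ∨ Hlp A B R X Y c) →
  Good A B

/-- The D'-lemma, left case: `Y = {y}` with `y < R`. -/
def StmtDL : Prop :=
  ∀ (A B : ℕ → ℤ) (R : ℕ), Sit A B R → Cor A R →
  ∀ (X : Finset ℕ) (y : ℕ), (∀ x ∈ X, Cor A x ∧ B x ≤ A x) →
  (∀ x ∈ X, A x = B x → T x (A x - 1) R ≤ A R) →
  Cor B y → B y ≤ A y → S B y R = B R → y < R →
  (A y = B y → ¬ Cor A y) →
  (∀ h, B h ≤ A h → T R (A R - 1) h + B h < 2 * A h → Hlp A B R X {y} h) →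
  (∀ c ∈ insert y X, 2 * A c + 1 ≤ T R (A R - 1) c + B c ∨ Hlp A B R X {y} c) →
  Good A B

/-- The DS-lemma: `|A - B| ≤ 1`, `E` is dominated by the `A`-corner `e`, `F` by the `B`-corner `R`,
`e < R`. `C` is the minimum of `A` and `B`. `K` is a set of `C`-corners closed under help. -/
def StmtDS : Prop :=
  ∀ (A B C : ℕ → ℤ) (e R : ℕ), IsPath A → IsPath B → EvC A → EvC B →
  (∀ h, C h = min (A h) (B h)) → e < R →
  (∀ h, A h ≤ B h + 1) → (∀ h, B h ≤ A h + 1) → A e = B e + 1 → B R = A R + 1 →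
  Cor A e → Cor B R →
  (∀ h, h < e → B h < A h → A e = A h + ((e:ℤ) - h)) → (∀ h, e < h → B h < A h → A h = A e) →
  (∀ h, h < R → A h < B h → B R = B h + ((R:ℤ) - h)) → (∀ h, R < h → A h < B h → B h = B R) →
  ∀ (K : Finset ℕ), K.Nonempty → (∀ z ∈ K, Cor C z) →
  (∀ z ∈ K, (∃ z' ∈ K, C z + 1 ≤ T z' (C z' - 1) z) ∨
     C z + 1 ≤ min (T e (C e) z) (T R (C R) z)) →
  ((∃ z ∈ K, C e + C R + 2 ≤ T z (C z - 1) e + T z (C z - 1) R) ∨
   (∀ z ∈ K, C e + C R + 1 = T z (C z - 1) e + T z (C z - 1) R ∧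
      ∃ z' ∈ K, C z + 1 ≤ T z' (C z' - 1) z)) →
  Good A B

end Pool.Agent.R90.W
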