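import Pool.Agent.R90.W.Pth

set_option autoImplicit false
set_option linter.unusedSectionVars false

/-!
# Trades up to domination are trades
-/

namespace Pool.Agent.R90.W

open Finset Pool.Agent.R90.Games

variable {N : Type} [Fintype N] [DecidableEq N] {G : SimpleGame N} {idx : N → ℕ} {n : ℕ}

lemma sum_update' {k : ℕ} (X : Fin k → Finset N) (i : Fin k) (S : Finset N) (g : ℕ) :
    ∑ j, pth idx (Function.update X i S j) g =
      ∑ j, pth idx (X j) g + (pth idx S g - pth idx (X i) g) := by
  have h1 : ∀ j, pth idx (Function.update X i S j) g =
      pth idx (X j) g + (if j = i then (pth idx S g - pth idx (X i) g) else 0) := by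
    intro j
    by_cases h : j = i
    · subst h; rw [Function.update_self, if_pos rfl]; ring
    · rw [Function.update_of_ne h, if_neg h]; ring
  rw [sum_congr rfl (fun j _ => h1 j), sum_add_distrib]
  simp

lemma sum_pth_step (e : Enum G idx n) {k : ℕ} (X : Fin k → Finset N) (p : N) :
    ∑ j, pth idx (X j) (idx p + 1) = ∑ j, pth idx (X j) (idx p) +
      ((univ.filter fun j => p ∈ X j).card : ℤ) := by
  rw [sum_congr rfl (fun j _ => pth_step e (X j) p), sum_add_distrib]
  congr 1
  simp

/-- if the losing coalitions dominate the winning ones, there is a trade of the same length -/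
theorem dom_trade (e : Enum G idx n) {k : ℕ} (m : ℕ) : ∀ (X Y : Fin k → Finset N),
    (∀ i, G.Win (X i)) → (∀ i, ¬ G.Win (Y i)) →
    (∀ g, ∑ i, pth idx (X i) g ≤ ∑ i, pth idx (Y i) g) →
    (∑ g ∈ range (n+1), (∑ i, pth idx (Y i) g - ∑ i, pth idx (X i) g) ≤ m) →
    ∃ X' Y' : Fin k → Finset N, (∀ i, G.Win (X' i)) ∧ (∀ i, ¬ G.Win (Y' i)) ∧ Trade X' Y' := by
  induction m with
  | zero =>
    intro X Y hX hY hle hm
    refine ⟨X, Y, hX, hY, ?_⟩
    have h0 : ∀ g, g ≤ n → ∑ i, pth idx (Y i) g = ∑ i, pth idx (X i) g := by
      intro g hg
      have h1 : ∑ g ∈ range (n+1), (∑ i, pth idx (Y i) g - ∑ i, pth idx (X i) g) = 0 := by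
        apply le_antisymm (by simpa using hm)
        exact sum_nonneg (fun g _ => by have := hle g; omega)
      have h2 := (sum_eq_zero_iff_of_nonneg (fun g _ => by have := hle g; omega)).1 h1 g
        (mem_range.2 (by omega))
      omega
    intro p
    have h1 := sum_pth_step e X p
    have h2 := sum_pth_step e Y p
    have h3 := e.lt p
    rw [h0 _ (by omega), h0 _ (by omega)] at h2
    rw [h1] at h2
    omega
  | succ m ih =>
    intro X Y hX hY hle hm
    by_cases hall : ∀ g, g ≤ n → ∑ i, pth idx (Y i) g = ∑ i, pth idx (X i) g
    · refine ih X Y hX hY hle ?_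
      have : ∑ g ∈ range (n+1), (∑ i, pth idx (Y i) g - ∑ i, pth idx (X i) g) = 0 := by
        apply sum_eq_zero
        intro g hg
        rw [mem_range] at hg
        rw [hall g (by omega)]; ring
      rw [this]; positivity
    push Not at hall
    -- the first place with excess
    have hex : ∃ g, ∑ i, pth idx (X i) g < ∑ i, pth idx (Y i) g ∧ g ≤ n := by
      obtain ⟨g, h1, h2⟩ := hall
      exact ⟨g, by have := hle g; omega, h1⟩
    classical
    obtain ⟨⟨h1, hn⟩, hfirst⟩ : (∑ i, pth idx (X i) (Nat.find hex) <
        ∑ i, pth idx (Y i) (Nat.find hex) ∧ Nat.find hex ≤ n) ∧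
        ∀ g, g < Nat.find hex → ¬ (∑ i, pth idx (X i) g < ∑ i, pth idx (Y i) g ∧ g ≤ n) :=
      ⟨Nat.find_spec hex, fun g hg => Nat.find_min hex hg⟩
    set h := Nat.find hex with hh
    have hpos : 0 < h := by
      rcases Nat.eq_zero_or_pos h with h0 | h0
      · exfalso
        rw [h0] at h1
        have a1 : ∀ S : Finset N, pth idx S 0 = 0 := fun S => (pth_path e S).zero
        simp [a1] at h1
      · exact h0
    obtain ⟨p, hp⟩ := e.surj (h - 1) (by omega)
    have hp1 : idx p + 1 = h := by omega
    have hpX := sum_pth_step e X p
    have hpY := sum_pth_step e Y p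
    rw [hp1] at hpX hpY
    have hbefore : ∑ i, pth idx (Y i) (idx p) = ∑ i, pth idx (X i) (idx p) := by
      have a1 := hfirst (idx p) (by omega)
      have a2 := hle (idx p)
      by_contra hne
      exact a1 ⟨by omega, by omega⟩
    -- total is at least one at places in an interval
    by_cases hret : ∃ g, h ≤ g ∧ ∑ i, pth idx (Y i) g = ∑ i, pth idx (X i) g
    · obtain ⟨⟨g1h, g1e⟩, hmin⟩ : (h ≤ Nat.find hret ∧ ∑ i, pth idx (Y i) (Nat.find hret) =
          ∑ i, pth idx (X i) (Nat.find hret)) ∧
          ∀ g, g < Nat.find hret → ¬ (h ≤ g ∧ ∑ i, pth idx (Y i) g = ∑ i, pth idx (X i) g) :=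
        ⟨Nat.find_spec hret, fun g hg => Nat.find_min hret hg⟩
      set g1 := Nat.find hret with hg1
      have hlt : h < g1 := by
        rcases Nat.lt_or_ge h g1 with a | a
        · exact a
        · exfalso
          have : g1 = h := by omega
          rw [this] at g1e; omega
      have hg1n : g1 ≤ n := by
        by_contra hcon
        have a1 := hmin n (by omega)
        apply a1
        refine ⟨hn, ?_⟩
        have b1 : ∀ S : Finset N, pth idx S g1 = pth idx S n := fun S => pth_const e S g1 (by omega)
        simpa [b1] using g1e
      obtain ⟨q, hq⟩ := e.surj (g1 - 1) (by omega)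
      have hq1 : idx q + 1 = g1 := by omega
      have hqX := sum_pth_step e X q
      have hqY := sum_pth_step e Y q
      rw [hq1] at hqX hqY
      have hprev : ∑ i, pth idx (X i) (idx q) < ∑ i, pth idx (Y i) (idx q) := by
        have a1 := hmin (idx q) (by omega)
        have a2 := hle (idx q)
        by_contra hne
        exact a1 ⟨by omega, by omega⟩
      have hpq : idx p < idx q := by omega
      have hexc : ∀ g, idx p < g → g ≤ idx q →
          ∑ i, pth idx (X i) g + 1 ≤ ∑ i, pth idx (Y i) g := by
        intro g a b
        have a1 := hmin g (by omega)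
        have a2 := hle g
        by_contra hne
        exact a1 ⟨by omega, by omega⟩
      have hsumle : ∑ g ∈ range (n+1), (if idx p < g ∧ g ≤ idx q then (1:ℤ) else 0) ≥ 1 := by
        have := single_le_sum (f := fun g => if idx p < g ∧ g ≤ idx q then (1:ℤ) else 0)
          (fun g _ => by positivity) (mem_range.2 (show idx q < n + 1 by have := e.lt q; omega))
        rw [if_pos ⟨hpq, le_rfl⟩] at this
        exact this
      by_cases hcase : (∃ i, p ∈ Y i ∧ q ∉ Y i)
      · obtain ⟨i, hpi, hqi⟩ := hcase
        have hsum : ∀ g, ∑ j, pth idx (Function.update Y i (insert q ((Y i).erase p)) j) g =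
            ∑ j, pth idx (Y j) g - (if idx p < g ∧ g ≤ idx q then 1 else 0) := by
          intro g
          rw [sum_update', pth_swap idx _ p q hpi hqi hpq]; ring
        refine ih X (Function.update Y i (insert q ((Y i).erase p))) hX ?_ ?_ ?_
        · intro j
          by_cases hj : j = i
          · subst hj
            rw [Function.update_self]
            intro hw
            have := e.des p q hpq ((Y j).erase p) (notMem_erase _ _) (by simp [hqi]) hw
            rw [insert_erase hpi] at this
            exact hY j this
          · rw [Function.update_of_ne hj]; exact hY j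
        · intro g
          rw [hsum]
          split_ifs with hg
          · have := hexc g hg.1 hg.2; omega
          · have := hle g; omega
        · have : ∑ g ∈ range (n+1), (∑ j, pth idx (Function.update Y i
              (insert q ((Y i).erase p)) j) g - ∑ j, pth idx (X j) g) =
              ∑ g ∈ range (n+1), (∑ j, pth idx (Y j) g - ∑ j, pth idx (X j) g) -
              ∑ g ∈ range (n+1), (if idx p < g ∧ g ≤ idx q then (1:ℤ) else 0) := by
            rw [← sum_sub_distrib]
            exact sum_congr rfl (fun g _ => by rw [hsum]; ring)
          rw [this]; push_cast at hm ⊢; linarith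
      · by_cases hcase2 : (∃ i, p ∉ X i ∧ q ∈ X i)
        · obtain ⟨i, hpi, hqi⟩ := hcase2
          have hsum : ∀ g, ∑ j, pth idx (Function.update X i (insert p ((X i).erase q)) j) g =
              ∑ j, pth idx (X j) g + (if idx p < g ∧ g ≤ idx q then 1 else 0) := by
            intro g
            rw [sum_update', pth_swap' idx _ p q hpi hqi hpq]; ring
          refine ih (Function.update X i (insert p ((X i).erase q))) Y ?_ hY ?_ ?_
          · intro j
            by_cases hj : j = i
            · subst hj
              rw [Function.update_self]
              apply e.des p q hpq ((X j).erase q) (by simp [hpi]) (notMem_erase _ _)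
              rw [insert_erase hqi]; exact hX j
            · rw [Function.update_of_ne hj]; exact hX j
          · intro g
            rw [hsum]
            split_ifs with hg
            · have := hexc g hg.1 hg.2; omega
            · have := hle g; omega
          · have : ∑ g ∈ range (n+1), (∑ j, pth idx (Y j) g - ∑ j, pth idx (Function.update X i
                (insert p ((X i).erase q)) j) g) =
                ∑ g ∈ range (n+1), (∑ j, pth idx (Y j) g - ∑ j, pth idx (X j) g) -
                ∑ g ∈ range (n+1), (if idx p < g ∧ g ≤ idx q then (1:ℤ) else 0) := by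
              rw [← sum_sub_distrib]
              exact sum_congr rfl (fun g _ => by rw [hsum]; ring)
            rw [this]; push_cast at hm ⊢; linarith
        · exfalso
          push Not at hcase hcase2
          have c1 : (univ.filter fun j => p ∈ Y j).card ≤ (univ.filter fun j => q ∈ Y j).card := by
            apply card_le_card
            intro j hj
            rw [mem_filter] at hj ⊢
            exact ⟨mem_univ _, hcase j hj.2⟩
          have c2 : (univ.filter fun j => q ∈ X j).card ≤ (univ.filter fun j => p ∈ X j).card := by
            apply card_le_card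
            intro j hj
            rw [mem_filter] at hj ⊢
            refine ⟨mem_univ _, ?_⟩
            by_contra hpj
            exact hcase2 j hpj hj.2
          omega
    · push Not at hret
      have hexc : ∀ g, idx p < g → ∑ i, pth idx (X i) g + 1 ≤ ∑ i, pth idx (Y i) g := by
        intro g a
        have a1 := hret g (by omega)
        have a2 := hle g
        omega
      -- some Y contains p
      have hcard : 0 < (univ.filter fun j => p ∈ Y j).card := by omega
      obtain ⟨i, hi⟩ := card_pos.1 hcard
      rw [mem_filter] at hi
      have hpi := hi.2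
      have hsum : ∀ g, ∑ j, pth idx (Function.update Y i ((Y i).erase p) j) g =
          ∑ j, pth idx (Y j) g - (if idx p < g then 1 else 0) := by
        intro g
        rw [sum_update', pth_erase idx _ p hpi]; ring
      refine ih X (Function.update Y i ((Y i).erase p)) hX ?_ ?_ ?_
      · intro j
        by_cases hj : j = i
        · subst hj
          rw [Function.update_self]
          intro hw
          exact hY j (G.mono _ _ (erase_subset _ _) hw)
        · rw [Function.update_of_ne hj]; exact hY j
      · intro g
        rw [hsum]
        split_ifs with hg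
        · have := hexc g hg; omega
        · have := hle g; omega
      · have h3 : ∑ g ∈ range (n+1), (∑ j, pth idx (Function.update Y i
            ((Y i).erase p) j) g - ∑ j, pth idx (X j) g) =
            ∑ g ∈ range (n+1), (∑ j, pth idx (Y j) g - ∑ j, pth idx (X j) g) -
            ∑ g ∈ range (n+1), (if idx p < g then (1:ℤ) else 0) := by
          rw [← sum_sub_distrib]
          exact sum_congr rfl (fun g _ => by rw [hsum]; ring)
        have h4 : ∑ g ∈ range (n+1), (if idx p < g then (1:ℤ) else 0) ≥ 1 := by
          have := single_le_sum (f := fun g => if idx p < g then (1:ℤ) else 0)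
            (fun g _ => by positivity) (mem_range.2 (show n < n + 1 by omega))
          rw [if_pos (e.lt p)] at this
          exact this
        rw [h3]; push_cast at hm ⊢; linarith

end Pool.Agent.R90.W
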