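import Pool.Agent.R90.W.Min
import Pool.Agent.R6.Trade.Game

set_option autoImplicit false
set_option linter.unusedSectionVars false

/-!
# Games with at most two minimal types
-/

namespace Pool.Agent.R90.W

open Finset Pool.Agent.R90.Games

variable {N : Type} [Fintype N] [DecidableEq N]

/-- `S` is a shift-minimal winning coalition: it wins, and it becomes losing when a member is
removed, or replaced by a strictly less desirable nonmember. -/
def ShiftMinimal (G : SimpleGame N) (S : Finset N) : Prop :=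
  G.Win S ∧ (∀ i ∈ S, ¬ G.Win (S.erase i)) ∧
    ∀ i ∈ S, ∀ j, j ∉ S → Desir G i j → ¬ Desir G j i → ¬ G.Win (insert j (S.erase i))

lemma minW_shiftMinimal {G : SimpleGame N} {idx : N → ℕ} {n : ℕ} (e : Enum G idx n) {S : Finset N}
    (h : MinW G idx S) : ShiftMinimal G S := by
  refine ⟨h.1, ?_, ?_⟩
  · intro i hi hw
    have h1 := h.2 _ hw (fun g => by rw [pth_erase idx S i hi]; split_ifs <;> omega)
    have : i ∈ S.erase i := by rw [h1]; exact hi
    exact notMem_erase _ _ this
  · intro i hi j hj h1 h2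
    have hij : i ≠ j := fun a => hj (a ▸ hi)
    have : idx i < idx j := by
      rcases lt_trichotomy (idx i) (idx j) with a | a | a
      · exact a
      · exact absurd (e.inj a) hij
      · exact absurd (e.des j i a) h2
    exact h.no_swap e hi hj this

/-- a 3-trade robust complete game with at most two shift-minimal types admits no trade -/
theorem robust_all (nl : StmtN) (dr : StmtDR) (dl : StmtDL) (ds : StmtDS) (G : SimpleGame N)
    (hc : Complete G) (hr : Set.ncard {v | ∃ S, ShiftMinimal G S ∧ typeVec G S = v} ≤ 2 ∨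
      numShiftMin G ≤ 2) (h3 : TradeRobust G 3) (m : ℕ) : TradeRobust G m := by
  obtain ⟨idx, n, e⟩ := exists_enum G hc
  intro k hk1 hkm X Y hT hX
  by_contra hcon
  push Not at hcon
  obtain ⟨SA, SB, hA, hB, hall⟩ : ∃ SA SB, G.Win SA ∧ G.Win SB ∧
      ∀ S, MinW G idx S → S = SA ∨ S = SB := by
    rcases hr with hr | hr
    · exact exists_two e (ShiftMinimal G) (fun S hS => minW_shiftMinimal e hS) hr
    · exact exists_two e (ShiftMin G) (fun S hS => minW_shiftMin e hS) hr
  exact game_reduce nl dr dl ds e hA hB hall hk1 X Y hX hcon hT h3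

/-- and it is weighted -/
theorem weighted_all (nl : StmtN) (dr : StmtDR) (dl : StmtDL) (ds : StmtDS) (G : SimpleGame N)
    (hc : Complete G) (hr : Set.ncard {v | ∃ S, ShiftMinimal G S ∧ typeVec G S = v} ≤ 2 ∨
      numShiftMin G ≤ 2) (h3 : TradeRobust G 3) :
    ∃ (w : N → ℝ) (q : ℝ), (∀ v, 0 ≤ w v) ∧ ∀ S : Finset N, G.Win S ↔ q ≤ ∑ v ∈ S, w v := by
  by_contra hcon
  have hS : Pool.Agent.R6.Trade.IsSimple G.Win := ⟨G.empty_losing, G.all_winning, G.mono⟩
  obtain ⟨J, X, Y, hJ, hX, hY, hXY⟩ := Pool.Agent.R6.Trade.exists_trade hS hcon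
  obtain ⟨i, hi⟩ := robust_all nl dr dl ds G hc hr h3 J J hJ le_rfl X Y hXY hX
  exact hY i hi

end Pool.Agent.R90.W
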