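import Pool.Agent.R90.W.Defs

set_option autoImplicit false

/-!
# Reduction to the situation `Sit`
-/

namespace Pool.Agent.R90.W

open Finset

lemma Loses.symm {A B L : ℕ → ℤ} (h : Loses A B L) : Loses B A L := ⟨h.1, h.2.2, h.2.1⟩

lemma Tr.symm {A B : ℕ → ℤ} {k : ℕ} (h : Tr A B k) : Tr B A k := by
  obtain ⟨L, a, b, hab, hL, hh⟩ := h
  exact ⟨L, b, a, by omega, fun i => (hL i).symm, fun x => by have := hh x; linarith⟩

lemma Good.symm {A B : ℕ → ℤ} (h : Good A B) : Good B A := h.imp Tr.symm Tr.symm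

/-- independent pair in `E` -/
def Ind (A B : ℕ → ℤ) : Prop :=
  ∃ i1 i2, B i1 < A i1 ∧ B i2 < A i2 ∧
    ∀ h, A h + B h ≤ T i1 (A i1 - 1) h + T i2 (A i2 - 1) h

lemma T_loses {A B : ℕ → ℤ} (pA : IsPath A) (pB : IsPath B) {i j : ℕ} (hi : B i < A i)
    (hj : A j < B j) : Loses A B (fun h => min (T i (A i - 1) h) (T j (B j - 1) h)) := by
  have h1 := pA.nonneg i
  have h2 := pB.nonneg i
  have h3 := pA.nonneg j
  have h4 := pB.nonneg j
  refine ⟨inf_path (T_path i (A i - 1) (by omega) (by omega))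
    (T_path j (B j - 1) (by omega) (by omega)), ⟨i, ?_⟩, ⟨j, ?_⟩⟩
  · have : T i (A i - 1) i = A i - 1 := by rw [T_ge i _ i le_rfl (by omega)]; ring
    have := min_le_left (T i (A i - 1) i) (T j (B j - 1) i)
    show min (T i (A i - 1) i) (T j (B j - 1) i) < A i
    omega
  · have : T j (B j - 1) j = B j - 1 := by rw [T_ge j _ j le_rfl (by omega)]; ring
    have := min_le_right (T i (A i - 1) j) (T j (B j - 1) j)
    show min (T i (A i - 1) j) (T j (B j - 1) j) < B j
    omega

lemma good_of_ind {A B : ℕ → ℤ} (pA : IsPath A) (pB : IsPath B) (h1 : Ind A B) (h2 : Ind B A) :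
    Good A B := by
  obtain ⟨i1, i2, a1, a2, ha⟩ := h1
  obtain ⟨j1, j2, b1, b2, hb⟩ := h2
  refine good2 (T_loses pA pB a1 b1) (T_loses pA pB a2 b2) (Or.inl rfl) (Or.inr rfl) ?_
  intro h
  have c1 := ha h
  have c2 := hb h
  have c3 : B h ≤ T i1 (A i1 - 1) h := le_T pB _ _ (by omega) h
  have c4 : B h ≤ T i2 (A i2 - 1) h := le_T pB _ _ (by omega) h
  have c5 : A h ≤ T j1 (B j1 - 1) h := le_T pA _ _ (by omega) h
  have c6 : A h ≤ T j2 (B j2 - 1) h := le_T pA _ _ (by omega) h
  show A h + B h ≤ min (T i1 (A i1 - 1) h) (T j1 (B j1 - 1) h) +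
    min (T i2 (A i2 - 1) h) (T j2 (B j2 - 1) h)
  omega

lemma ind_of_big {A B : ℕ → ℤ} (pA : IsPath A) (pB : IsPath B) {i : ℕ} (hi : B i + 2 ≤ A i) :
    Ind A B := by
  refine ⟨i, i, by omega, by omega, fun h => ?_⟩
  have h0 := pA.nonneg h
  have h0' := pB.nonneg h
  unfold T
  split_ifs with h1
  · have h2 := pA.mono h1
    have h3 := pB.mono h1
    omega
  · have h2 := pA.mono (show i ≤ h by omega)
    have h3 := pB.mono (show i ≤ h by omega)
    omega

/-- if there is no independent pair in `F`, then `F` is dominated -/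
lemma sit_of_not_ind {A B : ℕ → ℤ} (pA : IsPath A) (pB : IsPath B) (eA : EvC A) (eB : EvC B)
    (hE : ∃ h, B h < A h) (hF : ∃ h, A h < B h) (hi : ¬ Ind B A) : ∃ R, Sit A B R := by
  classical
  have le : ∀ h, B h ≤ A h + 1 := by
    intro h; by_contra hc; exact hi (ind_of_big pB pA (i := h) (by omega))
  set h1 := Nat.find hF with hh1
  have hF1 : A h1 < B h1 := Nat.find_spec hF
  have hmin : ∀ h, A h < B h → h1 ≤ h := fun h hh => Nat.find_min' hF hh
  obtain ⟨c, hc1, hc2, hc3⟩ := run_up pB eB h1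
  -- the largest element of F in [h1, c]
  set K : Finset ℕ := (Finset.Icc h1 c).filter (fun g => A g < B g) with hK
  have hKne : K.Nonempty := ⟨h1, by simp [hK, hc1, hF1]⟩
  set R := K.max' hKne with hR
  have hRK : R ∈ K := K.max'_mem hKne
  have hRF : A R < B R := by simp only [hK, mem_filter] at hRK; exact hRK.2
  have hR1 : h1 ≤ R ∧ R ≤ c := by
    simp only [hK, mem_filter, mem_Icc] at hRK; exact hRK.1
  have hmax : ∀ h, A h < B h → h ≤ c → h ≤ R := by
    intro h hh hc
    exact K.le_max' h (by simp only [hK, mem_filter, mem_Icc]; exact ⟨⟨hmin h hh, hc⟩, hh⟩)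
  have hBR : B R = A R + 1 := by have := le R; omega
  have hones : ∀ h, h1 ≤ h → h ≤ c → B h = B h1 + ((h:ℤ) - h1) := by
    intro h a b
    have := pB.mono a; have := pB.mono b; omega
  have Fl : ∀ h, h < R → A h < B h → B R = B h + ((R:ℤ) - h) := by
    intro h a b
    have := hones h (hmin h b) (by omega)
    have := hones R hR1.1 hR1.2
    omega
  have Fr : ∀ h, R < h → A h < B h → B h = B R := by
    intro h a b
    by_contra hne
    apply hi
    have hc : c < h := by by_contra hcc; have := hmax h b (by omega); omega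
    have hmono := pB.mono (show R ≤ h by omega)
    refine ⟨R, h, hRF, b, fun g => ?_⟩
    have e1 : A g ≤ T R (B R - 1) g := le_T pA _ _ (by omega) g
    have e2 : A g ≤ T h (B h - 1) g := le_T pA _ _ (by omega) g
    by_cases hg : A g < B g
    · have hgle := le g
      by_cases hgR : g ≤ R
      · have m1 := pB.mono hgR
        have m2 := pB.nonneg g
        have e3 : B g ≤ T h (B h - 1) g := by
          rw [T_le h _ g (by omega)]; omega
        omega
      · have hcg : c < g := by by_contra hcc; have := hmax g hg (by omega); omega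
        have m1 := pB.mono (show c + 1 ≤ g by omega)
        have m2 := pB.mono hR1.2
        have m3 := pB.nonneg R
        have e3 : B g ≤ T R (B R - 1) g := by
          rw [T_ge R _ g (by omega) (by omega)]; push_cast at m1; omega
        omega
    · omega
  refine ⟨R, pA, pB, eA, eB, le, hBR, ⟨?_, ?_, ?_⟩, Fl, Fr, hE⟩
  · by_contra h0
    have : R = 0 := by omega
    rw [this, pA.zero, pB.zero] at hRF; omega
  · intro h hh
    by_cases hf : A h < B h
    · have := Fl h hh hf; omega
    · have := pA.mono (show h ≤ R by omega); omega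
  · intro h hh
    by_cases hf : A h < B h
    · have := Fr h hh hf; omega
    · have := pA.mono (show R ≤ h by omega); omega

theorem L0 {A B : ℕ → ℤ} (pA : IsPath A) (pB : IsPath B) (eA : EvC A) (eB : EvC B)
    (hE : ∃ h, B h < A h) (hF : ∃ h, A h < B h) :
    Good A B ∨ (∃ R, Sit A B R) ∨ (∃ R, Sit B A R) := by
  by_cases h1 : Ind A B
  · by_cases h2 : Ind B A
    · exact Or.inl (good_of_ind pA pB h1 h2)
    · exact Or.inr (Or.inl (sit_of_not_ind pA pB eA eB hE hF h2))
  · exact Or.inr (Or.inr (sit_of_not_ind pB pA eB eA hF hE h1))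

end Pool.Agent.R90.W
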