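import Pool.Agent.R90.W.L0

set_option autoImplicit false

/-!
# Closure: from a trade of any length to a trade of length 2 or 3
-/

namespace Pool.Agent.R90.W

open Finset

/-- the canonical losing vectors, with their type `t` -/
def Can (A B : ℕ → ℤ) (R : ℕ) (V : ℕ → ℤ) (c : ℕ) (t : ℕ) : Prop :=
  (t = 0 ∧ Cor A c ∧ B c ≤ A c ∧ V = PV A B R c) ∨
  (t = 1 ∧ Cor B c ∧ B c ≤ A c ∧ V = S B c) ∨
  (t = 2 ∧ Cor A R ∧ c = R ∧ V = T R (A R - 1))

/-- the path compared with -/
noncomputable def WW (A B : ℕ → ℤ) (t : ℕ) : ℕ → ℤ := if t = 1 then B else A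

section
variable {A B : ℕ → ℤ} {R : ℕ}

lemma Sit.notF_cor (s : Sit A B R) {y : ℕ} (c : Cor B y) (hF : A y < B y) : y = R := by
  by_contra hne
  rcases lt_or_gt_of_ne hne with h | h
  · have h1 := s.Fl y h hF
    have h2 := c.gt R h
    omega
  · have h1 := s.Fr y h hF
    have h2 := c.lt R h
    omega

lemma Sit.notF_corA (s : Sit A B R) {x : ℕ} (c : Cor A x) (hF : A x < B x) : x = R := by
  have hR := s.hR
  have hle := s.le x
  by_contra hne
  rcases lt_or_gt_of_ne hne with h | h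
  · have h1 := s.Fl x h hF
    have h2 := c.gt R h
    omega
  · have h1 := s.Fr x h hF
    have h2 := c.lt R h
    omega

/-- every losing path is below a canonical one -/
lemma exists_can (s : Sit A B R) {L : ℕ → ℤ} (l : Loses A B L) :
    ∃ V c t, Can A B R V c t ∧ ∀ h, L h ≤ V h := by
  obtain ⟨pL, ⟨hA, hA'⟩, ⟨hB, hB'⟩⟩ := l
  have p0 := pL.nonneg hA
  have p1 := pL.nonneg hB
  obtain ⟨x, hx0, hx, hx1⟩ := exists_cor s.pA s.eA hA 0 (by omega) (by rw [s.pA.zero]; omega)
  obtain ⟨y, hy0, hy, hy1⟩ := exists_cor s.pB s.eB hB 0 (by omega) (by rw [s.pB.zero]; omega)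
  have hLx : L x ≤ A x - 1 := by
    rcases hx1 with ⟨h1, h2⟩ | ⟨h1, h2⟩
    · have := pL.mono h1; omega
    · have := pL.mono h1; omega
  have hLy : L y ≤ B y - 1 := by
    rcases hy1 with ⟨h1, h2⟩ | ⟨h1, h2⟩
    · have := pL.mono h1; omega
    · have := pL.mono h1; omega
  by_cases hyF : B y ≤ A y
  · exact ⟨S B y, y, 1, Or.inr (Or.inl ⟨rfl, hy, hyF, rfl⟩), fun h => le_T pL _ _ hLy h⟩
  · have hyR := s.notF_cor hy (by omega)
    subst hyR
    by_cases hxF : B x ≤ A x
    · refine ⟨PV A B y x, x, 0, Or.inl ⟨rfl, hx, hxF, rfl⟩, fun h => ?_⟩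
      have e1 := le_T pL x _ hLx h
      have e2 := le_T pL y (A y) (by have := s.hR; omega) h
      unfold PV
      split_ifs
      · exact e1
      · exact le_min e1 e2
    · have hxR := s.notF_corA hx (by omega)
      subst hxR
      exact ⟨T x (A x - 1), x, 2, Or.inr (Or.inr ⟨rfl, hx, rfl, rfl⟩), fun h => le_T pL _ _ hLx h⟩

lemma PV_eq_of_lt {x : ℕ} (hx : A x = B x) : PV A B R x = T x (A x - 1) := by
  funext h; unfold PV; rw [if_pos hx]

lemma PV_eq_of_ne {x : ℕ} (hx : A x ≠ B x) : PV A B R x = P A R x := by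
  funext h; unfold PV; rw [if_neg hx]

/-- value at the own corner -/
lemma can_at (s : Sit A B R) {V : ℕ → ℤ} {c t : ℕ} (k : Can A B R V c t) :
    V c ≤ WW A B t c - 1 := by
  rcases k with ⟨rfl, h1, h2, rfl⟩ | ⟨rfl, h1, h2, rfl⟩ | ⟨rfl, h1, rfl, rfl⟩
  · have h3 := T_at s.pA h1
    unfold WW PV P
    simp only [zero_ne_one, if_false]
    split_ifs
    · omega
    · have := min_le_left (T c (A c - 1) c) (T R (A R) c); omega
  · have h3 := T_at s.pB h1
    unfold WW S; simp only [if_true]; omega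
  · have h3 := T_at s.pA h1
    unfold WW; rw [if_neg (by norm_num)]; omega

end

/-- the single word case: only one path -/
theorem one_word {A B : ℕ → ℤ} (pA : IsPath A) (pB : IsPath B) (eB : EvC B) (hle : ∀ h, B h ≤ A h)
    {k : ℕ} (hk : 1 ≤ k) (tr : Tr A B k) : Good A B := by
  classical
  obtain ⟨L, a, b, hab, hL, hh⟩ := tr
  -- corners of B where L i is below B
  have hc : ∀ i, ∃ c, Cor B c ∧ L i c ≤ B c - 1 := by
    intro i
    obtain ⟨pL, -, ⟨h, h'⟩⟩ := hL i
    have p1 := pL.nonneg h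
    obtain ⟨y, -, hy, hy1⟩ := exists_cor pB eB h 0 (by omega) (by rw [pB.zero]; omega)
    refine ⟨y, hy, ?_⟩
    rcases hy1 with ⟨h1, h2⟩ | ⟨h1, h2⟩
    · have := pL.mono h1; omega
    · have := pL.mono h1; omega
  choose c hcor hLc using hc
  have hsum : ∀ h, (0:ℤ) ≤ ∑ i, (T (c i) (B (c i) - 1) h - B h) := by
    intro h
    have h1 := hh h
    have h2 : ∑ i, L i h ≤ ∑ i, T (c i) (B (c i) - 1) h :=
      sum_le_sum (fun i _ => le_T (hL i).1 _ _ (hLc i) h)
    rw [sum_sub_distrib]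
    simp only [sum_const, card_univ, Fintype.card_fin, nsmul_eq_mul]
    have h3 := hle h
    have h4 : (k:ℤ) = a + b := by rw [← hab]; push_cast; ring
    rw [h4]
    have h5 : (0:ℤ) ≤ a := by positivity
    nlinarith
  -- every used corner is helped
  have hhelp : ∀ i, ∃ j, B (c i) + 1 ≤ T (c j) (B (c j) - 1) (c i) := by
    intro i
    by_contra hcon
    push Not at hcon
    have h1 := hsum (c i)
    have h2 : ∑ j, (T (c j) (B (c j) - 1) (c i) - B (c i)) < 0 := by
      apply Finset.sum_neg'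
      · intro j _; have := hcon j; omega
      · exact ⟨i, mem_univ _, by rw [T_at pB (hcor i)]; omega⟩
    omega
  set K : Finset ℕ := univ.image c with hK
  have hKne : K.Nonempty := ⟨c ⟨0, hk⟩, mem_image_of_mem _ (mem_univ _)⟩
  obtain ⟨i1, -, hi1⟩ := mem_image.1 (K.min'_mem hKne)
  obtain ⟨i2, -, hi2⟩ := mem_image.1 (K.max'_mem hKne)
  have hmin : ∀ j, c i1 ≤ c j := fun j => hi1 ▸ K.min'_le _ (mem_image_of_mem _ (mem_univ _))
  have hmax : ∀ j, c j ≤ c i2 := fun j => hi2 ▸ K.le_max' _ (mem_image_of_mem _ (mem_univ _))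
  have nice : ∀ i, Nice A B (T (c i) (B (c i) - 1)) B (c i) := by
    intro i
    have h1 := (hcor i).lt 0 (hcor i).pos
    rw [pB.zero] at h1
    have h2 := pB.nonneg (c i)
    have h3 := T_at pB (hcor i)
    refine ⟨⟨T_path _ _ (by omega) (by omega), ⟨c i, ?_⟩, ⟨c i, ?_⟩⟩, Or.inr rfl,
      fun h hh => T_off pB (hcor i) h hh, by omega⟩
    · have := hle (c i); omega
    · omega
  obtain ⟨j1, hj1⟩ := hhelp i1
  obtain ⟨j2, hj2⟩ := hhelp i2
  have hne1 : c j1 ≠ c i1 := by
    intro he; rw [he, T_at pB (hcor i1)] at hj1; omega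
  have hne2 : c j2 ≠ c i2 := by
    intro he; rw [he, T_at pB (hcor i2)] at hj2; omega
  have m1 := hmin j1
  have m2 := hmax j1
  have m3 := hmin j2
  have m4 := hmax j2
  refine mk2 (nice i1) (nice i2) ?_ ?_
  · rw [T_ge _ _ _ (by omega) (by have := pB.nonneg (c j2); omega)] at hj2
    rw [T_ge _ _ _ (by omega) (by have := pB.nonneg (c i1); omega)]
    have := pB.mono m3
    omega
  · rw [T_le _ _ _ (by omega)] at hj1
    rw [T_le _ _ _ (by omega)]
    have := pB.mono m2
    omega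

end Pool.Agent.R90.W
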