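import Pool.Agent.R90.W.Dom
import Pool.Agent.R90.W.ClosDS

set_option autoImplicit false
set_option linter.unusedSectionVars false

/-!
# From complete games with at most two shift-minimal types to words
-/

namespace Pool.Agent.R90.W

open Finset Pool.Agent.R90.Games

variable {N : Type} [Fintype N] [DecidableEq N] {G : SimpleGame N} {idx : N → ℕ} {n : ℕ}

/-- a winning coalition whose path is minimal -/
def MinW (G : SimpleGame N) (idx : N → ℕ) (S : Finset N) : Prop :=
  G.Win S ∧ ∀ S', G.Win S' → (∀ g, pth idx S' g ≤ pth idx S g) → S' = S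

/-- the weight of a coalition -/
noncomputable def wt (idx : N → ℕ) (n : ℕ) (S : Finset N) : ℤ := ∑ g ∈ range (n+1), pth idx S g

lemma pth_eq_of_wt (e : Enum G idx n) {S S' : Finset N} (hle : ∀ g, pth idx S' g ≤ pth idx S g)
    (hw : wt idx n S ≤ wt idx n S') : S' = S := by
  apply pth_inj e
  have h1 : ∑ g ∈ range (n+1), (pth idx S g - pth idx S' g) = 0 := by
    apply le_antisymm
    · rw [sum_sub_distrib]; unfold wt at hw; linarith
    · exact sum_nonneg (fun g _ => by have := hle g; omega)
  have h2 : ∀ g, g ≤ n → pth idx S' g = pth idx S g := by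
    intro g hg
    have := (sum_eq_zero_iff_of_nonneg (fun g _ => by have := hle g; omega)).1 h1 g
      (mem_range.2 (by omega))
    omega
  intro g
  by_cases hg : g ≤ n
  · exact h2 g hg
  · rw [pth_const e S' g (by omega), pth_const e S g (by omega)]; exact h2 n le_rfl

lemma exists_minW (e : Enum G idx n) {S : Finset N} (hS : G.Win S) :
    ∃ S0, MinW G idx S0 ∧ ∀ g, pth idx S0 g ≤ pth idx S g := by
  classical
  obtain ⟨S0, h1, h2⟩ := exists_min_image
    ((univ : Finset (Finset N)).filter (fun S' => G.Win S' ∧ ∀ g, pth idx S' g ≤ pth idx S g))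
    (wt idx n) ⟨S, mem_filter.2 ⟨mem_univ _, hS, fun g => le_rfl⟩⟩
  rw [mem_filter] at h1
  refine ⟨S0, ⟨h1.2.1, ?_⟩, h1.2.2⟩
  intro S' hw hle
  apply pth_eq_of_wt e hle
  exact h2 S' (mem_filter.2 ⟨mem_univ _, hw, fun g => le_trans (hle g) (h1.2.2 g)⟩)

/-- in a minimal coalition a member cannot be replaced by a later equivalent player -/
lemma MinW.no_swap (e : Enum G idx n) {S : Finset N} (h : MinW G idx S) {p q : N} (hp : p ∈ S)
    (hq : q ∉ S) (hpq : idx p < idx q) : ¬ G.Win (insert q (S.erase p)) := by
  intro hw
  have h1 := h.2 _ hw (fun g => by rw [pth_swap idx S p q hp hq hpq]; split_ifs <;> omega)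
  have : q ∈ S := by rw [← h1]; exact mem_insert_self _ _
  exact hq this

lemma MinW.not_desir (e : Enum G idx n) {S : Finset N} (h : MinW G idx S) {p q : N} (hp : p ∈ S)
    (hq : q ∉ S) (hpq : idx p < idx q) : ¬ Desir G q p := by
  intro hd
  apply h.no_swap e hp hq hpq
  apply hd _ (by simp [hq]) (notMem_erase _ _)
  rw [insert_erase hp]; exact h.1

/-- membership in a type, symmetric form -/
lemma mem_typeOf (G : SimpleGame N) (i j : N) :
    j ∈ typeOf G i ↔ (Desir G i j ∧ Desir G j i) := Iff.rfl

/-- minimal coalitions with the same type vector agree -/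
lemma minW_eq (e : Enum G idx n) {S S' : Finset N} (h : MinW G idx S) (h' : MinW G idx S')
    (hv : typeVec G S = typeVec G S') : S = S' := by
  classical
  by_contra hne
  -- the first element in the symmetric difference
  have key : ∀ S S' : Finset N, MinW G idx S → typeVec G S = typeVec G S' →
      ∀ p ∈ S, p ∉ S' → (∀ x, (x ∈ S ↔ x ∉ S') → idx p ≤ idx x) → False := by
    intro S S' h hv p hp hp' hmin
    have h1 := congrFun hv p
    unfold typeVec at h1
    -- some element of S' \ S of the type of p
    have h2 : ∃ q ∈ S', q ∉ S ∧ q ∈ typeOf G p := by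
      by_contra hcon
      push Not at hcon
      have hsub : {j | j ∈ S' ∧ j ∈ typeOf G p} ⊂ {j | j ∈ S ∧ j ∈ typeOf G p} := by
        rw [Set.ssubset_iff_of_subset]
        · exact ⟨p, ⟨hp, desir_refl G p, desir_refl G p⟩, fun hh => hp' hh.1⟩
        · rintro x ⟨hx1, hx2⟩
          refine ⟨?_, hx2⟩
          by_contra hx
          exact hcon x hx1 hx hx2
      have := Set.ncard_lt_ncard hsub (Set.toFinite _)
      omega
    obtain ⟨q, hq', hq, hqt⟩ := h2
    have h3 := hmin q ⟨fun a => absurd a hq, fun a => absurd hq' a⟩
    have h4 : idx p ≠ idx q := fun a => hq (e.inj a ▸ hp)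
    exact h.not_desir e hp hq (by omega) hqt.2
  have hex : ((univ : Finset N).filter (fun x => x ∈ S ↔ x ∉ S')).Nonempty := by
    by_contra hcon
    rw [not_nonempty_iff_eq_empty, filter_eq_empty_iff] at hcon
    apply hne
    ext x
    have := hcon (mem_univ x)
    tauto
  obtain ⟨p, hp, hmin⟩ := exists_min_image _ idx hex
  rw [mem_filter] at hp
  by_cases hpS : p ∈ S
  · exact key S S' h hv p hpS (hp.2.1 hpS)
      (fun x hx => hmin x (mem_filter.2 ⟨mem_univ _, hx⟩))
  · have hpS' : p ∈ S' := by
      by_contra hc; exact hpS (hp.2.2 hc)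
    exact key S' S h' hv.symm p hpS' hpS
      (fun x hx => hmin x (mem_filter.2 ⟨mem_univ _, by tauto⟩))

/-- counting functions are invariant under swapping equivalent players -/
lemma ncard_swap {S : Finset N} {p q : N} (hp : p ∈ S) (hq : q ∉ S) (φ : N → Prop)
    (hφ : φ p ↔ φ q) : Set.ncard {j | j ∈ insert q (S.erase p) ∧ φ j} = Set.ncard {j | j ∈ S ∧ φ j} := by
  classical
  have h0 : ∀ U : Finset N, Set.ncard {j | j ∈ U ∧ φ j} = (U.filter φ).card := by
    intro U
    rw [← Set.ncard_coe_finset]
    congr 1
    ext j; simp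
  rw [h0, h0, filter_insert, filter_erase]
  by_cases hφp : φ p
  · rw [if_pos (hφ.1 hφp), card_insert_of_notMem (by simp [hq]),
      card_erase_of_mem (mem_filter.2 ⟨hp, hφp⟩)]
    have : 0 < (S.filter φ).card := card_pos.2 ⟨p, mem_filter.2 ⟨hp, hφp⟩⟩
    omega
  · rw [if_neg (fun h => hφp (hφ.2 h)), erase_eq_of_notMem]
    intro h; exact hφp (mem_filter.1 h).2

/-- minimal coalitions are shift-minimal (in the sense of type vectors) -/
lemma minW_shiftMin (e : Enum G idx n) {S : Finset N} (h : MinW G idx S) : ShiftMin G S := by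
  classical
  refine ⟨h.1, ?_⟩
  intro T0 hle0 hne0 hw0
  obtain ⟨T, hT, hTmin⟩ := exists_min_image
    ((univ : Finset (Finset N)).filter (fun T => G.Win T ∧ TypeLe G T S ∧ typeVec G T ≠ typeVec G S))
    (wt idx n) ⟨T0, mem_filter.2 ⟨mem_univ _, hw0, hle0, hne0⟩⟩
  rw [mem_filter] at hT
  obtain ⟨-, hTw, hTle, hTne⟩ := hT
  have hpth : ∀ g, pth idx T g ≤ pth idx S g := by
    by_contra hcon
    push Not at hcon
    classical
    obtain ⟨h1, hfirst⟩ : (pth idx S (Nat.find hcon) < pth idx T (Nat.find hcon)) ∧
        ∀ g, g < Nat.find hcon → ¬ (pth idx S g < pth idx T g) :=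
      ⟨Nat.find_spec hcon, fun g hg => Nat.find_min hcon hg⟩
    set m := Nat.find hcon with hm
    have hpos : 0 < m := by
      rcases Nat.eq_zero_or_pos m with h0 | h0
      · exfalso; rw [h0, (pth_path e S).zero, (pth_path e T).zero] at h1; omega
      · exact h0
    have hmn : m ≤ n := by
      by_contra hc
      have := hfirst n (by omega)
      rw [pth_const e S m (by omega), pth_const e T m (by omega)] at h1
      exact this h1
    obtain ⟨p, hp⟩ := e.surj (m-1) (by omega)
    have hp1 : idx p + 1 = m := by omega
    have hprev := hfirst (idx p) (by omega)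
    have sS := pth_step e S p
    have sT := pth_step e T p
    rw [hp1] at sS sT
    have hpT : p ∈ T := by
      by_contra hc
      rw [if_neg hc] at sT
      split_ifs at sS <;> omega
    -- counting players at least as desirable as p
    have hcount := hTle p
    unfold topCount at hcount
    have hex : ∃ q ∈ S, q ∉ T ∧ m ≤ idx q ∧ Desir G q p := by
      by_contra hc
      push Not at hc
      have e1 : ∀ U : Finset N, (Set.ncard {j | j ∈ U ∧ Desir G j p} : ℤ) =
          pth idx U m + ((U.filter (fun j => m ≤ idx j ∧ Desir G j p)).card : ℤ) := by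
        intro U
        have : Set.ncard {j | j ∈ U ∧ Desir G j p} = (U.filter (fun j => Desir G j p)).card := by
          rw [← Set.ncard_coe_finset]; congr 1; ext j; simp
        rw [this]
        unfold pth
        norm_cast
        rw [← card_union_of_disjoint]
        · congr 1
          ext j
          simp only [mem_filter, mem_union]
          constructor
          · rintro ⟨a, b⟩
            by_cases hj : idx j < m
            · exact Or.inl ⟨a, hj⟩
            · exact Or.inr ⟨a, by omega, b⟩
          · rintro (⟨a, b⟩ | ⟨a, -, b⟩)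
            · refine ⟨a, ?_⟩
              by_cases hj : j = p
              · subst hj; exact desir_refl G j
              · have : idx j ≠ idx p := fun hh => hj (e.inj hh)
                exact e.des j p (by omega)
            · exact ⟨a, b⟩
        · rw [disjoint_left]
          intro j hj1 hj2
          rw [mem_filter] at hj1 hj2
          omega
      have e2 : (S.filter (fun j => m ≤ idx j ∧ Desir G j p)).card ≤
          (T.filter (fun j => m ≤ idx j ∧ Desir G j p)).card := by
        apply card_le_card
        intro j hj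
        rw [mem_filter] at hj ⊢
        refine ⟨?_, hj.2⟩
        by_contra hjT
        exact hc j hj.1 hjT hj.2.1 hj.2.2
      have e3 := e1 T
      have e4 := e1 S
      have e5 : (Set.ncard {j | j ∈ T ∧ Desir G j p} : ℤ) ≤ Set.ncard {j | j ∈ S ∧ Desir G j p} := by
        exact_mod_cast hcount
      rw [e3, e4] at e5
      have e6 : ((S.filter (fun j => m ≤ idx j ∧ Desir G j p)).card : ℤ) ≤
          (T.filter (fun j => m ≤ idx j ∧ Desir G j p)).card := by exact_mod_cast e2
      omega
    obtain ⟨q, hqS, hqT, hqm, hqp⟩ := hex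
    have hpq : idx p < idx q := by omega
    have hpq' := e.des p q hpq
    -- swap
    have hw' : G.Win (insert q (T.erase p)) := by
      apply hqp _ (by simp [hqT]) (notMem_erase _ _)
      rw [insert_erase hpT]; exact hTw
    have hmem : insert q (T.erase p) ∈ (univ : Finset (Finset N)).filter
        (fun T => G.Win T ∧ TypeLe G T S ∧ typeVec G T ≠ typeVec G S) := by
      rw [mem_filter]
      refine ⟨mem_univ _, hw', ?_, ?_⟩
      · intro i
        have : topCount G (insert q (T.erase p)) i = topCount G T i := by
          unfold topCount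
          exact ncard_swap hpT hqT (fun j => Desir G j i)
            ⟨fun a => desir_trans G hqp a, fun a => desir_trans G hpq' a⟩
        rw [this]; exact hTle i
      · have : typeVec G (insert q (T.erase p)) = typeVec G T := by
          funext i
          unfold typeVec
          refine ncard_swap hpT hqT (fun j => j ∈ typeOf G i) ?_
          constructor
          · rintro ⟨a, b⟩; exact ⟨desir_trans G a hpq', desir_trans G hqp b⟩
          · rintro ⟨a, b⟩; exact ⟨desir_trans G a hqp, desir_trans G hpq' b⟩
        rw [this]; exact hTne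
    have hmin := hTmin _ hmem
    have hlt : wt idx n (insert q (T.erase p)) < wt idx n T := by
      unfold wt
      apply sum_lt_sum
      · intro g _
        rw [pth_swap idx T p q hpT hqT hpq]; split_ifs <;> omega
      · refine ⟨idx q, mem_range.2 (by have := e.lt q; omega), ?_⟩
        rw [pth_swap idx T p q hpT hqT hpq, if_pos ⟨hpq, le_rfl⟩]; omega
    omega
  have := h.2 T hTw hpth
  exact hTne (by rw [this])

/-- the coalition of a path -/
noncomputable def coal (idx : N → ℕ) (L : ℕ → ℤ) : Finset N := by
  classical exact univ.filter (fun p => L (idx p + 1) = L (idx p) + 1)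

lemma pth_coal (e : Enum G idx n) {L : ℕ → ℤ} (pL : IsPath L) :
    ∀ g, g ≤ n → pth idx (coal idx L) g = L g := by
  classical
  intro g
  induction g with
  | zero => intro _; rw [(pth_path e _).zero, pL.zero]
  | succ g ih =>
    intro hg
    obtain ⟨p, hp⟩ := e.surj g (by omega)
    have h1 := pth_step e (coal idx L) p
    rw [hp] at h1
    have h2 := ih (by omega)
    have h3 := pL.step g
    have h4 : p ∈ coal idx L ↔ L (g+1) = L g + 1 := by
      unfold coal; rw [mem_filter, hp]; simp
    by_cases hm : p ∈ coal idx L
    · rw [if_pos hm] at h1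
      have := h4.1 hm
      omega
    · rw [if_neg hm] at h1
      have : ¬ (L (g+1) = L g + 1) := fun a => hm (h4.2 a)
      omega

/-- **Main reduction.** If the game has at most two minimal coalitions, then a trade of any length
yields a trade of length at most 3. -/
theorem game_reduce (nl : StmtN) (dr : StmtDR) (dl : StmtDL) (ds : StmtDS)
    (e : Enum G idx n) {SA SB : Finset N} (hA : G.Win SA) (hB : G.Win SB)
    (hall : ∀ S, MinW G idx S → S = SA ∨ S = SB) {k : ℕ} (hk : 1 ≤ k) (X Y : Fin k → Finset N)
    (hX : ∀ i, G.Win (X i)) (hY : ∀ i, ¬ G.Win (Y i)) (hT : Trade X Y) :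
    ¬ TradeRobust G 3 := by
  classical
  have win_iff : ∀ S, G.Win S ↔ ((∀ g, pth idx SA g ≤ pth idx S g) ∨
      (∀ g, pth idx SB g ≤ pth idx S g)) := by
    intro S
    constructor
    · intro hS
      obtain ⟨S0, h1, h2⟩ := exists_minW e hS
      rcases hall S0 h1 with rfl | rfl
      · exact Or.inl h2
      · exact Or.inr h2
    · rintro (h | h)
      · exact win_of_pth_le e _ SA S le_rfl h hA
      · exact win_of_pth_le e _ SB S le_rfl h hB
  have lose : ∀ S, ¬ G.Win S → Loses (pth idx SA) (pth idx SB) (pth idx S) := by
    intro S hS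
    rw [win_iff] at hS
    push Not at hS
    exact ⟨pth_path e S, hS.1, hS.2⟩
  -- the trade of words
  have hsums : ∀ g, ∑ i, pth idx (X i) g = ∑ i, pth idx (Y i) g := by
    intro g
    induction g with
    | zero => simp [(pth_path e _).zero]
    | succ g ih =>
      by_cases hg : g < n
      · obtain ⟨p, hp⟩ := e.surj g hg
        have h1 := sum_pth_step e X p
        have h2 := sum_pth_step e Y p
        rw [hp] at h1 h2
        have h3 := hT p
        rw [h1, h2, ih, h3]
      · have h1 : ∀ U : Finset N, pth idx U (g+1) = pth idx U g := by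
          intro U; rw [pth_const e U (g+1) (by omega), pth_const e U g (by omega)]
        simp only [h1]; exact ih
  have tr : Tr (pth idx SA) (pth idx SB) k := by
    refine ⟨fun i => pth idx (Y i), (univ.filter fun i => ∀ g, pth idx SA g ≤ pth idx (X i) g).card,
      (univ.filter fun i => ¬ ∀ g, pth idx SA g ≤ pth idx (X i) g).card, ?_,
      fun i => lose _ (hY i), ?_⟩
    · have := card_filter_add_card_filter_not (s := (univ : Finset (Fin k)))
        (fun i => ∀ g, pth idx SA g ≤ pth idx (X i) g)
      simpa using this
    · intro g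
      rw [← hsums g]
      have h1 : ∀ i, (if (∀ g, pth idx SA g ≤ pth idx (X i) g) then pth idx SA g else
          pth idx SB g) ≤ pth idx (X i) g := by
        intro i
        split_ifs with h
        · exact h g
        · rcases (win_iff (X i)).1 (hX i) with h2 | h2
          · exact absurd h2 h
          · exact h2 g
      refine le_trans (le_of_eq ?_) (sum_le_sum (fun i _ => h1 i))
      rw [sum_ite]
      simp
  have good := main_words nl dr dl ds (pth_path e SA) (pth_path e SB) (pth_evc e SA)
    (pth_evc e SB) hk tr
  -- back to coalitions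
  have back : ∀ j, 1 ≤ j → j ≤ 3 → Tr (pth idx SA) (pth idx SB) j → ¬ TradeRobust G 3 := by
    intro j hj1 hj3 htr hrob
    obtain ⟨L, a, b, hab, hL, hh⟩ := htr
    have hlose : ∀ i, ¬ G.Win (coal idx (L i)) := by
      intro i hw
      obtain ⟨pL, ⟨h1, h1'⟩, ⟨h2, h2'⟩⟩ := hL i
      have hcv : ∀ g, L i (min g n) = pth idx (coal idx (L i)) g := by
        intro g
        by_cases hg : g ≤ n
        · rw [min_eq_left hg, pth_coal e pL g hg]
        · rw [min_eq_right (by omega), pth_const e _ g (by omega), pth_coal e pL n le_rfl]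
      rcases (win_iff _).1 hw with h | h
      · have h3 := h h1
        rw [← hcv] at h3
        have := (pL.mono (min_le_left h1 n)).1
        omega
      · have h3 := h h2
        rw [← hcv] at h3
        have := (pL.mono (min_le_left h2 n)).1
        omega
    let X' : Fin j → Finset N := fun i => if (i:ℕ) < a then SA else SB
    have hX' : ∀ i, G.Win (X' i) := by
      intro i; simp only [X']; split_ifs
      · exact hA
      · exact hB
    have hsX : ∀ g, ∑ i, pth idx (X' i) g = a * pth idx SA g + b * pth idx SB g := by
      intro g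
      subst hab
      rw [Fin.sum_univ_add]
      congr 1
      · rw [sum_congr rfl (fun i _ => by simp only [X', Fin.val_castAdd, i.2, if_true]; rfl)]
        simp
      · have : ∀ i : Fin b, pth idx (X' (Fin.natAdd a i)) g = pth idx SB g := by
          intro i
          simp only [X', Fin.val_natAdd]
          rw [if_neg (by omega)]
        rw [sum_congr rfl (fun i _ => this i)]
        simp
    obtain ⟨X'', Y'', hX'', hY'', hT''⟩ := dom_trade e
      (∑ g ∈ range (n+1), (∑ i, pth idx (coal idx (L i)) g - ∑ i, pth idx (X' i) g)).toNat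
      X' (fun i => coal idx (L i)) hX' hlose (by
        intro g
        rw [hsX]
        by_cases hg : g ≤ n
        · rw [sum_congr rfl (fun i _ => pth_coal e (hL i).1 g hg)]
          exact hh g
        · rw [pth_const e SA g (by omega), pth_const e SB g (by omega),
            sum_congr rfl (fun i _ => (pth_const e _ g (by omega)).trans
              (pth_coal e (hL i).1 n le_rfl))]
          exact hh n) (Int.self_le_toNat _)
    obtain ⟨i, hi⟩ := hrob j hj1 hj3 X'' Y'' hT'' hX''
    exact hY'' i hi
  rcases good with h | h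
  · exact back 2 (by norm_num) (by norm_num) h
  · exact back 3 (by norm_num) (by norm_num) h

/-- from a bound on the number of type vectors to the two minimal coalitions -/
lemma exists_two (e : Enum G idx n) (Φ : Finset N → Prop) (hΦ : ∀ S, MinW G idx S → Φ S)
    (hr : Set.ncard {v | ∃ S, Φ S ∧ typeVec G S = v} ≤ 2) :
    ∃ SA SB, G.Win SA ∧ G.Win SB ∧ ∀ S, MinW G idx S → S = SA ∨ S = SB := by
  classical
  obtain ⟨SA, hA, -⟩ := exists_minW e G.all_winning
  by_cases hone : ∀ S, MinW G idx S → S = SA
  · exact ⟨SA, SA, hA.1, hA.1, fun S hS => Or.inl (hone S hS)⟩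
  push Not at hone
  obtain ⟨SB, hB, hne⟩ := hone
  refine ⟨SA, SB, hA.1, hB.1, ?_⟩
  intro S hS
  by_contra hcon
  push Not at hcon
  have h1 : typeVec G SA ≠ typeVec G SB := fun h => hne (minW_eq e hB hA h.symm)
  have h2 : typeVec G S ≠ typeVec G SA := fun h => hcon.1 (minW_eq e hS hA h)
  have h3 : typeVec G S ≠ typeVec G SB := fun h => hcon.2 (minW_eq e hS hB h)
  have hsub : ({typeVec G S, typeVec G SA, typeVec G SB} : Set (N → ℕ)) ⊆
      {v | ∃ S, Φ S ∧ typeVec G S = v} := by
    intro v hv
    rcases hv with rfl | rfl | rfl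
    · exact ⟨S, hΦ S hS, rfl⟩
    · exact ⟨SA, hΦ SA hA, rfl⟩
    · exact ⟨SB, hΦ SB hB, rfl⟩
  have hfin : Set.Finite {v | ∃ S, Φ S ∧ typeVec G S = v} := by
    have : {v | ∃ S, Φ S ∧ typeVec G S = v} ⊆ Set.range (typeVec G) := by
      rintro v ⟨S, -, rfl⟩; exact ⟨S, rfl⟩
    exact (Set.finite_range _).subset this
  have h4 := Set.ncard_le_ncard hsub hfin
  have h5 : ({typeVec G S, typeVec G SA, typeVec G SB} : Set (N → ℕ)).ncard = 3 := by
    rw [Set.ncard_eq_three]
    exact ⟨_, _, _, h2, h3, h1, rfl⟩
  omega

end Pool.Agent.R90.W
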