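import Pool.Agent.R90.W.NDefs

set_option autoImplicit false
set_option linter.unusedVariables false

/-!
Steps ALPHA and BETA of the N-lemma (by helper159).
-/

namespace Pool.Agent.R90.W

open Finset

namespace NAB

/-- the help relation on the set `{A = B}` -/
def ZH (B : ℕ → ℤ) (z1 z2 : ℕ) : Prop :=
  (z1 < z2 ∧ B z2 + 2 ≤ B z1 + ((z2:ℤ) - z1)) ∨
    (z2 < z1 ∧ B z2 + 2 ≤ B z1 ∧ B z2 + 1 ≤ (z2:ℤ))

lemma ZH_irr {B : ℕ → ℤ} {z : ℕ} : ¬ ZH B z z := by
  unfold ZH; omega

/-- helped points have `M ≥ 1` -/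
lemma ZH_M {B : ℕ → ℤ} (p : IsPath B) {z1 z2 : ℕ} (h : ZH B z1 z2) : B z2 + 1 ≤ (z2:ℤ) := by
  have := p.nonneg z1
  unfold ZH at h; omega

lemma ZH_trans {B : ℕ → ℤ} (p : IsPath B) {z1 z2 z3 : ℕ} (h12 : ZH B z1 z2) (h23 : ZH B z2 z3)
    (hne : z1 ≠ z3) (m1 : B z1 + 1 ≤ (z1:ℤ)) : ZH B z1 z3 ∨ ZH B z2 z1 ∨ ZH B z3 z2 := by
  have m2 := ZH_M p h12
  have m3 := ZH_M p h23
  unfold ZH at *
  rcases lt_or_gt_of_ne hne with h | h
  · have f13 := p.mono h.le
    rcases h12 with ⟨h1, h2⟩ | ⟨h1, h2, h3⟩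
    · rcases h23 with ⟨k1, k2⟩ | ⟨k1, k2, k3⟩
      · left; left; omega
      · have f := p.mono k1.le
        right; left; right; omega
    · rcases h23 with ⟨k1, k2⟩ | ⟨k1, k2, k3⟩
      · right; right; right; omega
      · omega
  · have f13 := p.mono h.le
    rcases h12 with ⟨h1, h2⟩ | ⟨h1, h2, h3⟩
    · rcases h23 with ⟨k1, k2⟩ | ⟨k1, k2, k3⟩
      · omega
      · right; right; left; omega
    · rcases h23 with ⟨k1, k2⟩ | ⟨k1, k2, k3⟩
      · right; left; left; omega
      · left; right; omega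

/-- the K-lemma -/
lemma klem {B : ℕ → ℤ} (p : IsPath B) (V : Finset ℕ) (y : ℕ) (hy : y ∈ V)
    (hM : ∀ z ∈ V, B z + 1 ≤ (z:ℤ))
    (hcl : ∀ z ∈ V, z = y ∨ ZH B z y → ∃ z' ∈ V, ZH B z' z) :
    ∃ z1 ∈ V, ∃ z2 ∈ V, ZH B z1 z2 ∧ ZH B z2 z1 := by
  classical
  by_contra hcon
  push Not at hcon
  set K := V.filter (fun z => z = y ∨ ZH B z y) with hK
  have hyK : y ∈ K := by rw [hK, mem_filter]; exact ⟨hy, Or.inl rfl⟩
  have hne : K.Nonempty := ⟨y, hyK⟩
  have cl : ∀ z ∈ K, ∃ z' ∈ K, ZH B z' z := by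
    intro z hz
    rw [hK, mem_filter] at hz
    obtain ⟨z', hz', h'⟩ := hcl z hz.1 hz.2
    refine ⟨z', ?_, h'⟩
    rw [hK, mem_filter]
    refine ⟨hz', ?_⟩
    rcases hz.2 with h | h
    · subst h; exact Or.inr h'
    · by_cases hzy : z' = y
      · exact Or.inl hzy
      · right
        rcases ZH_trans p h' h hzy (hM z' hz') with k | k | k
        · exact k
        · exact absurd k (hcon z' hz' z hz.1 h')
        · exact absurd k (hcon z hz.1 y hy h)
  obtain ⟨z', hz', h1⟩ := cl (K.min' hne) (K.min'_mem hne)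
  obtain ⟨z'', hz'', h2⟩ := cl (K.max' hne) (K.max'_mem hne)
  have l1 := K.min'_le z' hz'
  have l2 := K.le_max' z' hz'
  have l3 := K.min'_le z'' hz''
  have l4 := K.le_max' z'' hz''
  have lK := K.min'_mem hne
  have rK := K.max'_mem hne
  generalize K.min' hne = l at *
  generalize K.max' hne = r at *
  rw [hK, mem_filter] at lK rK
  have m1 := hM l lK.1
  have p1 := p.mono l2
  have p2 := p.mono l3
  refine hcon l lK.1 r rK.1 ?_ ?_
  · unfold ZH at *; left; omega
  · unfold ZH at *; right; omega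

section main
variable {A B : ℕ → ℤ} {R : ℕ}

lemma S_iff (s : Sit A B R) {y : ℕ} (c : Cor B y) (h : ℕ) :
    B h + 1 ≤ S B y h ↔ (h < y ∧ B h + 2 ≤ B y ∧ B h + 1 ≤ (h:ℤ)) ∨
      (y < h ∧ B h + 2 ≤ B y + ((h:ℤ) - y)) := by
  have := s.B_pos c
  unfold S T
  rcases lt_trichotomy h y with h1 | h1 | h1
  · rw [if_pos h1.le, le_min_iff]; omega
  · subst h1; rw [if_pos le_rfl, le_min_iff]; omega
  · rw [if_neg (by omega)]; omega

lemma TA_iff (s : Sit A B R) {x : ℕ} (c : Cor A x) (h : ℕ) :
    A h + 1 ≤ T x (A x - 1) h ↔ (h < x ∧ A h + 2 ≤ A x ∧ A h + 1 ≤ (h:ℤ)) ∨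
      (x < h ∧ A h + 2 ≤ A x + ((h:ℤ) - x)) := by
  have := s.A_pos c
  unfold T
  rcases lt_trichotomy h x with h1 | h1 | h1
  · rw [if_pos h1.le, le_min_iff]; omega
  · subst h1; rw [if_pos le_rfl, le_min_iff]; omega
  · rw [if_neg (by omega)]; omega

lemma P_iff (s : Sit A B R) {x : ℕ} (c : Cor A x) (h : ℕ) :
    A h + 1 ≤ P A R x h ↔ ((h < x ∧ A h + 2 ≤ A x ∧ A h + 1 ≤ (h:ℤ)) ∨
      (x < h ∧ A h + 2 ≤ A x + ((h:ℤ) - x))) ∧
      ((h < R ∧ A h + 1 ≤ A R ∧ A h + 1 ≤ (h:ℤ)) ∨ (R < h ∧ A h + 1 ≤ A R + ((h:ℤ) - R))) := by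
  have := s.A_pos c
  have h2 := s.pA.nonneg R
  unfold P
  rw [le_min_iff, TA_iff s c]
  refine and_congr_right (fun _ => ?_)
  unfold T
  rcases lt_trichotomy h R with h1 | h1 | h1
  · rw [if_pos h1.le, le_min_iff]; omega
  · subst h1; rw [if_pos le_rfl, le_min_iff]; omega
  · rw [if_neg (by omega)]; omega

/-- corner of type `Z`, member of `X ∪ Y` -/
structure ZC (A B : ℕ → ℤ) (X Y : Finset ℕ) (z : ℕ) : Prop where
  mem : z ∈ X ∪ Y
  eq : A z = B z

/-- nice pair for a member of `V` -/
lemma ZC.nice (s : Sit A B R) {X Y : Finset ℕ} (hX : ∀ x ∈ X, Cor A x ∧ B x ≤ A x)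
    (hY : ∀ y ∈ Y, Cor B y ∧ B y ≤ A y) {z : ℕ} (hz : ZC A B X Y z) :
    ∃ W, Nice A B (T z (B z - 1)) W z ∧ (W = A ∨ W = B) := by
  rcases mem_union.1 hz.mem with h | h
  · refine ⟨A, ?_, Or.inl rfl⟩
    rw [← hz.eq]
    exact TA_nice s (hX z h).1 (by rw [hz.eq])
  · exact ⟨B, S_nice s (hY z h).1 (hY z h).2, Or.inr rfl⟩

/-- bounds at a member of `V` -/
lemma ZC.pos (s : Sit A B R) {X Y : Finset ℕ} (hX : ∀ x ∈ X, Cor A x ∧ B x ≤ A x)
    (hY : ∀ y ∈ Y, Cor B y ∧ B y ≤ A y) {z : ℕ} (hz : ZC A B X Y z) : 1 ≤ B z ∧ B z ≤ z := by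
  rcases mem_union.1 hz.mem with h | h
  · rw [← hz.eq]; exact s.A_pos (hX z h).1
  · exact s.B_pos (hY z h).1

lemma TZ_iff {W : ℕ → ℤ} {z : ℕ} (hz : 1 ≤ W z ∧ W z ≤ z) (h : ℕ) :
    W h + 1 ≤ T z (W z - 1) h ↔ ZH W z h := by
  unfold T ZH
  rcases lt_trichotomy h z with h1 | h1 | h1
  · rw [if_pos h1.le, le_min_iff]; omega
  · subst h1; rw [if_pos le_rfl, le_min_iff]; omega
  · rw [if_neg (by omega)]; omega

/-- data of the closure hypothesis -/
def Hel (A B : ℕ → ℤ) (R : ℕ) (X Y : Finset ℕ) (c : ℕ) : Prop :=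
  (∃ x ∈ X, A c + 1 ≤ PV A B R x c) ∨ (∃ y ∈ Y, B c + 1 ≤ S B y c) ∨
      (∃ L W, Nice A B L W R ∧ W c + 1 ≤ L c)

lemma hel_M (s : Sit A B R) {X Y : Finset ℕ} (hX : ∀ x ∈ X, Cor A x ∧ B x ≤ A x)
    (hY : ∀ y ∈ Y, Cor B y ∧ B y ≤ A y) {z : ℕ} (hz : A z = B z) (h : Hel A B R X Y z) :
    B z + 1 ≤ (z:ℤ) := by
  rcases h with ⟨x, hx, h⟩ | ⟨y, hy, h⟩ | ⟨L, W, n, h⟩
  · have hl : PV A B R x z ≤ z := by
      unfold PV
      split_ifs with h1
      · exact ((T_path x (A x - 1) (by have := s.A_pos (hX x hx).1; omega)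
          (by have := s.A_pos (hX x hx).1; omega)).nonneg z).2
      · exact ((P_path s (hX x hx).1).nonneg z).2
    omega
  · have := ((S_loses s (hY y hy).1 (hY y hy).2).1.nonneg z).2
    omega
  · have := (n.los.1.nonneg z).2
    rcases n.hW with rfl | rfl <;> omega

/-- a helper of a point of `V` is in `V` or is a nice pair with corner in `E` (of the form `P` or
`S`) or with corner `R` -/
lemma hel_cases (s : Sit A B R) {X Y : Finset ℕ} (hX : ∀ x ∈ X, Cor A x ∧ B x ≤ A x)
    (hY : ∀ y ∈ Y, Cor B y ∧ B y ≤ A y) {z : ℕ} (hz : A z = B z) (h : Hel A B R X Y z) :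
    (∃ z', ZC A B X Y z' ∧ ZH B z' z) ∨ (∃ x ∈ X, B x < A x ∧ A z + 1 ≤ P A R x z) ∨
      (∃ y ∈ Y, B y < A y ∧ B z + 1 ≤ S B y z) ∨
      (∃ L W, Nice A B L W R ∧ W z + 1 ≤ L z) := by
  rcases h with ⟨x, hx, h⟩ | ⟨y, hy, h⟩ | h
  · unfold PV at h
    split_ifs at h with h1
    · left
      refine ⟨x, ⟨mem_union_left _ hx, h1⟩, ?_⟩
      rw [hz, h1] at h
      exact (TZ_iff (by have := s.A_pos (hX x hx).1; omega) z).1 h
    · right; left
      exact ⟨x, hx, lt_of_le_of_ne (hX x hx).2 (Ne.symm h1), h⟩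
  · by_cases h1 : A y = B y
    · left
      refine ⟨y, ⟨mem_union_right _ hy, h1⟩, ?_⟩
      exact (TZ_iff (s.B_pos (hY y hy).1) z).1 h
    · right; right; left
      exact ⟨y, hy, lt_of_le_of_ne (hY y hy).2 (Ne.symm h1), h⟩
  · right; right; right; exact h

/-- `Good`, or a point of `V` equal to `y` or helping `y` whose helper has corner in `E ∪ {R}` -/
lemma vlem (s : Sit A B R) {X Y : Finset ℕ} (hX : ∀ x ∈ X, Cor A x ∧ B x ≤ A x)
    (hY : ∀ y ∈ Y, Cor B y ∧ B y ≤ A y) (hcl : ∀ c ∈ X ∪ Y, Hel A B R X Y c) {y : ℕ}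
    (hy : ZC A B X Y y) : Good A B ∨ ∃ v, ZC A B X Y v ∧ (v = y ∨ ZH B v y) ∧
      ((∃ x ∈ X, B x < A x ∧ A v + 1 ≤ P A R x v) ∨
      (∃ y ∈ Y, B y < A y ∧ B v + 1 ≤ S B y v) ∨
      (∃ L W, Nice A B L W R ∧ W v + 1 ≤ L v)) := by
  classical
  set V := (X ∪ Y).filter (fun z => A z = B z) with hV
  have memV : ∀ z, z ∈ V ↔ ZC A B X Y z := by
    intro z; rw [hV, mem_filter]; exact ⟨fun h => ⟨h.1, h.2⟩, fun h => ⟨h.1, h.2⟩⟩
  by_cases hex : ∃ v ∈ V, (v = y ∨ ZH B v y) ∧ ∀ z' ∈ V, ¬ ZH B z' v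
  · obtain ⟨v, hv, h1, h2⟩ := hex
    right
    refine ⟨v, (memV v).1 hv, h1, ?_⟩
    rcases hel_cases s hX hY ((memV v).1 hv).eq (hcl v ((memV v).1 hv).mem) with ⟨z', h3, h4⟩ | h
    · exact absurd h4 (h2 z' ((memV z').2 h3))
    · exact h
  · push Not at hex
    left
    obtain ⟨z1, h1, z2, h2, h12, h21⟩ := klem s.pB V y ((memV y).2 hy)
      (fun z hz => hel_M s hX hY ((memV z).1 hz).eq (hcl z ((memV z).1 hz).mem)) hex
    rw [memV] at h1 h2
    obtain ⟨W1, n1, w1⟩ := h1.nice s hX hY
    obtain ⟨W2, n2, w2⟩ := h2.nice s hX hY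
    have e1 := h1.eq
    have e2 := h2.eq
    rw [← TZ_iff (h1.pos s hX hY)] at h12
    rw [← TZ_iff (h2.pos s hX hY)] at h21
    refine mk2 n1 n2 ?_ ?_
    · rcases w1 with rfl | rfl <;> omega
    · rcases w2 with rfl | rfl <;> omega

/-- ZFACT: `alpha`-type corners are corners of both paths -/
lemma zfact (s : Sit A B R) {z : ℕ} (hz : A z = B z) (cA : Cor A z)
    (hq : A R + 1 ≤ T z (A z - 1) R) : Cor B z := by
  have a0 := s.A_pos cA
  rw [TA_iff s cA] at hq
  obtain ⟨k1, k2, k3⟩ := (cor_iff s.pA z).1 cA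
  have hR := s.hR
  rw [cor_iff s.pB]
  refine ⟨k1, ?_, ?_⟩
  · have le1 := s.le (z-1)
    have st := s.pB.step (z-1)
    rw [show z - 1 + 1 = z by omega] at st
    rcases st with st | st
    · exfalso
      have hF : A (z-1) < B (z-1) := by omega
      rcases lt_trichotomy (z-1) R with h | h | h
      · have f := s.Fl (z-1) h hF
        have f1 := s.pB.mono (show z ≤ R by omega)
        omega
      · rw [h] at st k2
        omega
      · have f := s.Fr (z-1) h hF
        omega
    · omega
  · have le1 := s.le (z+1)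
    rcases s.pB.step z with st | st
    · exact st
    · exfalso
      have hF : A (z+1) < B (z+1) := by omega
      rcases lt_trichotomy (z+1) R with h | h | h
      · have f := s.Fl (z+1) h hF
        push_cast at f
        omega
      · rw [h] at st k3
        omega
      · have f := s.Fr (z+1) h hF
        have hne : z ≠ R := by rintro rfl; omega
        have f1 := s.pB.mono (show R ≤ z by omega)
        omega

/-- STEP ALPHA -/
lemma alpha (s : Sit A B R) {X Y : Finset ℕ} (hX : ∀ x ∈ X, Cor A x ∧ B x ≤ A x)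
    (hY : ∀ y ∈ Y, Cor B y ∧ B y ≤ A y) (hcl : ∀ c ∈ X ∪ Y, Hel A B R X Y c) {z : ℕ}
    (hz : ZC A B X Y z) (cA : Cor A z) (hq : A R + 1 ≤ T z (A z - 1) R) : Good A B := by
  rcases vlem s hX hY hcl hz with h | ⟨v, hv, hvz, hw⟩
  · exact h
  have cB := zfact s hz.eq cA hq
  have eA : T z (A z - 1) = S B z := by unfold S; rw [hz.eq]
  have nA := TA_nice s cA (by rw [hz.eq])
  have nB := S_nice s cB (by rw [hz.eq])
  -- the helper of `v` as a nice pair
  have hw' : ∃ L W c, Nice A B L W c ∧ W v + 1 ≤ L v ∧ (c = R ∨ B c < A c) := by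
    rcases hw with ⟨x, hx, h1, h2⟩ | ⟨y, hy, h1, h2⟩ | ⟨L, W, n, h⟩
    · exact ⟨_, _, x, P_niceA s (hX x hx).1, h2, Or.inr h1⟩
    · exact ⟨_, _, y, S_nice s (hY y hy).1 (hY y hy).2, h2, Or.inr h1⟩
    · exact ⟨L, W, R, n, h, Or.inl rfl⟩
  obtain ⟨L, W, c, n, hWv, hc⟩ := hw'
  -- `z` helps `c`
  have hzc : ∃ W', Nice A B (S B z) W' z ∧ W' c + 1 ≤ S B z c := by
    rcases hc with rfl | hc
    · exact ⟨A, eA ▸ nA, eA ▸ hq⟩
    · refine ⟨B, nB, ?_⟩
      have hne : c ≠ z := by rintro rfl; have := hz.eq; omega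
      have := nA.off c hne
      rw [eA] at this
      omega
  obtain ⟨W', n', h'⟩ := hzc
  rcases hvz with rfl | hvz
  · exact mk2 n n' hWv h'
  · obtain ⟨W2, n2, w2⟩ := hv.nice s hX hY
    rw [← TZ_iff (hv.pos s hX hY)] at hvz
    refine mk3 n n2 n' hWv ?_ h'
    have := hz.eq
    rcases w2 with rfl | rfl <;> omega

/-- STEP BETA1 -/
lemma beta1 (s : Sit A B R)
    (nd : ∀ h, B h < A h → ∃ e, Cor A e ∧ B e < A e ∧ (e ≠ h ∨ B h + 2 ≤ A h))
    {y : ℕ} (c : Cor B y) (hy : B y < A y) (hR : B R + 1 ≤ S B y R) : Good A B := by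
  obtain ⟨e, ce, he, h⟩ := nd y hy
  refine mk2 (P_niceB s ce he) (S_nice s c hy.le) ?_ hR
  have n := P_niceA s ce
  by_cases hye : y = e
  · subst hye
    have := n.at_
    omega
  · have := n.off y hye
    omega

/-- BASE: a helper with corner in `E ∪ {R}` of a point `y ∈ Y`, `A y = B y`, which helps `R` -/
lemma base (s : Sit A B R) {X Y : Finset ℕ} (hX : ∀ x ∈ X, Cor A x ∧ B x ≤ A x)
    (hY : ∀ y ∈ Y, Cor B y ∧ B y ≤ A y)
    (hs : ∀ y ∈ Y, B y < A y → S B y R ≤ B R) {y : ℕ} (hy : y ∈ Y) (hz : A y = B y)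
    (hR : B R + 1 ≤ S B y R)
    (hw : (∃ x ∈ X, B x < A x ∧ A y + 1 ≤ P A R x y) ∨
      (∃ e ∈ Y, B e < A e ∧ B y + 1 ≤ S B e y) ∨
      (∃ L W, Nice A B L W R ∧ W y + 1 ≤ L y)) : Good A B := by
  have cy := (hY y hy).1
  have ny := S_nice s cy (hY y hy).2
  rcases hw with ⟨x, hx, h1, h2⟩ | ⟨e, he, h1, h2⟩ | ⟨L, W, n, h⟩
  · exact mk2 (P_niceB s (hX x hx).1 h1) ny (by omega) hR
  · have ce := (hY e he).1
    have ne := S_nice s ce (hY e he).2
    have hse := hs e he h1
    have hse' : ¬ (B R + 1 ≤ S B e R) := by omega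
    have hne1 : e ≠ y := by rintro rfl; omega
    have hne2 : e ≠ R := by rintro rfl; have := s.hR; omega
    have hne3 : y ≠ R := by rintro rfl; have := s.hR; omega
    have ae := s.pA.nonneg e
    rw [S_iff s ce] at hse'
    have hR' := hR
    have h2' := h2
    rw [S_iff s cy] at hR'
    rw [S_iff s ce] at h2'
    rcases lt_or_gt_of_ne hne3 with hyR | hyR
    · rcases lt_or_gt_of_ne hne2 with heR | heR
      · rcases lt_or_gt_of_ne hne1 with hey | hey
        · -- e < y < R
          have m1 := s.pB.mono hyR.le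
          omega
        · -- y < e < R
          have m1 := s.pA.mono hey.le
          obtain ⟨c, k1, k2, k3⟩ := exists_cor s.pA s.eA e y hey.le (by omega)
          have m2 := s.pA.mono heR.le
          have m3 := s.pB.mono heR.le
          have m4 := s.pB.mono hey.le
          have hcE : B c < A c := by
            rcases k3 with ⟨k3, k4⟩ | ⟨k3, k4⟩
            · have := s.pB.mono k3; omega
            · have := s.pB.mono k3; omega
          refine mk2 (P_niceB s k2 hcE) ny ?_ hR
          rw [← hz, P_iff s k2]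
          have hAc : A e ≤ A c := by omega
          refine ⟨Or.inl ⟨k1, by omega, by omega⟩, Or.inl ⟨hyR, by omega, by omega⟩⟩
      · -- y < R < e
        refine mk2 ne ny h2 ?_
        rw [S_iff s cy]
        have m1 := s.pB.mono heR.le
        omega
    · rcases lt_or_gt_of_ne hne2 with heR | heR
      · -- e < R < y
        refine mk2 ne ny h2 ?_
        rw [S_iff s cy]
        have m1 := s.pB.mono heR.le
        omega
      · rcases lt_or_gt_of_ne hne1 with hey | hey
        · -- R < e < y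
          obtain ⟨c, k1, k2, k3⟩ := exists_cor s.pA s.eA e 0 (by omega) (by rw [s.pA.zero]; have := s.pB.nonneg e; omega)
          have m1 := s.pA.mono hey.le
          have m2 := s.pB.mono hey.le
          have m3 := s.pA.mono heR.le
          have hcE : B c < A c := by
            rcases k3 with ⟨k3, k4⟩ | ⟨k3, k4⟩
            · have := s.pB.mono k3; omega
            · have := s.pB.mono k3; omega
          have hcy : c < y := by
            rcases k3 with ⟨k3, k4⟩ | ⟨k3, k4⟩
            · omega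
            · by_contra hcon
              have := s.pA.mono (show e ≤ y by omega)
              have := s.pA.mono (show y ≤ c by omega)
              omega
          refine mk2 (P_niceB s k2 hcE) ny ?_ hR
          rw [← hz, P_iff s k2]
          refine ⟨Or.inr ⟨hcy, ?_⟩, Or.inr ⟨hyR, by omega⟩⟩
          omega
        · -- R < y < e
          have m1 := s.pB.mono hyR.le
          omega
  · exact mk2 n ny h hR

/-- STEP BETA2 -/
lemma beta2 (s : Sit A B R) {X Y : Finset ℕ} (hX : ∀ x ∈ X, Cor A x ∧ B x ≤ A x)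
    (hY : ∀ y ∈ Y, Cor B y ∧ B y ≤ A y) (hcl : ∀ c ∈ X ∪ Y, Hel A B R X Y c)
    (noA : ∀ z ∈ X, A z = B z → ¬ (A R + 1 ≤ T z (A z - 1) R))
    (hs : ∀ y ∈ Y, B y < A y → S B y R ≤ B R) {y : ℕ} (hy : y ∈ Y) (hyz : A y = B y)
    (hR : B R + 1 ≤ S B y R) : Good A B := by
  have zy : ZC A B X Y y := ⟨mem_union_right _ hy, hyz⟩
  have cy := (hY y hy).1
  have ny := S_nice s cy (hY y hy).2
  rcases vlem s hX hY hcl zy with h | ⟨z, hz, hzy, hw⟩
  · exact h
  rcases hzy with rfl | hzy
  · exact base s hX hY hs hy hyz hR hw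
  obtain ⟨Wz, nz, wz⟩ := hz.nice s hX hY
  have ez := hz.eq
  have zpos := hz.pos s hX hY
  have Mz := hel_M s hX hY ez (hcl z hz.mem)
  have My := hel_M s hX hY hyz (hcl y zy.mem)
  have zhelps : Wz y + 1 ≤ T z (B z - 1) y := by
    have := (TZ_iff zpos y).2 hzy
    rcases wz with rfl | rfl <;> omega
  -- if the helper has corner `R`: 3-cycle
  by_cases hwR : ∃ L W, Nice A B L W R ∧ W z + 1 ≤ L z
  · obtain ⟨L, W, n, h⟩ := hwR
    exact mk3 n nz ny h zhelps hR
  -- `y` helps `z`: 2-cycle
  by_cases hyz2 : ZH B y z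
  · refine mk2 nz ny zhelps ?_
    exact (TZ_iff (s.B_pos cy) z).2 hyz2
  -- `z ∈ Y` helping `R`: base
  by_cases hzY : z ∈ Y ∧ B R + 1 ≤ S B z R
  · exact base s hX hY hs hzY.1 ez hzY.2 hw
  -- so `z` does not help `R`
  have hzR : (z ∈ Y ∧ ¬ (B R + 1 ≤ T z (B z - 1) R)) ∨ (z ∈ X ∧ ¬ (B R ≤ T z (B z - 1) R)) := by
    rcases mem_union.1 hz.mem with h | h
    · right
      refine ⟨h, ?_⟩
      have := noA z h ez
      rw [ez] at this
      have := s.hR
      omega
    · left
      exact ⟨h, fun k => hzY ⟨h, k⟩⟩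
  have hneyR : y ≠ R := by rintro rfl; have := s.hR; omega
  have hnezR : z ≠ R := by rintro rfl; have := s.hR; omega
  have hne : z ≠ y := by rintro rfl; exact ZH_irr hzy
  have hAR := s.hR
  have nR := s.pB.nonneg R
  -- the helper of `z` has corner `x ∈ E`
  have hw' : (∃ x ∈ X, B x < A x ∧ A z + 1 ≤ P A R x z) ∨
      (∃ e ∈ Y, B e < A e ∧ B z + 1 ≤ S B e z) := by
    rcases hw with h | h | h
    · exact Or.inl h
    · exact Or.inr h
    · exact absurd h hwR
  clear hw hwR hcl noA
  rcases lt_or_gt_of_ne hneyR with hyR | hyR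
  · -- y < R
    have hR2 : B R + 2 ≤ B y + ((R:ℤ) - y) := by
      clear hw'
      rw [S_iff s cy] at hR; omega
    rcases lt_or_gt_of_ne hne with h1 | h1
    · -- z < y
      exfalso
      clear hw'
      have m := s.pB.mono h1.le
      have : T z (B z - 1) R = B z - 1 + ((R:ℤ) - z) := T_ge _ _ _ (by omega) (by omega)
      unfold ZH at hzy
      rw [this] at hzR
      omega
    · -- y < z
      rcases lt_or_gt_of_ne hnezR with h2 | h2
      · -- y < z < R
        have e1 : T z (B z - 1) R = B z - 1 + ((R:ℤ) - z) := T_ge _ _ _ (by omega) (by omega)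
        rw [e1] at hzR
        have b1 : B y + 2 ≤ B z := by clear hw'; unfold ZH at hzy; omega
        have b2 : ¬ (B z + 2 ≤ B y + ((z:ℤ) - y)) := by
          intro h; exact hyz2 (Or.inl ⟨h1, h⟩)
        have hzY' : z ∈ Y := by
          clear hw'
          rcases hzR with h | h
          · exact h.1
          · omega
        have cz := (hY z hzY').1
        have nz' := S_nice s cz (hY z hzY').2
        have zh' : B y + 1 ≤ S B z y := (TZ_iff zpos y).2 hzy
        have q1 : B R = B z + ((R:ℤ) - z) - 1 := by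
          clear hw'
          have := cz.gt R h2
          omega
        rcases hw' with ⟨x, hx, k1, k2⟩ | ⟨x, hx, k1, k2⟩
        · have cx := (hX x hx).1
          have nx := P_niceA s cx
          have Mx : B x + 1 ≤ (x:ℤ) := by have := s.pA.nonneg x; omega
          have k2' := k2
          rw [P_iff s cx] at k2'
          rcases lt_trichotomy x R with h3 | h3 | h3
          · rcases lt_trichotomy x z with h4 | h4 | h4
            · rcases lt_trichotomy x y with h5 | h5 | h5
              · -- x < y : z helps x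
                refine mk2 nx nz' k2 ?_
                rw [S_iff s cz]
                have := s.pB.mono h5.le
                omega
              · subst h5; omega
              · -- y < x < z
                have f1 := s.pA.mono h4.le
                have f2 := s.pB.mono h4.le
                have f3 := s.pA.mono h5.le
                have f4 := s.pB.mono h5.le
                refine mk2 nx nz' k2 ?_
                rw [S_iff s cz]
                omega
            · subst h4; omega
            · -- z < x < R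
              have f1 := s.pA.mono h4.le
              refine mk3 nx nz' ny k2 zh' ?_
              rw [S_iff s cy]
              omega
          · subst h3; omega
          · -- R < x
            have f1 := s.pB.mono h3.le
            refine mk3 nx nz' ny k2 zh' ?_
            rw [S_iff s cy]
            omega
        · have cx := (hY x hx).1
          have nx := S_nice s cx (hY x hx).2
          have sx := hs x hx k1
          have sx' : ¬ (B R + 1 ≤ S B x R) := by omega
          rw [S_iff s cx] at sx'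
          have k2' := k2
          rw [S_iff s cx] at k2'
          rcases lt_trichotomy x R with h3 | h3 | h3
          · rcases lt_trichotomy x z with h4 | h4 | h4
            · omega
            · subst h4; omega
            · have f1 := s.pA.mono h4.le
              have f2 := cx.gt R h3
              omega
          · subst h3; omega
          · have f1 := s.pB.mono h3.le
            refine mk3 nx nz' ny k2 zh' ?_
            rw [S_iff s cy]
            omega
      · -- R < z : y helps z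
        exfalso
        clear hw'
        apply hyz2
        left
        have m := s.pB.mono h2.le
        omega
  · -- R < y
    have hR2 : B R + 2 ≤ B y ∧ B R + 1 ≤ (R:ℤ) := by
      clear hw'
      rw [S_iff s cy] at hR; omega
    rcases lt_or_gt_of_ne hnezR with h2 | h2
    · -- z < R : y helps z
      exfalso
      clear hw'
      apply hyz2
      right
      have m := s.pB.mono h2.le
      omega
    · -- R < z
      have e1 : T z (B z - 1) R = min (R:ℤ) (B z - 1) := T_le _ _ _ (by omega)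
      rw [e1, le_min_iff, le_min_iff] at hzR
      rcases lt_or_gt_of_ne hne with h1 | h1
      · -- R < z < y
        have b1 : B y + 2 ≤ B z + ((y:ℤ) - z) := by clear hw'; unfold ZH at hzy; omega
        have b2 : ¬ (B z + 2 ≤ B y) := by
          intro h; exact hyz2 (Or.inr ⟨h1, h, Mz⟩)
        have hzY' : z ∈ Y := by
          clear hw'
          rcases hzR with h | h
          · exact h.1
          · omega
        have cz := (hY z hzY').1
        have nz' := S_nice s cz (hY z hzY').2
        have zh' : B y + 1 ≤ S B z y := (TZ_iff zpos y).2 hzy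
        have q1 : B z = B R + 1 := by
          clear hw'
          have := cz.lt R h2
          omega
        have q2 : B y = B z + 1 := by clear hw'; omega
        rcases hw' with ⟨x, hx, k1, k2⟩ | ⟨x, hx, k1, k2⟩
        · have cx := (hX x hx).1
          have nx := P_niceA s cx
          have Mx : B x + 1 ≤ (x:ℤ) := by have := s.pA.nonneg x; omega
          have k2' := k2
          rw [P_iff s cx] at k2'
          rcases lt_trichotomy x R with h3 | h3 | h3
          · have f1 := s.pB.mono h3.le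
            refine mk3 nx nz' ny k2 zh' ?_
            rw [S_iff s cy]
            omega
          · subst h3; omega
          · rcases lt_trichotomy x z with h4 | h4 | h4
            · have f1 := s.pA.mono h4.le
              refine mk3 nx nz' ny k2 zh' ?_
              rw [S_iff s cy]
              omega
            · subst h4; omega
            · rcases lt_trichotomy x y with h5 | h5 | h5
              · have f1 := s.pA.mono h4.le
                have f2 := s.pB.mono h4.le
                have f3 := cy.lt x h5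
                refine mk2 nx nz' k2 ?_
                rw [S_iff s cz]
                omega
              · subst h5; omega
              · have f1 := s.pB.mono h5.le
                refine mk2 nx nz' k2 ?_
                rw [S_iff s cz]
                omega
        · have cx := (hY x hx).1
          have nx := S_nice s cx (hY x hx).2
          have sx := hs x hx k1
          have sx' : ¬ (B R + 1 ≤ S B x R) := by omega
          rw [S_iff s cx] at sx'
          have Mx : B x + 1 ≤ (x:ℤ) := by have := s.pA.nonneg x; omega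
          have k2' := k2
          rw [S_iff s cx] at k2'
          rcases lt_trichotomy x R with h3 | h3 | h3
          · have f1 := s.pB.mono h3.le
            refine mk3 nx nz' ny k2 zh' ?_
            rw [S_iff s cy]
            omega
          · subst h3; omega
          · have f0 := cx.lt R h3
            rcases lt_trichotomy x z with h4 | h4 | h4
            · have f1 := s.pA.mono h4.le
              omega
            · subst h4; omega
            · omega
      · -- y < z
        exfalso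
        clear hw'
        have m := s.pB.mono h1.le
        omega

end main

/-- steps ALPHA and BETA of the N-lemma -/
theorem stepAB0 : StmtAB := by
  intro A B R s nd X Y hX hY hR hcl
  by_cases hA : ∃ z, ZC A B X Y z ∧ Cor A z ∧ A R + 1 ≤ T z (A z - 1) R
  · obtain ⟨z, h1, h2, h3⟩ := hA
    exact alpha s hX hY hcl h1 h2 h3
  by_cases hB : ∃ y ∈ Y, B y < A y ∧ B R + 1 ≤ S B y R
  · obtain ⟨y, h1, h2, h3⟩ := hB
    exact beta1 s nd (hY y h1).1 h2 h3
  rcases hR with ⟨z, h1, h2, h3⟩ | ⟨y, h1, h2⟩ | ⟨z, h1, h2, h3, h4⟩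
  · exact absurd ⟨z, ⟨mem_union_left _ h1, h2⟩, (hX z h1).1, h3⟩ hA
  · refine beta2 s hX hY hcl ?_ ?_ h1 ?_ h2
    · intro z hz hz2 hz3
      exact hA ⟨z, ⟨mem_union_left _ hz, hz2⟩, (hX z hz).1, hz3⟩
    · intro e he he2
      by_contra hcon
      exact hB ⟨e, he, he2, by omega⟩
    · by_contra hcon
      exact hB ⟨y, h1, lt_of_le_of_ne (hY y h1).2 (Ne.symm hcon), h2⟩
  · exact absurd ⟨z, ⟨mem_union_right _ h1, h2⟩, h3, h4⟩ hA

end NAB

/-- steps ALPHA and BETA of the N-lemma -/
theorem stepAB : StmtAB := NAB.stepAB0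

end Pool.Agent.R90.W
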