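import Pool.Agent.R90.W.NG
import Pool.Agent.R90.W.NAB

set_option autoImplicit false

/-!
The N-lemma.
-/

namespace Pool.Agent.R90.W

theorem nlem : StmtN := nlem_of stepG stepAB

end Pool.Agent.R90.W
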