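import Pool.Agent.R90.W.Defs

set_option autoImplicit false

/-!
The N-lemma split into two parts.
-/

namespace Pool.Agent.R90.W

/-- STEP GAMMA: nobody helps `R`. -/
def StmtG : Prop :=
  ∀ (A B : ℕ → ℤ) (R : ℕ), Sit A B R →
  ∀ (X Y : Finset ℕ), (∀ x ∈ X, Cor A x ∧ B x ≤ A x) → (∀ y ∈ Y, Cor B y ∧ B y ≤ A y) →
  (X ∪ Y).Nonempty → (∀ y ∈ Y, S B y R = B R) →
  (∀ c ∈ X ∪ Y, Hlp A B R X Y c) →
  Good A B

/-- STEPS ALPHA and BETA: some vector helps `R` (that is, `StmtN` with the additional hypothesis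
that the conclusion of the flag implication holds). -/
def StmtAB : Prop :=
  ∀ (A B : ℕ → ℤ) (R : ℕ), Sit A B R →
  (∀ h, B h < A h → ∃ e, Cor A e ∧ B e < A e ∧ (e ≠ h ∨ B h + 2 ≤ A h)) →
  ∀ (X Y : Finset ℕ), (∀ x ∈ X, Cor A x ∧ B x ≤ A x) → (∀ y ∈ Y, Cor B y ∧ B y ≤ A y) →
  ((∃ z ∈ X, A z = B z ∧ A R + 1 ≤ T z (A z - 1) R) ∨
      (∃ y ∈ Y, B R + 1 ≤ S B y R) ∨ (∃ z ∈ Y, A z = B z ∧ Cor A z ∧ A R + 1 ≤ T z (A z - 1) R)) →
  (∀ c ∈ X ∪ Y, (∃ x ∈ X, A c + 1 ≤ PV A B R x c) ∨ (∃ y ∈ Y, B c + 1 ≤ S B y c) ∨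
      (∃ L W, Nice A B L W R ∧ W c + 1 ≤ L c)) →
  Good A B

/-- the N-lemma from the two parts -/
theorem nlem_of (g : StmtG) (ab : StmtAB) : StmtN := by
  intro A B R s nd X Y hX hY hne fl hfl hcl
  by_cases hR : (∃ z ∈ X, A z = B z ∧ A R + 1 ≤ T z (A z - 1) R) ∨
      (∃ y ∈ Y, B R + 1 ≤ S B y R) ∨ (∃ z ∈ Y, A z = B z ∧ Cor A z ∧ A R + 1 ≤ T z (A z - 1) R)
  · refine ab A B R s nd X Y hX hY hR ?_
    intro c hc
    rcases hcl c hc with h | h | ⟨-, h⟩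
    · exact Or.inl h
    · exact Or.inr (Or.inl h)
    · exact Or.inr (Or.inr h)
  · have nfl : ¬ fl := fun h => hR (hfl h)
    push Not at hR
    obtain ⟨h1, h2, h3⟩ := hR
    refine g A B R s X Y hX hY hne ?_ ?_
    · intro y hy
      have hne : R ≠ y := by
        rintro rfl; have := (hY R hy).2; have := s.hR; omega
      have e1 : B R ≤ S B y R := T_off s.pB (hY y hy).1 R hne
      have e2 := h2 y hy
      omega
    · intro c hc
      rcases hcl c hc with ⟨x, hx, h⟩ | h | ⟨h, -⟩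
      · left
        refine ⟨x, hx, ?_⟩
        unfold PV at h
        split_ifs at h with hz
        · have h4 := h1 x hx hz
          have hp := s.A_pos (hX x hx).1
          have h5 := le_T (T_path x (A x - 1) (by omega) (by omega)) R (A R) (by omega) c
          exact le_min h (by omega)
        · exact h
      · exact Or.inr h
      · exact absurd h nfl

end Pool.Agent.R90.W
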