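import Pool.Agent.R90.W.NDefs

set_option autoImplicit false

/-!
# Step gamma of the N-lemma
-/

namespace Pool.Agent.R90.W

open Finset

section
variable {A B : ℕ → ℤ} {R : ℕ}

lemma T_mono_left {W : ℕ → ℤ} (p : IsPath W) {h x x' : ℕ} (h1 : h < x) (h2 : x ≤ x') :
    T x (W x - 1) h ≤ T x' (W x' - 1) h := by
  rw [T_le _ _ _ (by omega), T_le _ _ _ (by omega)]
  have := p.mono h2; omega

lemma T_mono_right {W : ℕ → ℤ} (p : IsPath W) {h x x' : ℕ} (h1 : x' ≤ x) (h2 : x < h) :
    T x (W x - 1) h ≤ T x' (W x' - 1) h := by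
  have := p.nonneg x
  have := p.nonneg x'
  rw [T_ge _ _ _ (by omega) (by omega), T_ge _ _ _ (by omega) (by omega)]
  have := p.mono h1; omega

lemma P_mono_left (s : Sit A B R) {h x x' : ℕ} (h1 : h < x) (h2 : x ≤ x') :
    P A R x h ≤ P A R x' h := min_le_min_right _ (T_mono_left s.pA h1 h2)

lemma P_mono_right (s : Sit A B R) {h x x' : ℕ} (h1 : x' ≤ x) (h2 : x < h) :
    P A R x h ≤ P A R x' h := min_le_min_right _ (T_mono_right s.pA h1 h2)

lemma P_self (s : Sit A B R) {x : ℕ} (c : Cor A x) : P A R x x ≤ A x - 1 := by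
  unfold P; rw [T_at s.pA c]; exact min_le_left _ _

lemma S_self (s : Sit A B R) {x : ℕ} (c : Cor B x) : S B x x = B x - 1 := T_at s.pB c

lemma good_P (s : Sit A B R) {X : Finset ℕ} (hne : X.Nonempty) (hX : ∀ x ∈ X, Cor A x ∧ B x ≤ A x)
    (cl : ∀ c ∈ X, ∃ x ∈ X, A c + 1 ≤ P A R x c) : Good A B := by
  set l := X.min' hne with hl
  set r := X.max' hne with hr
  have hlX : l ∈ X := X.min'_mem hne
  have hrX : r ∈ X := X.max'_mem hne
  obtain ⟨x1, hx1, h1⟩ := cl l hlX
  obtain ⟨x2, hx2, h2⟩ := cl r hrX
  have n1 : x1 ≠ l := by rintro h; rw [h] at h1; have := P_self s (hX l hlX).1; omega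
  have n2 : x2 ≠ r := by rintro h; rw [h] at h2; have := P_self s (hX r hrX).1; omega
  have m1 : l ≤ x1 := X.min'_le _ hx1
  have m2 : x1 ≤ r := X.le_max' _ hx1
  have m3 : l ≤ x2 := X.min'_le _ hx2
  have m4 : x2 ≤ r := X.le_max' _ hx2
  refine mk2 (P_niceA s (hX l hlX).1) (P_niceA s (hX r hrX).1) ?_ ?_
  · have := P_mono_right (R := R) s m3 (show x2 < r by omega); omega
  · have := P_mono_left (R := R) s (show l < x1 by omega) m2; omega

lemma good_S (s : Sit A B R) {X : Finset ℕ} (hne : X.Nonempty) (hX : ∀ x ∈ X, Cor B x ∧ B x ≤ A x)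
    (cl : ∀ c ∈ X, ∃ x ∈ X, B c + 1 ≤ S B x c) : Good A B := by
  set l := X.min' hne with hl
  set r := X.max' hne with hr
  have hlX : l ∈ X := X.min'_mem hne
  have hrX : r ∈ X := X.max'_mem hne
  obtain ⟨x1, hx1, h1⟩ := cl l hlX
  obtain ⟨x2, hx2, h2⟩ := cl r hrX
  have n1 : x1 ≠ l := by rintro h; rw [h] at h1; have := S_self s (hX l hlX).1; omega
  have n2 : x2 ≠ r := by rintro h; rw [h] at h2; have := S_self s (hX r hrX).1; omega
  have m1 : l ≤ x1 := X.min'_le _ hx1
  have m2 : x1 ≤ r := X.le_max' _ hx1
  have m3 : l ≤ x2 := X.min'_le _ hx2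
  have m4 : x2 ≤ r := X.le_max' _ hx2
  refine mk2 (S_nice s (hX l hlX).1 (hX l hlX).2) (S_nice s (hX r hrX).1 (hX r hrX).2) ?_ ?_
  · have : S B x2 r ≤ S B l r := T_mono_right s.pB m3 (show x2 < r by omega)
    omega
  · have : S B x1 l ≤ S B r l := T_mono_left s.pB (show l < x1 by omega) m2
    omega

/-- four corners to the right of `R` -/
lemma four (s : Sit A B R) {u v l r : ℕ} (cu : Cor A u) (cv : Cor A v) (cl : Cor B l)
    (cr : Cor B r) (hl : B l ≤ A l) (hr : B r ≤ A r) (hRu : R < u) (hRl : R < l) (huv : u ≤ v)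
    (hlr : l ≤ r)
    (Hu : (A u + 1 ≤ P A R v u) ∨ (B u + 1 ≤ S B r u) ∨ (B u + 1 ≤ S B l u))
    (Hv : (A v + 1 ≤ P A R u v) ∨ (B v + 1 ≤ S B l v) ∨ (B v + 1 ≤ S B r v))
    (Hl : (B l + 1 ≤ S B r l) ∨ (A l + 1 ≤ P A R v l) ∨ (A l + 1 ≤ P A R u l))
    (Hr : (B r + 1 ≤ S B l r) ∨ (A r + 1 ≤ P A R u r) ∨ (A r + 1 ≤ P A R v r)) : Good A B := by
  have hR := s.hR
  -- evaluation of help on the right
  have Pr : ∀ x h, R < x → x < h → Cor A x → (A h + 1 ≤ P A R x h ↔ A h + 2 ≤ A x + ((h:ℤ) - x)) := by
    intro x h h1 h2 c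
    have a1 := s.pA.nonneg x
    have a2 := s.pA.nonneg R
    have a3 := s.pA.mono (show R ≤ x by omega)
    unfold P
    rw [T_ge _ _ _ (by omega) (by omega), T_ge _ _ _ (by omega) (by omega)]
    omega
  have Pl : ∀ x h, R < h → h < x → Cor A x → (A h + 1 ≤ P A R x h ↔
      (A h + 2 ≤ A x ∧ A h + 1 ≤ A R + ((h:ℤ) - R))) := by
    intro x h h1 h2 c
    have a1 := s.pB.nonneg R
    have a2 := s.pA.nonneg R
    have a3 := s.pA.mono (show h ≤ x by omega)
    unfold P
    rw [T_le _ _ _ (by omega), T_ge _ _ _ (by omega) (by omega)]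
    omega
  have Sr : ∀ y h, y < h → Cor B y → (B h + 1 ≤ S B y h ↔ B h + 2 ≤ B y + ((h:ℤ) - y)) := by
    intro y h h1 c
    have a1 := s.pB.nonneg y
    unfold S
    rw [T_ge _ _ _ (by omega) (by omega)]
    omega
  have Sl : ∀ y h, R < h → h < y → Cor B y → (B h + 1 ≤ S B y h ↔ B h + 2 ≤ B y) := by
    intro y h h0 h1 c
    have a1 := s.pB.nonneg R
    have a2 := s.corR.gt h h0
    unfold S
    rw [T_le _ _ _ (by omega)]
    omega
  have nu := P_self (R := R) s cu
  have nv := P_self (R := R) s cv
  have nl := S_self (A := A) (R := R) s cl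
  have nr := S_self (A := A) (R := R) s cr
  have pu := P_niceA s cu
  have pv := P_niceA s cv
  have sl := S_nice s cl hl
  have sr := S_nice s cr hr
  -- two-cycles
  have ga : A v + 1 ≤ P A R u v → A u + 1 ≤ P A R v u → Good A B := fun a b => mk2 pu pv a b
  have gb : B r + 1 ≤ S B l r → B l + 1 ≤ S B r l → Good A B := fun a b => mk2 sl sr a b
  have gc : A l + 1 ≤ P A R u l → B u + 1 ≤ S B l u → Good A B := fun a b => mk2 pu sl a b
  have gd : A r + 1 ≤ P A R u r → B u + 1 ≤ S B r u → Good A B := fun a b => mk2 pu sr a b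
  have ge : A l + 1 ≤ P A R v l → B v + 1 ≤ S B l v → Good A B := fun a b => mk2 pv sl a b
  have gf : A r + 1 ≤ P A R v r → B v + 1 ≤ S B r v → Good A B := fun a b => mk2 pv sr a b
  -- three-cycles
  have t1 : A v + 1 ≤ P A R u v → A l + 1 ≤ P A R v l → B u + 1 ≤ S B l u → Good A B :=
    fun a b c => mk3 pu pv sl a b c
  have t2 : A l + 1 ≤ P A R u l → B v + 1 ≤ S B l v → A u + 1 ≤ P A R v u → Good A B :=
    fun a b c => mk3 pu sl pv a b c
  have t3 : A v + 1 ≤ P A R u v → A r + 1 ≤ P A R v r → B u + 1 ≤ S B r u → Good A B :=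
    fun a b c => mk3 pu pv sr a b c
  have t4 : A r + 1 ≤ P A R u r → B v + 1 ≤ S B r v → A u + 1 ≤ P A R v u → Good A B :=
    fun a b c => mk3 pu sr pv a b c
  have t5 : A l + 1 ≤ P A R u l → B r + 1 ≤ S B l r → B u + 1 ≤ S B r u → Good A B :=
    fun a b c => mk3 pu sl sr a b c
  have t6 : A r + 1 ≤ P A R u r → B l + 1 ≤ S B r l → B u + 1 ≤ S B l u → Good A B :=
    fun a b c => mk3 pu sr sl a b c
  have t7 : A l + 1 ≤ P A R v l → B r + 1 ≤ S B l r → B v + 1 ≤ S B r v → Good A B :=
    fun a b c => mk3 pv sl sr a b c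
  have t8 : A r + 1 ≤ P A R v r → B l + 1 ≤ S B r l → B v + 1 ≤ S B l v → Good A B :=
    fun a b c => mk3 pv sr sl a b c
  -- order facts from the helps
  have uv : A v + 1 ≤ P A R u v → u < v := by
    intro h; rcases Nat.lt_or_ge u v with a | a
    · exact a
    · have : v = u := by omega
      subst this; omega
  have vu : A u + 1 ≤ P A R v u → u < v := by
    intro h; rcases Nat.lt_or_ge u v with a | a
    · exact a
    · have : v = u := by omega
      subst this; omega
  have lr : B r + 1 ≤ S B l r → l < r := by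
    intro h; rcases Nat.lt_or_ge l r with a | a
    · exact a
    · have : r = l := by omega
      subst this; omega
  have rl : B l + 1 ≤ S B r l → l < r := by
    intro h; rcases Nat.lt_or_ge l r with a | a
    · exact a
    · have : r = l := by omega
      subst this; omega
  have ne_ul : A l + 1 ≤ P A R u l → u ≠ l := by rintro h rfl; omega
  have ne_ur : A r + 1 ≤ P A R u r → u ≠ r := by rintro h rfl; omega
  have ne_vl : A l + 1 ≤ P A R v l → v ≠ l := by rintro h rfl; omega
  have ne_vr : A r + 1 ≤ P A R v r → v ≠ r := by rintro h rfl; omega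
  have ne_lu : B u + 1 ≤ S B l u → l ≠ u := by rintro h rfl; omega
  have ne_lv : B v + 1 ≤ S B l v → l ≠ v := by rintro h rfl; omega
  have ne_ru : B u + 1 ≤ S B r u → r ≠ u := by rintro h rfl; omega
  have ne_rv : B v + 1 ≤ S B r v → r ≠ v := by rintro h rfl; omega
  -- four-cycles
  have c1 : A v + 1 ≤ P A R u v → A l + 1 ≤ P A R v l → B r + 1 ≤ S B l r → B u + 1 ≤ S B r u →
      Good A B := by
    intro a b c d
    have o1 := uv a
    have o2 := lr c
    rw [Pr u v hRu o1 cu] at a
    rw [Sr l r o2 cl] at c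
    rcases Nat.lt_or_ge v r with h | h
    · apply gd _ d
      rw [Pr u r hRu (by omega) cu]
      have := s.pA.mono (show v ≤ r by omega); omega
    · apply ge b
      rw [Sr l v (by omega) cl]
      have := s.pB.mono h; omega
  have c2 : A v + 1 ≤ P A R u v → A r + 1 ≤ P A R v r → B l + 1 ≤ S B r l → B u + 1 ≤ S B l u →
      Good A B := by
    intro a b c d
    have o1 := uv a
    have o2 := rl c
    have o3 := ne_vr b
    have o4 := ne_lu d
    rcases Nat.lt_or_ge v r with h | h
    · refine t6 ?_ c d
      rw [Pr u v hRu o1 cu] at a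
      rw [Pr u r hRu (by omega) cu]
      have := s.pA.mono (show v ≤ r by omega); omega
    · have b' := b
      rw [Pl v r (by omega) (by omega) cv] at b'
      have m1 := s.pA.mono (show l ≤ r by omega)
      by_cases hz : A l + 1 ≤ A R + ((l:ℤ) - R)
      · refine t1 a ?_ d
        rw [Pl v l hRl (by omega) cv]; omega
      · -- A has only ones on (R,l], so u > l
        have hul : l < u := by
          rcases Nat.lt_or_ge l u with h1 | h1
          · exact h1
          · exfalso
            have := cu.gt l (by omega)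
            have := s.pA.mono (show R ≤ u by omega)
            omega
        refine t8 b c ?_
        rw [Sr l u hul cl] at d
        rw [Sr l v (by omega) cl]
        have := s.pB.mono (show u ≤ v by omega); omega
  have c3 : A l + 1 ≤ P A R u l → B v + 1 ≤ S B l v → A r + 1 ≤ P A R v r → B u + 1 ≤ S B r u →
      Good A B := by
    intro a b c d
    have o1 := ne_ul a
    have o2 := ne_ru d
    rcases Nat.lt_or_ge u l with h | h
    · rw [Pr u l hRu h cu] at a
      apply gd _ d
      rw [Pr u r hRu (by omega) cu]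
      have := s.pA.mono hlr; omega
    · rw [Pl u l hRl (by omega) cu] at a
      apply ge _ b
      rw [Pl v l hRl (by omega) cv]
      have := s.pA.mono huv; omega
  have c4 : A l + 1 ≤ P A R u l → B r + 1 ≤ S B l r → B v + 1 ≤ S B r v → A u + 1 ≤ P A R v u →
      Good A B := by
    intro a b c d
    have o1 := ne_ul a
    have o2 := lr b
    have o3 := vu d
    have o4 := ne_rv c
    rcases Nat.lt_or_ge u l with h | h
    · have a' := a
      rw [Pr u l hRu h cu] at a'
      rcases Nat.lt_or_ge v l with h2 | h2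
      · rw [Sl r v (by omega) (by omega) cr] at c
        refine gd ?_ ?_
        · rw [Pr u r hRu (by omega) cu]
          have := s.pA.mono hlr; omega
        · rw [Sl r u hRu (by omega) cr]
          have := s.pB.mono huv; omega
      · refine ga ?_ d
        rw [Pr u v hRu (by omega) cu]
        have := s.pA.mono h2; omega
    · rw [Pl u l hRl (by omega) cu] at a
      rcases Nat.lt_or_ge r v with h2 | h2
      · rw [Sr r v h2 cr] at c
        refine ge ?_ ?_
        · rw [Pl v l hRl (by omega) cv]
          have := s.pA.mono huv; omega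
        · rw [Sr l r o2 cl] at b
          rw [Sr l v (by omega) cl]
          have := s.pB.mono (show r ≤ v by omega); omega
      · rw [Sl r v (by omega) (by omega) cr] at c
        refine gb b ?_
        rw [Sl r l hRl o2 cr]
        have := s.pB.mono (show l ≤ v by omega); omega
  have c5 : A r + 1 ≤ P A R u r → B v + 1 ≤ S B r v → A l + 1 ≤ P A R v l → B u + 1 ≤ S B l u →
      Good A B := by
    intro a b c d
    have o1 := ne_lu d
    rcases Nat.lt_or_ge l u with h | h
    · rw [Sr l u h cl] at d
      refine ge c ?_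
      rw [Sr l v (by omega) cl]
      have := s.pB.mono huv; omega
    · rw [Sl l u hRu (by omega) cl] at d
      refine gd a ?_
      rw [Sl r u hRu (by omega) cr]
      have := s.pB.mono hlr; omega
  have c6 : A r + 1 ≤ P A R u r → B l + 1 ≤ S B r l → B v + 1 ≤ S B l v → A u + 1 ≤ P A R v u →
      Good A B := by
    intro a b c d
    have o1 := ne_ur a
    have o2 := rl b
    have o3 := vu d
    have o4 := ne_lv c
    rcases Nat.lt_or_ge r u with h | h
    · rw [Pl u r (by omega) h cu] at a
      refine t8 ?_ b c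
      rw [Pl v r (by omega) (by omega) cv]
      have := s.pA.mono huv; omega
    · have a' := a
      rw [Pr u r hRu (by omega) cu] at a'
      rcases Nat.lt_or_ge v r with h2 | h2
      · rcases Nat.lt_or_ge l v with h3 | h3
        · rw [Sr l v h3 cl] at c
          refine gb ?_ b
          rw [Sr l r o2 cl]
          have := s.pB.mono (show v ≤ r by omega); omega
        · rw [Sl l v (by omega) (by omega) cl] at c
          refine gd a ?_
          rw [Sl r u hRu (by omega) cr]
          have := s.pB.mono huv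
          have := s.pB.mono hlr; omega
      · refine ga ?_ d
        rw [Pr u v hRu (by omega) cu]
        have := s.pA.mono h2; omega
  rcases Hu with h1 | h1 | h1 <;> rcases Hv with h2 | h2 | h2 <;> rcases Hl with h3 | h3 | h3 <;>
    rcases Hr with h4 | h4 | h4 <;>
  first
    | exact ga (by assumption) (by assumption)
    | exact gb (by assumption) (by assumption)
    | exact gc (by assumption) (by assumption)
    | exact gd (by assumption) (by assumption)
    | exact ge (by assumption) (by assumption)
    | exact gf (by assumption) (by assumption)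
    | exact t1 (by assumption) (by assumption) (by assumption)
    | exact t2 (by assumption) (by assumption) (by assumption)
    | exact t3 (by assumption) (by assumption) (by assumption)
    | exact t4 (by assumption) (by assumption) (by assumption)
    | exact t5 (by assumption) (by assumption) (by assumption)
    | exact t6 (by assumption) (by assumption) (by assumption)
    | exact t7 (by assumption) (by assumption) (by assumption)
    | exact t8 (by assumption) (by assumption) (by assumption)
    | exact c1 (by assumption) (by assumption) (by assumption) (by assumption)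
    | exact c2 (by assumption) (by assumption) (by assumption) (by assumption)
    | exact c3 (by assumption) (by assumption) (by assumption) (by assumption)
    | exact c4 (by assumption) (by assumption) (by assumption) (by assumption)
    | exact c5 (by assumption) (by assumption) (by assumption) (by assumption)
    | exact c6 (by assumption) (by assumption) (by assumption) (by assumption)

/-- the left case of step gamma -/
lemma stepG_left (s : Sit A B R) {X Y : Finset ℕ} (hX : ∀ x ∈ X, Cor A x ∧ B x ≤ A x)
    (hY : ∀ y ∈ Y, Cor B y ∧ B y ≤ A y) (hSR : ∀ y ∈ Y, S B y R = B R)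
    (cl : ∀ c ∈ X ∪ Y, Hlp A B R X Y c) (hall : ∀ y ∈ Y, y < R) {y : ℕ} (hy : y ∈ Y) :
    Good A B := by
  have hR := s.hR
  have low : ∀ y' ∈ Y, B y' = B R - ((R:ℤ) - y') + 1 := by
    intro y' hy'
    have h' := hall y' hy'
    have h1 := hSR y' hy'
    unfold S at h1
    have h2 := s.pB.nonneg y'
    rw [T_ge _ _ _ (by omega) (by omega)] at h1
    omega
  have huniq : ∀ y' ∈ Y, y' = y := by
    intro y' hy'
    have h2 := low y' hy'
    have h3 := low y hy
    by_contra hne
    rcases lt_or_gt_of_ne hne with h | h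
    · have := (hY y' hy').1.gt y h; omega
    · have := (hY y hy).1.gt y' h; omega
  have cy := (hY y hy).1
  have hyle := (hY y hy).2
  have hyR := hall y hy
  have hylow := low y hy
  have ny := S_nice s cy hyle
  have yself := S_self (A := A) (R := R) s cy
  -- y is helped by a P
  obtain ⟨z, hz, hzy⟩ : ∃ z ∈ X, A y + 1 ≤ P A R z y := by
    rcases cl y (mem_union_right _ hy) with h | ⟨y', hy', h⟩
    · exact h
    · rw [huniq y' hy'] at h; omega
  have hTy : A y + 1 ≤ T R (A R) y := le_trans hzy (min_le_right _ _)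
  rw [T_le _ _ _ (by omega)] at hTy
  -- S_y helps nobody between y and R
  have Sno : ∀ x, y < x → x < R → ¬ (B x + 1 ≤ S B y x) := by
    intro x h1 h2 h3
    unfold S at h3
    have := s.pB.nonneg y
    rw [T_ge _ _ _ (by omega) (by omega)] at h3
    have := s.pB.mono (show x ≤ R by omega)
    omega
  by_cases hXR : ∃ x ∈ X, R < x
  · obtain ⟨x, hx, hxR⟩ := hXR
    refine mk2 (P_niceA s (hX x hx).1) ny ?_ ?_
    · have := (hX x hx).1.lt R hxR
      unfold P
      rw [T_le _ _ _ (by omega), T_le _ _ _ (by omega)]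
      omega
    · unfold S
      have := s.pB.nonneg y
      rw [T_ge _ _ _ (by omega) (by omega)]
      have := s.corR.gt x hxR
      omega
  push Not at hXR
  have hXlt : ∀ x ∈ X, x < R := by
    intro x hx
    rcases lt_or_eq_of_le (hXR x hx) with h | h
    · exact h
    · exfalso; have := (hX x hx).2; rw [h] at this; omega
  by_cases hS : ∃ x ∈ X, B x + 1 ≤ S B y x
  · obtain ⟨x1, hx1, h1⟩ := hS
    have hx1y : x1 < y := by
      rcases lt_trichotomy x1 y with h | h | h
      · exact h
      · rw [h] at h1; omega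
      · exact absurd h1 (Sno x1 h (hXlt x1 hx1))
    have hne : X.Nonempty := ⟨x1, hx1⟩
    have h0X : X.min' hne ∈ X := X.min'_mem hne
    have h01 : X.min' hne ≤ x1 := X.min'_le _ hx1
    have hwX : X.max' hne ∈ X := X.max'_mem hne
    have h0all : ∀ x ∈ X, X.min' hne ≤ x := fun x hx => X.min'_le _ hx
    have hwall : ∀ x ∈ X, x ≤ X.max' hne := fun x hx => X.le_max' _ hx
    generalize X.min' hne = x0 at h0X h01 h0all
    generalize X.max' hne = w at hwX hwall
    have hM0 : B x0 + 1 ≤ x0 := by
      rcases cl x0 (mem_union_left _ h0X) with ⟨x, hx, h⟩ | ⟨x, hx, h⟩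
      · have e1 := (P_path s (hX x hx).1).nonneg x0
        have e2 := (hX x0 h0X).2
        omega
      · have e1 := (S_loses s (hY x hx).1 (hY x hx).2).1.nonneg x0
        omega
    have hS0 : B x0 + 1 ≤ S B y x0 := by
      unfold S at h1 ⊢
      rw [T_le _ _ _ (by omega)] at h1 ⊢
      have := s.pB.mono h01
      omega
    rcases lt_trichotomy z y with h | h | h
    · have e1 := P_mono_right (R := R) s (h0all z hz) h
      exact mk2 (P_niceA s (hX x0 h0X).1) ny (by omega) hS0
    · rw [h] at hzy
      have := P_self (R := R) s (h ▸ (hX z hz).1); omega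
    · have e1 := P_mono_left (R := R) s h (hwall z hz)
      have hwy : A y + 1 ≤ P A R w y := by omega
      have hyw : y < w := lt_of_lt_of_le h (hwall z hz)
      rcases cl w (mem_union_left _ hwX) with ⟨v, hv, hvw⟩ | ⟨v, hv, hvw⟩
      · have e2 : v ≠ w := by
          rintro rfl; have := P_self (R := R) s (hX v hv).1; omega
        have e3 := hwall v hv
        have e4 := P_mono_right (R := R) s (h0all v hv) (show v < w by omega)
        exact mk3 (P_niceA s (hX x0 h0X).1) (P_niceA s (hX w hwX).1) ny (by omega) hwy hS0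
      · rw [huniq v hv] at hvw
        exact absurd hvw (Sno w hyw (hXlt w hwX))
  · push Not at hS
    refine good_P s ⟨z, hz⟩ hX ?_
    intro c hc
    rcases cl c (mem_union_left _ hc) with h | ⟨y', hy', h⟩
    · exact h
    · rw [huniq y' hy'] at h
      have := hS c hc; omega

/-- the right case of step gamma -/
lemma stepG_right (s : Sit A B R) {X Y : Finset ℕ} (hX : ∀ x ∈ X, Cor A x ∧ B x ≤ A x)
    (hY : ∀ y ∈ Y, Cor B y ∧ B y ≤ A y) (hSR : ∀ y ∈ Y, S B y R = B R)
    (cl : ∀ c ∈ X ∪ Y, Hlp A B R X Y c) (hall : ∀ y ∈ Y, R < y) (hYne : Y.Nonempty) :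
    Good A B := by
  have hR := s.hR
  have hBR := s.pB.nonneg R
  by_cases hXR : ∃ x ∈ X, x < R
  · obtain ⟨x, hx, hxR⟩ := hXR
    have hM : B x + 1 ≤ x := by
      rcases cl x (mem_union_left _ hx) with ⟨x', hx', h⟩ | ⟨x', hx', h⟩
      · have e1 := (P_path s (hX x' hx').1).nonneg x
        have e2 := (hX x hx).2
        omega
      · have e1 := (S_loses s (hY x' hx').1 (hY x' hx').2).1.nonneg x
        omega
    have hMR : B R + 1 ≤ R := by
      have := s.pB.mono (show x ≤ R by omega); omega
    have hBy : ∀ y ∈ Y, B y - 1 = B R := by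
      intro y hy
      have h1 := hSR y hy
      unfold S at h1
      rw [T_le _ _ _ (le_of_lt (hall y hy))] at h1
      omega
    obtain ⟨y, hy⟩ := hYne
    have hyR := hall y hy
    obtain ⟨v, hv, hvy⟩ : ∃ v ∈ X, A y + 1 ≤ P A R v y := by
      rcases cl y (mem_union_right _ hy) with h | ⟨y', hy', h⟩
      · exact h
      · exfalso
        have e1 := hBy y hy
        have e2 := hBy y' hy'
        rcases lt_trichotomy y' y with h3 | h3 | h3
        · have := (hY y hy).1.lt y' h3; omega
        · rw [h3] at h; have := S_self (A := A) (R := R) s (hY y hy).1; omega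
        · have := (hY y' hy').1.lt y h3; omega
    have hTy : A y + 1 ≤ T R (A R) y := le_trans hvy (min_le_right _ _)
    have hAR := s.pA.nonneg R
    rw [T_ge _ _ _ (by omega) (by omega)] at hTy
    refine mk2 (P_niceA s (hX x hx).1) (S_nice s (hY y hy).1 (hY y hy).2) ?_ ?_
    · have e1 := (hX x hx).1.gt R hxR
      have e2 := s.pA.nonneg x
      unfold P
      rw [T_ge _ _ _ (by omega) (by omega), T_ge _ _ _ (by omega) (by omega)]
      omega
    · unfold S
      rw [T_le _ _ _ (by omega)]
      have := s.corR.lt x hxR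
      have := hBy y hy
      omega
  push Not at hXR
  have hXgt : ∀ x ∈ X, R < x := by
    intro x hx
    rcases lt_or_eq_of_le (hXR x hx) with h | h
    · exact h
    · exfalso; have := (hX x hx).2; rw [← h] at this; omega
  by_cases hXne : X.Nonempty
  · have huX : X.min' hXne ∈ X := X.min'_mem hXne
    have hvX : X.max' hXne ∈ X := X.max'_mem hXne
    have hlY : Y.min' hYne ∈ Y := Y.min'_mem hYne
    have hrY : Y.max' hYne ∈ Y := Y.max'_mem hYne
    have hu : ∀ x ∈ X, X.min' hXne ≤ x := fun x hx => X.min'_le _ hx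
    have hv : ∀ x ∈ X, x ≤ X.max' hXne := fun x hx => X.le_max' _ hx
    have hl : ∀ x ∈ Y, Y.min' hYne ≤ x := fun x hx => Y.min'_le _ hx
    have hr : ∀ x ∈ Y, x ≤ Y.max' hYne := fun x hx => Y.le_max' _ hx
    generalize X.min' hXne = u at huX hu
    generalize X.max' hXne = v at hvX hv
    generalize Y.min' hYne = l at hlY hl
    generalize Y.max' hYne = r at hrY hr
    -- every corner is helped by one of the four
    have key : ∀ c ∈ X ∪ Y, (c < v ∧ A c + 1 ≤ P A R v c) ∨ (u < c ∧ A c + 1 ≤ P A R u c) ∨
        (c < r ∧ B c + 1 ≤ S B r c) ∨ (l < c ∧ B c + 1 ≤ S B l c) := by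
      intro c hc
      rcases cl c hc with ⟨x, hx, h⟩ | ⟨y, hy, h⟩
      · rcases lt_trichotomy x c with h1 | h1 | h1
        · right; left
          refine ⟨lt_of_le_of_lt (hu x hx) h1, ?_⟩
          have := P_mono_right (R := R) s (hu x hx) h1; omega
        · exfalso; rw [← h1] at h; have := P_self (R := R) s (hX x hx).1; omega
        · left
          refine ⟨lt_of_lt_of_le h1 (hv x hx), ?_⟩
          have := P_mono_left (R := R) s h1 (hv x hx); omega
      · rcases lt_trichotomy y c with h1 | h1 | h1
        · right; right; right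
          refine ⟨lt_of_le_of_lt (hl y hy) h1, ?_⟩
          have : S B y c ≤ S B l c := T_mono_right s.pB (hl y hy) h1
          omega
        · exfalso; rw [← h1] at h; have := S_self (A := A) (R := R) s (hY y hy).1; omega
        · right; right; left
          refine ⟨lt_of_lt_of_le h1 (hr y hy), ?_⟩
          have : S B y c ≤ S B r c := T_mono_left s.pB h1 (hr y hy)
          omega
    refine four s (hX u huX).1 (hX v hvX).1 (hY l hlY).1 (hY r hrY).1 (hY l hlY).2 (hY r hrY).2
      (hXgt u huX) (hall l hlY) (hu v hvX) (hl r hrY) ?_ ?_ ?_ ?_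
    · rcases key u (mem_union_left _ huX) with h | h | h | h
      · exact Or.inl h.2
      · omega
      · exact Or.inr (Or.inl h.2)
      · exact Or.inr (Or.inr h.2)
    · rcases key v (mem_union_left _ hvX) with h | h | h | h
      · omega
      · exact Or.inl h.2
      · exact Or.inr (Or.inr h.2)
      · exact Or.inr (Or.inl h.2)
    · rcases key l (mem_union_right _ hlY) with h | h | h | h
      · exact Or.inr (Or.inl h.2)
      · exact Or.inr (Or.inr h.2)
      · exact Or.inl h.2
      · omega
    · rcases key r (mem_union_right _ hrY) with h | h | h | h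
      · exact Or.inr (Or.inr h.2)
      · exact Or.inr (Or.inl h.2)
      · omega
      · exact Or.inl h.2
  · rw [not_nonempty_iff_eq_empty] at hXne
    refine good_S s hYne hY ?_
    intro c hc
    rcases cl c (mem_union_right _ hc) with ⟨x, hx, -⟩ | h
    · rw [hXne] at hx; exact absurd hx (notMem_empty _)
    · exact h

end

theorem stepG : StmtG := by
  intro A B R s X Y hX hY hne hSR cl
  have hR := s.hR
  by_cases hYne : Y.Nonempty
  · by_cases h1 : ∀ y ∈ Y, y < R
    · obtain ⟨y, hy⟩ := hYne
      exact stepG_left s hX hY hSR cl h1 hy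
    by_cases h2 : ∀ y ∈ Y, R < y
    · exact stepG_right s hX hY hSR cl h2 hYne
    push Not at h1 h2
    obtain ⟨y2, hy2, hR2⟩ := h1
    obtain ⟨y1, hy1, hR1⟩ := h2
    have ne1 : y1 ≠ R := by rintro h; have := (hY y1 hy1).2; rw [h] at this; omega
    have ne2 : y2 ≠ R := by rintro h; have := (hY y2 hy2).2; rw [h] at this; omega
    have hlow : B y1 = B R - ((R:ℤ) - y1) + 1 := by
      have h1 := hSR y1 hy1
      unfold S at h1
      have h2 := s.pB.nonneg y1
      rw [T_ge _ _ _ (by omega) (by omega)] at h1
      omega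
    have hyp : B y1 + 1 ≤ y1 := by
      rcases cl y1 (mem_union_right _ hy1) with ⟨x, hx, h⟩ | ⟨x, hx, h⟩
      · have h1 := (P_path s (hX x hx).1).nonneg y1
        have h2 := (hY y1 hy1).2
        omega
      · have h1 := (S_loses s (hY x hx).1 (hY x hx).2).1.nonneg y1
        omega
    refine mk2 (S_nice s (hY y1 hy1).1 (hY y1 hy1).2) (S_nice s (hY y2 hy2).1 (hY y2 hy2).2) ?_ ?_
    · unfold S
      have h2 := s.pB.nonneg y1
      rw [T_ge _ _ _ (by omega) (by omega)]
      have := s.corR.gt y2 (by omega)
      omega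
    · unfold S
      rw [T_le _ _ _ (by omega)]
      have := s.corR.lt y1 (by omega)
      have := (hY y2 hy2).1.lt R (by omega)
      omega
  · rw [not_nonempty_iff_eq_empty] at hYne
    subst hYne
    rw [union_empty] at hne cl
    refine good_P s hne hX ?_
    intro c hc
    rcases cl c hc with h | ⟨y, hy, -⟩
    · exact h
    · exact absurd hy (notMem_empty _)

end Pool.Agent.R90.W
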