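import Pool.Agent.R90.Games
import Pool.Agent.R90.W.Defs

set_option autoImplicit false
set_option linter.unusedSectionVars false

/-!
# Coalitions of a complete game as lattice paths
-/

namespace Pool.Agent.R90.W

open Finset Pool.Agent.R90.Games

section order
variable {N : Type} [Fintype N] [DecidableEq N]

lemma desir_refl (G : SimpleGame N) (p : N) : Desir G p p := fun _ _ _ h => h

lemma desir_trans (G : SimpleGame N) {p q r : N} (h1 : Desir G p q) (h2 : Desir G q r) :
    Desir G p r := by
  intro S hp hr hw
  by_cases hpq : p = q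
  · subst hpq; exact h2 S hp hr hw
  by_cases hqr : q = r
  · subst hqr; exact h1 S hp hr hw
  by_cases hpr : p = r
  · subst hpr; exact hw
  by_cases hq : q ∈ S
  · have e1 : insert q (insert r (S.erase q)) = insert r S := by
      ext x; simp only [mem_insert, mem_erase]
      by_cases hx : x = q
      · subst hx; simp [hq]
      · simp [hx]
    have e2 := h1 (insert r (S.erase q)) (by simp [hpr, hp]) (by simp [hqr]) (by rw [e1]; exact hw)
    have e3 : insert r (insert p (S.erase q)) = insert p (insert r (S.erase q)) := insert_comm _ _ _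
    have e4 := h2 (insert p (S.erase q)) (by simp [Ne.symm hpq]) (by simp [Ne.symm hpr, hr])
      (by rw [e3]; exact e2)
    have e5 : insert q (insert p (S.erase q)) = insert p S := by
      ext x; simp only [mem_insert, mem_erase]
      by_cases hx : x = q
      · subst hx; simp [hq]
      · simp [hx]
    rwa [e5] at e4
  · exact h1 S hp hq (h2 S hq hr hw)

/-- an enumeration of the players by decreasing desirability -/
structure Enum (G : SimpleGame N) (idx : N → ℕ) (n : ℕ) : Prop where
  inj : Function.Injective idx
  lt : ∀ p, idx p < n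
  surj : ∀ h, h < n → ∃ p, idx p = h
  des : ∀ p q, idx p < idx q → Desir G p q

lemma exists_enum (G : SimpleGame N) (hc : Complete G) : ∃ idx n, Enum G idx n := by
  classical
  let r : N → N → Prop := fun p q => Desir G p q
  have : Std.Total r := ⟨fun a b => hc a b⟩
  have : IsTrans N r := ⟨fun a b c h1 h2 => desir_trans G h1 h2⟩
  let l := (univ : Finset N).toList.insertionSort r
  have hperm : l.Perm (univ : Finset N).toList := List.perm_insertionSort r _
  have hnd : l.Nodup := hperm.nodup_iff.2 (Finset.nodup_toList _)
  have hmem : ∀ p, p ∈ l := fun p => hperm.mem_iff.2 (by simp)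
  have hpw : l.Pairwise r := List.pairwise_insertionSort r _
  refine ⟨fun p => l.idxOf p, l.length, ?_, ?_, ?_, ?_⟩
  · intro p q hpq
    exact (List.idxOf_inj (hmem p)).1 hpq
  · intro p; exact List.idxOf_lt_length_iff.2 (hmem p)
  · intro h hh; exact ⟨l[h], hnd.idxOf_getElem h hh⟩
  · intro p q hpq
    have h1 : l.idxOf p < l.length := List.idxOf_lt_length_iff.2 (hmem p)
    have h2 : l.idxOf q < l.length := List.idxOf_lt_length_iff.2 (hmem q)
    have := List.pairwise_iff_getElem.1 hpw _ _ h1 h2 hpq
    rwa [List.getElem_idxOf h1, List.getElem_idxOf h2] at this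

end order

section pth
variable {N : Type} [Fintype N] [DecidableEq N]

/-- the lattice path of a coalition -/
def pth (idx : N → ℕ) (S : Finset N) (h : ℕ) : ℤ := ((S.filter (fun p => idx p < h)).card : ℤ)

variable {G : SimpleGame N} {idx : N → ℕ} {n : ℕ}

lemma pth_erase (idx : N → ℕ) (S : Finset N) (p : N) (hp : p ∈ S) (g : ℕ) :
    pth idx (S.erase p) g = pth idx S g - (if idx p < g then 1 else 0) := by
  unfold pth
  rw [filter_erase]
  split_ifs with h
  · rw [card_erase_of_mem (mem_filter.2 ⟨hp, h⟩)]
    have : 0 < (S.filter (fun p => idx p < g)).card := card_pos.2 ⟨p, mem_filter.2 ⟨hp, h⟩⟩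
    push_cast [Nat.cast_sub (Nat.succ_le_of_lt this)]
    omega
  · rw [erase_eq_of_notMem]
    · simp
    · intro hh; exact h (mem_filter.1 hh).2

lemma pth_insert (idx : N → ℕ) (S : Finset N) (p : N) (hp : p ∉ S) (g : ℕ) :
    pth idx (insert p S) g = pth idx S g + (if idx p < g then 1 else 0) := by
  have := pth_erase idx (insert p S) p (mem_insert_self _ _) g
  rw [erase_insert hp] at this
  omega

/-- replacing `p` by a later `q` -/
lemma pth_swap (idx : N → ℕ) (S : Finset N) (p q : N) (hp : p ∈ S) (hq : q ∉ S)
    (hpq : idx p < idx q) (g : ℕ) :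
    pth idx (insert q (S.erase p)) g = pth idx S g - (if idx p < g ∧ g ≤ idx q then 1 else 0) := by
  rw [pth_insert _ _ _ (by simp [hq]), pth_erase _ _ _ hp]
  split_ifs <;> omega

/-- replacing `q` by an earlier `p` -/
lemma pth_swap' (idx : N → ℕ) (S : Finset N) (p q : N) (hp : p ∉ S) (hq : q ∈ S)
    (hpq : idx p < idx q) (g : ℕ) :
    pth idx (insert p (S.erase q)) g = pth idx S g + (if idx p < g ∧ g ≤ idx q then 1 else 0) := by
  rw [pth_insert _ _ _ (by simp [hp]), pth_erase _ _ _ hq]
  split_ifs <;> omega

lemma pth_path (e : Enum G idx n) (S : Finset N) : IsPath (pth idx S) := by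
  constructor
  · unfold pth; simp
  · intro h
    by_cases hh : ∃ p ∈ S, idx p = h
    · right
      obtain ⟨p, hp, hph⟩ := hh
      unfold pth
      have : S.filter (fun q => idx q < h + 1) = insert p (S.filter (fun q => idx q < h)) := by
        ext q
        simp only [mem_filter, mem_insert]
        constructor
        · rintro ⟨h1, h2⟩
          by_cases h3 : idx q = h
          · left; exact e.inj (h3.trans hph.symm)
          · right; exact ⟨h1, by omega⟩
        · rintro (rfl | ⟨h1, h2⟩)
          · exact ⟨hp, by omega⟩
          · exact ⟨h1, by omega⟩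
      rw [this, card_insert_of_notMem (by simp [hph])]
      push_cast; ring
    · left
      push Not at hh
      unfold pth
      congr 2
      ext q
      simp only [mem_filter]
      constructor
      · rintro ⟨h1, h2⟩; exact ⟨h1, by have := hh q h1; omega⟩
      · rintro ⟨h1, h2⟩; exact ⟨h1, by omega⟩

lemma pth_const (e : Enum G idx n) (S : Finset N) (h : ℕ) (hh : n ≤ h) : pth idx S h = pth idx S n := by
  unfold pth
  congr 2
  ext q
  simp only [mem_filter]
  have := e.lt q
  constructor <;> rintro ⟨h1, h2⟩ <;> exact ⟨h1, by omega⟩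

lemma pth_evc (e : Enum G idx n) (S : Finset N) : EvC (pth idx S) :=
  ⟨n, fun h hh => pth_const e S h hh⟩

/-- step of the path at a player -/
lemma pth_step (e : Enum G idx n) (S : Finset N) (p : N) :
    pth idx S (idx p + 1) = pth idx S (idx p) + (if p ∈ S then 1 else 0) := by
  split_ifs with hp
  · have h1 := pth_erase idx S p hp (idx p + 1)
    have h2 := pth_erase idx S p hp (idx p)
    rw [if_pos (by omega)] at h1
    rw [if_neg (by omega)] at h2
    have h3 : pth idx (S.erase p) (idx p + 1) = pth idx (S.erase p) (idx p) := by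
      unfold pth
      congr 2
      ext q
      simp only [mem_filter, mem_erase]
      constructor
      · rintro ⟨⟨h1, h2⟩, h3⟩
        refine ⟨⟨h1, h2⟩, ?_⟩
        have : idx q ≠ idx p := fun h => h1 (e.inj h)
        omega
      · rintro ⟨h1, h2⟩; exact ⟨h1, by omega⟩
    omega
  · unfold pth
    rw [add_zero]
    congr 2
    ext q
    simp only [mem_filter]
    constructor
    · rintro ⟨h1, h2⟩
      refine ⟨h1, ?_⟩
      have : idx q ≠ idx p := fun h => hp (e.inj h ▸ h1)
      omega
    · rintro ⟨h1, h2⟩; exact ⟨h1, by omega⟩

lemma pth_inj (e : Enum G idx n) {S S' : Finset N} (h : ∀ g, pth idx S g = pth idx S' g) :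
    S = S' := by
  ext p
  have h1 := pth_step e S p
  have h2 := pth_step e S' p
  rw [h, h] at h1
  rw [h1] at h2
  by_cases a : p ∈ S <;> by_cases b : p ∈ S' <;> simp [a, b] at h2 ⊢

/-- a winning coalition stays winning if its path is raised -/
lemma win_of_pth_le (e : Enum G idx n) (m : ℕ) : ∀ S S' : Finset N, (S \ S').card ≤ m →
    (∀ g, pth idx S g ≤ pth idx S' g) → G.Win S → G.Win S' := by
  induction m with
  | zero =>
    intro S S' hm _ hw
    have : S ⊆ S' := by
      rw [← sdiff_eq_empty_iff_subset]; exact card_eq_zero.1 (by omega)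
    exact G.mono _ _ this hw
  | succ m ih =>
    intro S S' hm hle hw
    by_cases hsub : S ⊆ S'
    · exact G.mono _ _ hsub hw
    have hne : (S \ S').Nonempty := by
      rw [nonempty_iff_ne_empty]; intro h; exact hsub (sdiff_eq_empty_iff_subset.1 h)
    -- the first element of S \ S'
    obtain ⟨q, hq, hqmin⟩ := exists_min_image (S \ S') idx hne
    rw [mem_sdiff] at hq
    -- the first element of S' \ S comes before
    have hstep1 := pth_step e S q
    have hstep2 := pth_step e S' q
    rw [if_pos hq.1] at hstep1
    rw [if_neg hq.2] at hstep2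
    have hlt : pth idx S (idx q) < pth idx S' (idx q) := by have := hle (idx q + 1); omega
    have hex : ∃ p ∈ S' \ S, idx p < idx q := by
      by_contra hcon
      push Not at hcon
      have : pth idx S' (idx q) ≤ pth idx S (idx q) := by
        unfold pth
        norm_cast
        apply card_le_card
        intro x hx
        rw [mem_filter] at hx ⊢
        refine ⟨?_, hx.2⟩
        by_contra hxS
        have := hcon x (mem_sdiff.2 ⟨hx.1, hxS⟩)
        omega
      omega
    obtain ⟨p, hp, hpmin⟩ := exists_min_image ((S' \ S).filter (fun p => idx p < idx q)) idx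
      (by obtain ⟨p, h1, h2⟩ := hex; exact ⟨p, mem_filter.2 ⟨h1, h2⟩⟩)
    rw [mem_filter, mem_sdiff] at hp
    obtain ⟨⟨hpS', hpS⟩, hpq⟩ := hp
    have hdes := e.des p q hpq
    have hw1 : G.Win (insert p (S.erase q)) := by
      apply hdes
      · simp [hpS]
      · simp
      · rw [insert_erase hq.1]; exact hw
    refine ih (insert p (S.erase q)) S' ?_ ?_ hw1
    · have : insert p (S.erase q) \ S' ⊆ (S \ S').erase q := by
        intro x hx
        rw [mem_sdiff, mem_insert, mem_erase] at hx
        rw [mem_erase, mem_sdiff]
        rcases hx with ⟨rfl | ⟨h1, h2⟩, h3⟩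
        · exact absurd hpS' h3
        · exact ⟨h1, h2, h3⟩
      have h1 := card_le_card this
      rw [card_erase_of_mem (mem_sdiff.2 hq)] at h1
      omega
    · intro g
      rw [pth_swap' idx S p q hpS hq.1 hpq]
      split_ifs with hg
      · -- between p and q : S' has everything of S, and p
        have : pth idx S g + 1 ≤ pth idx S' g := by
          unfold pth
          norm_cast
          rw [Nat.succ_le_iff]
          apply card_lt_card
          rw [ssubset_iff_of_subset]
          · exact ⟨p, mem_filter.2 ⟨hpS', hg.1⟩, fun h => hpS (mem_filter.1 h).1⟩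
          · intro x hx
            rw [mem_filter] at hx ⊢
            refine ⟨?_, hx.2⟩
            by_contra hxS'
            have := hqmin x (mem_sdiff.2 ⟨hx.1, hxS'⟩)
            omega
        exact this
      · have := hle g; omega

end pth

end Pool.Agent.R90.W
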